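import Pool.Agent.H92.V0F.Vsi
import Pool.Agent.H48.V0T.S2

/-!
# Several targets of one slope over slope-one places: the box of a record and the tie

`BoxT`: the numbers and the properties of a class near a window of a record with slopes one below the
place `k` and slope `s` at the places `k, …, k + f`. `WnT`: the windows of the charts. `TieIn`: on a
part of every large event the labels, the codes of order one (`dj`) and of order zero (`jt`) of the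
alive targets `k + al i`. `TieStmt`: the tie from the record and from a property of the windows.
-/

set_option autoImplicit false

namespace Pool.T4C72

open Finset Real MvPolynomial
open Pool.Agent.H49.Ent Pool.Agent.H32.Dense
open Pool.STK hiding pr2
open Pool.KA Pool.KSAT Pool.K2S Pool.PB Pool.S6C
open Pool.GEN Pool.CHT Pool.CHX Pool.ISO Pool.LA91 Pool.AVG71 Pool.AVG5 Pool.D2F2 Pool.AVG57
open Pool.RCD Pool.AVG96 Pool.OWN68 Pool.V0F Pool.V0Q Pool.V0T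
open Pool.AJW (CfB)
open Pool.D2R (WinB gnh hgt hyb)
open Pool.PB.Trl (rt)
open Pool.PKG (Kg RecG PropG)

/-- **The box of a record**: the class `S` near the window `w`, in the unit `u`. `φ`: the error of
the ladder, the levels and the rows; `e`: the error of the free velocities and of the no look-ahead
(in units `u`); `Λ`: the room; `D`: the degree of the labels. -/
structure BoxT {m : ℕ} (S : PCl m) (c : ℕ → Fin m) (k f D : ℕ) (sn sp : ℕ → ℝ → ℝ) (G : Set ℝ)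
    (s h b o w u Λ φ e : ℝ) (lam : ℝ → ℝ) : Prop where
  lad : LadT S c k f sn G b o φ
  img : (range (k + f)).image c = univ.erase (c (k + f))
  gd : ∀ (τ : ℝ) (J : ℕ) (F : Fam m J) (A : F.Ω → Prop), S.St τ J F A → Gd F
  u0 : 0 < u
  wG : w ∈ G
  bw : b + Λ * u ≤ w
  wo : w + Λ * u ≤ o
  o1 : o + Λ * u ≤ 1
  b0 : Λ * u ≤ b
  room : ∀ l ≤ k + f, Λ * u ≤ sn l b ∧ sn l o + Λ * u ≤ 1
  lin : ∀ l, k ≤ l → l ≤ k + f → ∀ v ∈ G, b ≤ v → v ≤ o → |sn l v - sn l w - s * (v - w)| ≤ φ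
  lamt : ∀ v : ℝ, b ≤ v → v ≤ o → |lam v - sn (k + f) w - s * (v - w)| ≤ φ
  row : ∀ P₁ P₂ : ℝ, |P₁ - sn (k + f) w| ≤ Λ * u → |P₂ - sn (k + f) w| ≤ Λ * u → P₁ ≤ P₂ →
    RawN S (univ.erase (c (k + f))) (c (k + f)) P₁ (P₂ - P₁) h φ
  -- labels of the degree `D` at all windows, with a margin
  lab : ∀ v ∈ G, b ≤ v → v ≤ o → ∃ (E rd : ℕ → ℝ) (ρ : ℝ), ρ < 1 ∧
    (∀ l ≤ k + f, 0 ≤ E l ∧ sn l v + E l + Λ * u ≤ 1 ∧ 0 ≤ rd l ∧ rd l ≤ ρ) ∧ ∀ e : ℝ, 0 < e →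
    Bas S (fun J F A => ∃ (V : Type) (z : PtT F → V) (z' : LnT F → V)
      (g : V → ℕ → MvPolynomial (Option (Fin m)) ℝ),
      LbE F c (k + f + 1) D E e v rd (fun l => sn l v) A z z' g)
  att : ∃ rk E : ℝ, rk < 1 ∧ 0 ≤ E ∧
    AttG S ((range (k + f)).image c) (c (k + f)) w (sn (k + f) w) rk E ∧
    sn (k + f) w + E + Λ * u ≤ 1
  spb : ∀ i < k, sp i b ≤ sn i b - φ
  free : ∀ (P : Fin k → ℚ) (w₁ : ℚ) (x' : ℝ), w ≤ w₁ → x' ∈ G → w₁ ≤ x' → x' ≤ w + Λ * u →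
    (∀ i : Fin k, sn i w - w + u ≤ P i ∧ (P i : ℝ) ≤ sn i w - w + Λ * u) →
    (∀ l i : Fin k, l < i → (P i : ℝ) - (sn i w - w) + u / 2 ≤ P l - (sn l w - w)) →
    FrI S c k sp b (fun i => (P i : ℝ)) w₁ x' (e * u)
  nla : ∀ w₁ v y : ℚ, w ≤ w₁ → w₁ ≤ v → v ≤ y → (y : ℝ) ≤ w + Λ * u →
    NlI S (c (k + f)) w₁ v (lam v) (lam y) (e * u)
  rn : ∀ w₁ : ℚ, ∃ η : ℝ, RNum S (fun J F => ptr F J) (vg (w₁ : ℝ)) η

/-- **The windows of the charts**: `fb t`, `t ≤ nb`, from `b` to `w`, and `fn t`, `t ≤ n`, from `w` to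
`w + u`; `fn ks` is near `w + u / s`. -/
structure WnT (k f : ℕ) (sn : ℕ → ℝ → ℝ) (G : Set ℝ) (s b w u Λ φ : ℝ) (N : ℕ) (C₀ Eb ηm : ℝ)
    (ow : ℕ → ℝ) (lv : ℕ → ℕ → ℝ) (fb fn : ℕ → ℕ) (nb n ks : ℕ) : Prop where
  n1 : 1 ≤ n
  kn : ks ≤ n
  fbN : ∀ t ≤ nb, fb t ≤ N
  fnN : ∀ t ≤ n, fn t ≤ N
  eq : fn 0 = fb nb
  ob : ow (fb 0) = b
  ow0 : ow (fn 0) = w
  okn : ow (fn ks) ≤ ow (fn n)
  oks : |ow (fn ks) - (w + u / s)| ≤ φ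
  on : |ow (fn n) - (w + u)| ≤ φ
  bG : ∀ t ≤ nb, ow (fb t) ∈ G
  nG : ∀ t ≤ n, ow (fn t) ∈ G
  bs : ∀ t < nb, ow (fb t) ≤ ow (fb (t + 1)) ∧ ow (fb (t + 1)) ≤ ow (fb t) + φ
  ns : ∀ t < n, ow (fn t) ≤ ow (fn (t + 1)) ∧ ow (fn (t + 1)) ≤ ow (fn t) + φ
  lv : ∀ t ≤ N, ∀ l ≤ k + f, lv t l = sn l (ow t)
  C0 : C₀ * ηm ≤ φ
  Eb : ∀ l ≤ k + f, Eb + sn l w + Λ * u ≤ 1

/-- The radii of the balls. -/
def RadT (nb n M J : ℕ) (u : ℝ) (ow : ℕ → ℝ) (fb fn : ℕ → ℕ) (z : ℕ → ℕ → ℕ) : Prop :=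
  (∀ t < nb, ∃ j ≤ M, z (fb t) j = ⌊ow (fb (t + 1)) * J⌋₊ - ⌊ow (fb t) * J⌋₊) ∧
  (∀ t < n, ∃ j ≤ M, z (fn t) j = ⌊ow (fn (t + 1)) * J⌋₊ - ⌊ow (fn t) * J⌋₊) ∧
  ∃ jq ≤ M, ∃ jT ≤ M, (z (fb 0) jq : ℝ) ≤ u * J ∧ z (fb 0) jq + 1 ≤ z (fb 0) jT

/-- **(dj)** The codes of the alive targets of order at least one are few bits given the far jets of
the slope-one places and the record of the window `w`. -/
def DjT {m J : ℕ} (F : Fam m J) (c : ℕ → Fin m) (k D' : ℕ) {n₀ : ℕ} (al : Fin (n₀ + 1) → ℕ)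
    (sn : ℕ → ℝ → ℝ) (s b w u T δ : ℝ) (kb : ℕ) (H : ℕ → LnT F → ℕ → MvPolynomial (Option (Fin m)) ℝ)
    (HN : LnT F → ℕ → MvPolynomial (Option (Fin m)) ℝ) (B : F.Ω → Prop) : Prop :=
  ∀ i, ∀ N' : ℕ, (N' : ℝ) ≤ (sn (k + al i) w + (1 + (s - 1) / s) * u) * J →
    CH (Pool.Agent.H49.Ent.cond F.p B True)
      (Pool.AVG57.cod F ⌊w * J⌋₊ (fun s' => HN s' (k + al i)) (c (k + al i)) N' 1 (D' + 1))
      (fun ω => (jet2 F c ⌊w * J⌋₊ (fhT H HN kb k ⌊b * J⌋₊ ⌊w * J⌋₊) 0 k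
        (fun l' j' => sn l' w + T * u - (j' : ℝ) * w) ω, (cR F B w ω, F.W ω))) ≤ δ * u * J

/-- **(jt)** The codes of the alive targets of all orders are few bits given the near jets of the
slope-one places and the record of the window `x`. -/
def JtT {m J : ℕ} (F : Fam m J) (c : ℕ → Fin m) (k D' : ℕ) {n₀ : ℕ} (al : Fin (n₀ + 1) → ℕ)
    (sn : ℕ → ℝ → ℝ) (b w u φ δ x : ℝ) (kb : ℕ)
    (H : ℕ → LnT F → ℕ → MvPolynomial (Option (Fin m)) ℝ)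
    (HN : LnT F → ℕ → MvPolynomial (Option (Fin m)) ℝ) (B : F.Ω → Prop) : Prop :=
  ∀ i, ∀ N' : ℕ, (N' : ℝ) ≤ (sn (k + al i) w + u) * J →
    CH (Pool.Agent.H49.Ent.cond F.p B True)
      (Pool.AVG57.cod F ⌊w * J⌋₊ (fun s' => HN s' (k + al i)) (c (k + al i)) N' 0 (D' + 1))
      (fun ω => (jet2 F c ⌊w * J⌋₊ (fhT H HN kb k ⌊b * J⌋₊ ⌊w * J⌋₊) 0 k
        (fun l' j' => sn l' w + u + 400 * ((k : ℝ) + 2) * φ - (j' : ℝ) * w) ω,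
        (cR F B x ω, F.W ω))) ≤ δ * u * J

/-- **The tie on one class**: on a part of every large event the labels of the targets and the codes
of the alive targets. -/
def TieIn {m : ℕ} (S : PCl m) (c : ℕ → Fin m) (k f D D' : ℕ) {n₀ : ℕ} (al : Fin (n₀ + 1) → ℕ)
    (sn : ℕ → ℝ → ℝ) (s b w u T δ φ : ℝ) (Dr N M : ℕ) (C₀ a Eb ηm : ℝ) (ow η σ : ℕ → ℝ)
    (lv bb : ℕ → ℕ → ℝ) (fb fn : ℕ → ℕ) (nb n : ℕ) : Prop :=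
  ∃ cT κT : ℝ, 0 < cT ∧ 0 < κT ∧ Bas S (fun J F A => ∀ {κ : ℝ} {z : ℕ → ℕ → ℕ}
    {g₀ : ℕ → ℕ → ℕ} {Gc : ℕ → PtT F → ℕ → MvPolynomial (Option (Fin m)) ℝ}
    {H : ℕ → LnT F → ℕ → MvPolynomial (Option (Fin m)) ℝ}, κ ≤ κT →
    WinB F c (k + f) D Dr N M C₀ a Eb ηm ow η σ lv bb κ z A g₀ Gc H →
    RadT nb n M J u ow fb fn z →
    (∀ l < k, CfB F ⌊b * J⌋₊ 1 (c l) A (fun s => s) (fun s => H (fb 0) s l)) →
    ∃ (B : F.Ω → Prop) (GN : PtT F → ℕ → MvPolynomial (Option (Fin m)) ℝ)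
      (HN : LnT F → ℕ → MvPolynomial (Option (Fin m)) ℝ), Sub B A ∧ cT * Pe F.p A ≤ Pe F.p B ∧
      LbT F c k f D' w u φ 1 sn B (g₀ (fn 0)) (Gc (fn 0)) GN HN ∧
      DjT F c k D' al sn s b w u T δ (fb 0) H HN B ∧
      JtT F c k D' al sn b w u φ δ (ow (fn n)) (fb 0) H HN B)

/-- The record contains the windows `A₁`, `V₁`. -/
def SubW (N₁ : ℕ) (A₁ V₁ : ℕ → ℝ) (N : ℕ) (A V : ℕ → ℝ) : Prop :=
  ∀ j < N₁, ∃ j' < N, A j' = A₁ j ∧ V j' = V₁ j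

/-- The tie in one window `w` of the grid `Gs`, for all windows of the charts. -/
def TieW {m : ℕ} (S : PCl m) (c : ℕ → Fin m) (k f D D' : ℕ) {n₀ : ℕ} (al : Fin (n₀ + 1) → ℕ)
    (sn : ℕ → ℝ → ℝ) (Gs : Set ℝ) (s b w u Λ T δ φ φ' : ℝ) (Dr₀ : ℕ) : Prop :=
  ∀ {Dr N' M' : ℕ} {C₀ a Eb' ηm : ℝ} {ow η σ : ℕ → ℝ} {lv bb : ℕ → ℕ → ℝ} {fb fn : ℕ → ℕ}
    {nb n ks : ℕ}, Dr₀ ≤ Dr →
  WnT k f sn Gs s b w u Λ φ' N' C₀ Eb' ηm ow lv fb fn nb n ks →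
  TieIn S c k f D D' al sn s b w u T δ φ Dr N' M' C₀ a Eb' ηm ow η σ lv bb fb fn nb n

/-- **(TIE)** The tie for the records of the slopes `Sl` and the kinds `κ`, with the property `Q` at
points near the window: in a subclass, in the window `t` or in the window `t + o₁ q`. Order of the
constants: `D` (labels of the class), `S₀`; `D'` (degree of the labels of the targets); `δ`, `T₀`
(from the class theorem); `T` (far digits), `o₁` (the second window), the pairs of windows `A₁`, `V₁`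
of the record (in units); `S₂` (the constant of the pairs); `Λ` (the room), `Dr₀` (degree of the
closed polynomials of the balls); `φ` (the closeness of the labels, in units); `e` (the error of the
box, in units). -/
def TieStmt (k f : ℕ) {n₀ : ℕ} (al : Fin (n₀ + 1) → ℕ) (h : ℝ) (Sl : ℕ → ℝ) (κ : ℕ → Kg) {ι : Type}
    (Q : PropG (k + f + 1) ι) : Prop :=
  ∀ (D S₀ : ℕ), 1 ≤ D → 1 ≤ S₀ → ∃ D' : ℕ, D ≤ D' ∧
  ∀ δ T₀ : ℝ, 0 < δ → ∃ T : ℝ, T₀ ≤ T ∧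
  ∃ (o₁ : ℕ) (K₁ : ℝ) (N₁ : ℕ) (A₁ V₁ : ℕ → ℝ), 1 ≤ K₁ ∧
    (∀ j < N₁, -K₁ ≤ V₁ j ∧ V₁ j ≤ A₁ j ∧ A₁ j ≤ K₁) ∧
  ∀ S₂ : ℕ, S₀ ≤ S₂ →
  ∃ (Λ : ℝ) (Dr₀ : ℕ), 1 ≤ Λ ∧ ∀ φ : ℝ, 0 < φ → ∃ e : ℝ, 0 < e ∧
  ∀ (M₀ cb co : ℕ), 1 ≤ M₀ → Λ ≤ cb → Λ + o₁ ≤ co →
  ∀ (P : List (Fin (k + f + 1)) × Fin (k + f + 1) → ℝ → ℝ → ℝ)
    (θ : ℝ) (P₂ : ℕ → List (Fin (k + f + 1)) × Fin (k + f + 1) → ℝ → ℝ → ℝ) (θ₂ Eb e₂ : ℕ → ℝ)
    (c : ℕ → Fin (k + f + 1)) (Pt : ℝ → ℝ → ℝ) (r : ℝ → ℝ) (L Tb : ℕ → ℝ → ℝ → ℝ)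
    (G : Set ℝ) (g : ℝ), IsClosed G → g ∈ G → ∃ (p : ℕ → ι) (M : ℕ) (B₀ B₁ : ℕ → ℝ),
    (∀ j < M, B₀ j < B₁ j) ∧ ∀ k₀ : ℕ → ℕ, ∃ q₁ : ℝ, 0 < q₁ ∧
  ∀ {S : PCl (k + f + 1)} {al' : ℝ} {g₀ : ℝ → ℝ} {K₀ : ℝ} {N : ℕ} {A V : ℕ → ℝ}
    {V' : ℕ → ℝ} {K ε q t : ℝ} {x : ℕ → ℝ} {sp : ℕ → ℝ → ℝ} {φ' : ℝ} {lam : ℝ → ℝ}, q < q₁ →
    (∀ j < M, x j ∈ G ∧ t + B₀ j * q ≤ x j ∧ x j ≤ t + B₁ j * q ∧
      Q (p j) (k₀ j) S P θ c Pt r L Tb κ G (x j)) →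
    RecG S al' g₀ P θ P₂ θ₂ Eb e₂ c Pt r h K₀ g L Tb Sl κ G S₀ N A V S₂ ((cb + co) * M₀ + 1) V'
      K ε q t → SubW N₁ A₁ V₁ N A V →
    (∀ j < (cb + co) * M₀ + 1, V' j = chV M₀ cb j) → (cb : ℝ) + co + Λ ≤ K → ε ≤ e →
    φ' ≤ e * q → q / M₀ ≤ φ' →
    BoxT S c k f D (fun l v => L l v v) sp {v | ∃ j < (cb + co) * M₀ + 1, v = t + chV M₀ cb j * q}
      (Sl (k + f)) h (t - cb * q) (t + co * q) t q Λ φ' e lam →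
    BoxT S c k f D (fun l v => L l v v) sp {v | ∃ j < (cb + co) * M₀ + 1, v = t + chV M₀ cb j * q}
      (Sl (k + f)) h (t - cb * q) (t + co * q) (t + o₁ * q) q Λ φ' e lam →
    ∃ S' : PCl (k + f + 1), S'.Ne ∧ (∀ (τ : ℝ) (J : ℕ) (F : Fam (k + f + 1) J)
      (A : F.Ω → Prop), S'.St τ J F A → S.St τ J F A) ∧
    (TieW S' c k f D D' al (fun l v => L l v v)
        {v | ∃ j < (cb + co) * M₀ + 1, v = t + chV M₀ cb j * q} (Sl (k + f)) (t - cb * q) t q Λ T δ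
        (φ * q) φ' Dr₀ ∨
      TieW S' c k f D D' al (fun l v => L l v v)
        {v | ∃ j < (cb + co) * M₀ + 1, v = t + chV M₀ cb j * q} (Sl (k + f)) (t - cb * q)
        (t + o₁ * q) q Λ T δ (φ * q) φ' Dr₀)

end Pool.T4C72
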