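import Pool.Agent.H72.T4C.End

/-!
# Several targets of one slope over slope-one places: the class theorem and the tie

`cls_out`: from the tie and the class theorem the conclusion `OutT` on a part of every large event
with ball windows.
-/

set_option autoImplicit false

namespace Pool.T4C72

open Finset Real MvPolynomial
open Pool.Agent.H49.Ent Pool.Agent.H32.Dense
open Pool.STK hiding pr2
open Pool.KA Pool.KSAT Pool.K2S Pool.PB Pool.S6C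
open Pool.GEN Pool.CHT Pool.CHX Pool.ISO Pool.LA91 Pool.AVG71 Pool.AVG5 Pool.D2F2 Pool.AVG57
open Pool.RCD Pool.AVG96 Pool.OWN68 Pool.V0F Pool.V0Q Pool.V0T
open Pool.AJW (CfB)
open Pool.D2R (WinB)

/-- **The conclusion** on a part of every large event. -/
theorem cls_out {m : ℕ} {S : PCl m} {c : ℕ → Fin m} {k f D D' n₀ : ℕ} {al : Fin (n₀ + 1) → ℕ}
    {n₁ : ℕ} {pv : Fin (n₁ + 1) → ℕ} {sn : ℕ → ℝ → ℝ} {s b w u T δ φ : ℝ} {Dr N M : ℕ} {C₀ a Eb ηm : ℝ} {ow η σ : ℕ → ℝ}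
    {lv bb : ℕ → ℕ → ℝ} {fb fn : ℕ → ℕ} {nb n : ℕ} {ι x m₀ : ℝ} {κv ζv : ℕ → ℝ}
    (hpos : ∀ (τ : ℝ) (J : ℕ) (F : Fam m J) (A : F.Ω → Prop), S.St τ J F A → 0 < Pe F.p A)
    (hTi : TieIn S c k f D D' al sn s b w u T δ φ Dr N M C₀ a Eb ηm ow η σ lv bb fb fn nb n)
    (hV : Bas S (fun J F A => ∀ {κ : ℝ} {z : ℕ → ℕ → ℕ} {g₀ : ℕ → ℕ → ℕ}
      {Gc : ℕ → PtT F → ℕ → MvPolynomial (Option (Fin m)) ℝ}
      {H : ℕ → LnT F → ℕ → MvPolynomial (Option (Fin m)) ℝ}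
      {GN : PtT F → ℕ → MvPolynomial (Option (Fin m)) ℝ}
      {HN : LnT F → ℕ → MvPolynomial (Option (Fin m)) ℝ},
      WinB F c (k + f) D Dr N M C₀ a Eb ηm ow η σ lv bb κ z A g₀ Gc H →
      RadT nb n M J u ow fb fn z →
      (∀ l < k, CfB F ⌊b * J⌋₊ 1 (c l) A (fun s => s) (fun s => H (fb 0) s l)) →
      LbT F c k f D' w u φ 1 sn A (g₀ (fn 0)) (Gc (fn 0)) GN HN →
      DjT F c k D' al sn s b w u T δ (fb 0) H HN A →
      JtT F c k D' al sn b w u φ δ (ow (fn n)) (fb 0) H HN A →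
      OutT F c k f D' pv w φ ι x m₀ κv ζv (fb 0) (fn n) (g₀ (fn 0)) A Gc GN)) :
    ∃ cT κT : ℝ, 0 < cT ∧ 0 < κT ∧ Bas S (fun J F A => ∀ {κ : ℝ} {z : ℕ → ℕ → ℕ}
      {g₀ : ℕ → ℕ → ℕ} {Gc : ℕ → PtT F → ℕ → MvPolynomial (Option (Fin m)) ℝ}
      {H : ℕ → LnT F → ℕ → MvPolynomial (Option (Fin m)) ℝ}, κ ≤ κT →
      WinB F c (k + f) D Dr N M C₀ a Eb ηm ow η σ lv bb κ z A g₀ Gc H →
      RadT nb n M J u ow fb fn z →
      (∀ l < k, CfB F ⌊b * J⌋₊ 1 (c l) A (fun s => s) (fun s => H (fb 0) s l)) →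
      ∃ (B : F.Ω → Prop) (GN : PtT F → ℕ → MvPolynomial (Option (Fin m)) ℝ)
        (HN : LnT F → ℕ → MvPolynomial (Option (Fin m)) ℝ), Sub B A ∧ cT * Pe F.p A ≤ Pe F.p B ∧
        LbT F c k f D' w u φ 1 sn B (g₀ (fn 0)) (Gc (fn 0)) GN HN ∧
        OutT F c k f D' pv w φ ι x m₀ κv ζv (fb 0) (fn n) (g₀ (fn 0)) B Gc GN) := by
  obtain ⟨cT, κT, hcT, hκT, hT⟩ := hTi
  have hV' := bas_ev hV (κ := cT) hcT
  refine ⟨cT, κT, hcT, hκT, ?_⟩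
  refine Bas.mono 0 ((hT.and hV').and ⟨1, one_pos, 0, fun J _ F A hA =>
    hpos 1 J F A hA⟩) ?_
  rintro J - F A ⟨⟨h2, h3⟩, hA⟩ κ z g₀ Gc H hκ W hR hC
  obtain ⟨B, GN, HN, c1, c2, c3, c4, c5⟩ := h2 hκ W hR hC
  have W₂ : WinB F c (k + f) D Dr N M C₀ a Eb ηm ow η σ lv bb (max κ 0 / cT) z B g₀ Gc H :=
    W.res c1 c2 (div_nonneg (le_max_right _ _) hcT.le) (by
      rw [div_mul_cancel₀ _ hcT.ne']
      exact le_max_left _ _)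
  exact ⟨B, GN, HN, c1, c2, c3, h3 B c1 c2 W₂ hR (fun l hl ω hω => hC l hl ω (c1 ω hω)) c3 c4
    c5⟩

end Pool.T4C72
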