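import Pool.Agent.H72.T4C.S
import Pool.Agent.H92.V0F.Rsb

/-!
# A record at a shifted window

`recG_shift`: a record at `t` is a record at `t + x q`, with shifted lists of windows.
-/

set_option autoImplicit false

namespace Pool.T4C72

open Finset Real
open Pool.Agent.H32.Dense Pool.KA Pool.KSAT Pool.PB Pool.S6C Pool.V0F
open Pool.PKG (Kg KgQ RecT RecG PropG)

theorem kgQ_shift {k : Kg} {L T : ℝ → ℝ → ℝ} {s t K K' q ε x : ℝ} (h : KgQ k L T s t K q ε)
    (hx : 0 ≤ x) (hK : K' + x ≤ K) (hq : 0 < q) (hε : 0 ≤ ε) :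
    KgQ k L T s (t + x * q) K' q (2 * ε) := by
  have h1 : K' * q + x * q ≤ K * q := by
    have := mul_le_mul_of_nonneg_right hK hq.le
    linarith
  have h2 : 0 ≤ x * q := mul_nonneg hx hq.le
  have h3 : 0 ≤ ε * q := mul_nonneg hε hq.le
  have h4 : 2 * ε * q = 2 * (ε * q) := by ring
  cases k with
  | one => exact h
  | thin => exact ⟨h.1, fun a w b1 b2 b3 => (h.2 a w (by linarith) b2 (by linarith)).trans
      (by linarith)⟩
  | sta => exact ⟨h.1, fun a w b1 b2 b3 => (h.2 a w (by linarith) b2 (by linarith)).trans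
      (by linarith)⟩
  | stp => exact ⟨h.1, fun a w b1 b2 b3 => (h.2 a w (by linarith) b2 (by linarith)).trans
      (by linarith)⟩
  | any => trivial

section

variable {m : ℕ} {S : PCl m} {al : ℝ} {g₀ : ℝ → ℝ} {P : List (Fin m) × Fin m → ℝ → ℝ → ℝ}
  {θ : ℝ} {P₂ : ℕ → List (Fin m) × Fin m → ℝ → ℝ → ℝ} {θ₂ Eb e₂ : ℕ → ℝ}
  {c : ℕ → Fin m} {Pt : ℝ → ℝ → ℝ} {rt : ℝ → ℝ} {h K₀ g : ℝ} {L T : ℕ → ℝ → ℝ → ℝ}
  {Sl : ℕ → ℝ} {κ : ℕ → Kg} {G : Set ℝ} {S₀ N : ℕ} {A V : ℕ → ℝ} {S₂ N' : ℕ} {V' : ℕ → ℝ}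
  {K ε q t : ℝ}

/-- **A record at a shifted window.** -/
theorem recG_shift
    (R : RecG S al g₀ P θ P₂ θ₂ Eb e₂ c Pt rt h K₀ g L T Sl κ G S₀ N A V S₂ N' V' K ε q t)
    {x K' : ℝ} (hx : 0 ≤ x) (hK' : 0 ≤ K') (hε : 0 ≤ ε) (hm : 1 ≤ m)
    (hK : K' + (1 + |Sl (m - 1)|) * x + ε ≤ K) :
    RecG S al g₀ P θ P₂ θ₂ Eb e₂ c Pt rt h (K₀ + x) g L T Sl κ G S₀ N (fun k => A k - x)
      (fun k => V k - x) S₂ N' (fun k => V' k - x) K' (2 * ε) q (t + x * q) := by
  have hq := R.q0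
  have hSx : 0 ≤ |Sl (m - 1)| * x := mul_nonneg (abs_nonneg _) hx
  have hKx : K' + x ≤ K := by
    have : (1 + |Sl (m - 1)|) * x = x + |Sl (m - 1)| * x := by ring
    linarith
  have hKq : K' * q + x * q ≤ K * q := by
    have := mul_le_mul_of_nonneg_right hKx hq.le
    linarith
  have hxq : 0 ≤ x * q := mul_nonneg hx hq.le
  have hεq : 0 ≤ ε * q := mul_nonneg hε hq.le
  have hK'q : 0 ≤ K' * q := mul_nonneg hK' hq.le
  have e2 : 2 * ε * q = 2 * (ε * q) := by ring
  have hw : ∀ y : ℝ, t + x * q + (y - x) * q = t + y * q := fun y => by ring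
  have hin : ∀ y : ℝ, |y - (t + x * q)| ≤ K' * q → |y - t| ≤ K * q := fun y hy => by
    have h1 := abs_le.1 hy
    rw [abs_le]
    constructor <;> linarith [h1.1, h1.2]
  have ht' : |t + x * q - t| ≤ K * q := by
    rw [add_sub_cancel_left, abs_of_nonneg hxq]
    linarith
  have h3K : 3 * K' * q ≤ 3 * K * q := by
    have : K' ≤ K := by linarith
    have := mul_le_mul_of_nonneg_right this hq.le
    linarith
  have hSl : ∀ l < m, ∀ y : ℝ, |y - (t + x * q)| ≤ K' * q →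
      |L l y y - L l (t + x * q) (t + x * q) - Sl l * (y - (t + x * q))| ≤ 2 * ε * q := by
    intro l hl y hy
    have h1 := abs_le.1 (R.dL l hl y (hin y hy))
    have h2 := abs_le.1 (R.dL l hl (t + x * q) ht')
    have h3 : Sl l * (y - t) = Sl l * (y - (t + x * q)) + Sl l * (t + x * q - t) := by ring
    rw [abs_le, e2]
    constructor <;> linarith [h1.1, h1.2, h2.1, h2.2]
  refine ⟨R.ne, R.al0, R.g₀pos, R.clx, R.thr, R.th0, R.tgs, R.rate, R.inj, R.c0, R.law, R.lv,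
    R.lawL, R.q0, ?_, ?_, ?_, ?_, ?_, ?_, hSl, ?_, R.s0, ?_, ?_, ?_, ?_, R.tgl⟩
  · linarith [R.t0]
  · linarith [R.t1]
  · have h1 := abs_le.1 R.near
    have h2 : (K₀ + x) * q = K₀ * q + x * q := by ring
    rw [h2, abs_le]
    constructor <;> linarith [h1.1, h1.2]
  · refine ⟨fun k hk => ?_, fun k hk => ?_⟩
    · rw [hw, hw]
      exact R.memG.1 k hk
    · rw [hw]
      exact R.memG.2 k hk
  · intro k hk l hl
    rw [hw, hw]
    exact R.TL k hk l hl
  · intro k hk l hl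
    rw [hw]
    exact R.TLc k hk l hl
  · intro l hl y hy
    have h1 := abs_le.1 (R.dT l hl y (hin y hy))
    have h2 := abs_le.1 (R.dL l hl (t + x * q) ht')
    have h3 : Sl l * (y - t) = Sl l * (y - (t + x * q)) + Sl l * (t + x * q - t) := by ring
    rw [abs_le, e2]
    constructor <;> linarith [h1.1, h1.2, h2.1, h2.2]
  · intro y hy
    refine (R.l0 y (hin y hy)).trans (by rw [e2]; linarith)
  · exact fun l hl => kgQ_shift (R.kd l hl) hx hKx hq hε
  · intro y z hy hz hyz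
    have h2 := abs_le.1 (R.dL (m - 1) (by omega) (t + x * q) ht')
    have h3 : |Sl (m - 1) * (t + x * q - t)| ≤ |Sl (m - 1)| * (x * q) := by
      rw [abs_mul, add_sub_cancel_left, abs_of_nonneg hxq]
    have h4 := abs_le.1 h3
    have h5 : K' * q + x * q + |Sl (m - 1)| * (x * q) + ε * q ≤ K * q := by
      have h6 := mul_le_mul_of_nonneg_right hK hq.le
      have h7 : (K' + (1 + |Sl (m - 1)|) * x + ε) * q =
        K' * q + x * q + |Sl (m - 1)| * (x * q) + ε * q := by ring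
      linarith
    have h8 := abs_le.1 hy
    have h9 := abs_le.1 hz
    refine (R.row y z ?_ ?_ hyz).trans (by rw [e2]; linarith)
    · rw [abs_le]
      constructor <;> linarith [h2.1, h2.2, h4.1, h4.2, h8.1, h8.2]
    · rw [abs_le]
      constructor <;> linarith [h2.1, h2.2, h4.1, h4.2, h9.1, h9.2]
  · intro l hl1 hl
    have W := R.tg l hl1 hl
    refine ⟨W.thr₂, W.th₂0, W.Eb0, by linarith [W.Ebe], fun y hy => W.eθ y (hin y hy),
      fun j hj y hy => by linarith [W.room j hj y (hin y hy)], ?_, ?_, ?_, ?_⟩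
    · intro k hk
      rw [hw, hw]
      exact W.pt k hk
    · intro k hk
      rw [hw, hw]
      exact W.rat k hk
    · intro k hk
      rw [hw]
      exact W.ptc k hk
    · intro k hk
      rw [hw]
      exact W.ratc k hk

end

/-- The shifted chain. -/
theorem chV_shift (M₀ cb o k : ℕ) : chV M₀ cb k - (o : ℝ) = chV M₀ (cb + o) k := by
  unfold chV
  push_cast
  ring

end Pool.T4C72
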