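import Pool.Agent.H72.T4C.S

/-!
# The box of a record

`rec_ladT`: the ladder of the fine chain; `rec_box`: the box `BoxT` of a record with slopes one below
the place `k` and slope `s` above.
-/

set_option autoImplicit false

namespace Pool.T4C72

open Finset Real MvPolynomial
open Pool.Agent.H49.Ent Pool.Agent.H32.Dense
open Pool.STK hiding pr2
open Pool.KA Pool.KSAT Pool.K2S Pool.PB Pool.S6C
open Pool.GEN Pool.LA91 Pool.RCD Pool.OWN68 Pool.V0F Pool.V0T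
open Pool.PKG (Kg RecG PropG)

section

variable {k f : ℕ} {S : PCl (k + f + 1)} {al : ℝ} {g₀ : ℝ → ℝ}
  {P : List (Fin (k + f + 1)) × Fin (k + f + 1) → ℝ → ℝ → ℝ}
  {θ : ℝ} {P₂ : ℕ → List (Fin (k + f + 1)) × Fin (k + f + 1) → ℝ → ℝ → ℝ} {θ₂ Eb e₂ : ℕ → ℝ}
  {c : ℕ → Fin (k + f + 1)} {Pt : ℝ → ℝ → ℝ} {rt : ℝ → ℝ} {h K₀ g : ℝ} {L T : ℕ → ℝ → ℝ → ℝ}
  {Sl : ℕ → ℝ} {κ : ℕ → Kg} {G : Set ℝ} {S₀ N : ℕ} {A V : ℕ → ℝ} {S₂ N' : ℕ} {V' : ℕ → ℝ}
  {K ε q t : ℝ}
  (R : RecG S al g₀ P θ P₂ θ₂ Eb e₂ c Pt rt h K₀ g L T Sl κ G S₀ N A V S₂ N' V' K ε q t)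
include R

/-- The levels of slope one. -/
theorem rec_oneT {l : ℕ} (hl : l ≤ k + f) (hSl : Sl l = 1) {x : ℝ} (hx : |x - t| ≤ K * q) :
    |(L l x x - x) - (L l t t - t)| ≤ ε * q := by
  have h1 := R.dL l (by omega) x hx
  rw [hSl, one_mul] at h1
  have e : L l x x - L l t t - (x - t) = (L l x x - x) - (L l t t - t) := by ring
  rwa [e] at h1

/-- **The ladder** of the windows of the fine chain. -/
theorem rec_ladT {M₀ cb co : ℕ} (hM : 1 ≤ M₀) (hN' : N' = (cb + co) * M₀ + 1)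
    (hV' : ∀ k < N', V' k = chV M₀ cb k) (hcK : (cb : ℝ) + co + 1 ≤ K) (hε : 0 < ε)
    (hSl : ∀ l < k, Sl l = 1) {s : ℝ} (hSs : ∀ l, k ≤ l → l ≤ k + f → Sl l = s) (hs : 1 ≤ s)
    {φ : ℝ} (hφ : 4 * (ε * q) ≤ φ) (hφM : (3 * s + 1) * (q / M₀) ≤ φ)
    (hch : ChG S c (k + f) (fun l w => L l w w) G)
    (hatt : ∀ j < N', ∃ rk E : ℝ, 0 ≤ rk ∧ rk < 1 ∧ 0 ≤ E ∧
      E + L (k + f) (t + V' j * q) (t + V' j * q) < 1 ∧
      LbU S ((range (k + f)).image c) (c (k + f)) (t + V' j * q)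
        (L (k + f) (t + V' j * q) (t + V' j * q)) rk E) :
    LadT S c k f (fun l w => L l w w) {v | ∃ j < N', v = t + chV M₀ cb j * q}
      (t - cb * q) (t + co * q) φ := by
  have hq := R.q0
  have hM0 : (0 : ℝ) < M₀ := by exact_mod_cast hM
  have hcb : (0 : ℝ) ≤ cb := Nat.cast_nonneg _
  have hco : (0 : ℝ) ≤ co := Nat.cast_nonneg _
  have hK1 : 1 ≤ K := by linarith
  have hKq : q ≤ K * q := le_mul_of_one_le_left hq.le hK1
  have hcbK : cb * q + co * q + q ≤ K * q := by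
    have := mul_le_mul_of_nonneg_right hcK hq.le
    linarith
  have hcbq : 0 ≤ cb * q := by positivity
  have hcoq : 0 ≤ co * q := by positivity
  have ht0 := R.t0
  have ht1 := R.t1
  have hεq : 0 < ε * q := mul_pos hε hq
  have hqM : 0 < q / M₀ := by positivity
  have hsM : 0 < s * (q / M₀) := by
    have : 0 < s := by linarith
    positivity
  have hφM' : 3 * (s * (q / M₀)) + q / M₀ ≤ φ := by
    have e : (3 * s + 1) * (q / M₀) = 3 * (s * (q / M₀)) + q / M₀ := by ring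
    rwa [e] at hφM
  have hb : t - cb * q = t + chV M₀ cb 0 * q := by
    rw [chV_zero]
    ring
  have hr : ∀ v ∈ {v : ℝ | ∃ j < N', v = t + chV M₀ cb j * q}, |v - t| ≤ K * q := by
    rintro v ⟨j, hj, rfl⟩
    have h1 := chV_abs (M₀ := M₀) (cb := cb) (co := co) hM (by omega : j < (cb + co) * M₀ + 1)
    rw [add_sub_cancel_left, abs_mul, abs_of_pos hq]
    exact mul_le_mul_of_nonneg_right (by linarith) hq.le
  have hGG : {v : ℝ | ∃ j < N', v = t + chV M₀ cb j * q} ⊆ G := by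
    rintro v ⟨j, hj, rfl⟩
    rw [← hV' j hj]
    exact R.memG.2 j hj
  have hlin : ∀ l, k ≤ l → l ≤ k + f → ∀ v ∈ {v : ℝ | ∃ j < N', v = t + chV M₀ cb j * q},
      |L l v v - L l t t - s * (v - t)| ≤ ε * q := by
    intro l h1 h2 v hv
    have h3 := R.dL l (by omega) v (hr v hv)
    rwa [hSs l h1 h2] at h3
  have heq : ∀ l, k ≤ l → l ≤ k + f → ∀ v ∈ {v : ℝ | ∃ j < N', v = t + chV M₀ cb j * q},
      ∀ v' ∈ {v : ℝ | ∃ j < N', v = t + chV M₀ cb j * q},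
      |(L l v' v' - L l v v) - (L k v' v' - L k v v)| ≤ φ := by
    intro l h1 h2 v hv v' hv'
    have a1 := abs_le.1 (hlin l h1 h2 v hv)
    have a2 := abs_le.1 (hlin l h1 h2 v' hv')
    have a3 := abs_le.1 (hlin k le_rfl (by omega) v hv)
    have a4 := abs_le.1 (hlin k le_rfl (by omega) v' hv')
    rw [abs_le]
    constructor <;> linarith [a1.1, a1.2, a2.1, a2.2, a3.1, a3.2, a4.1, a4.2]
  refine ⟨⟨⟨6, R.tmc⟩, R.pos, R.inj, hch.mono hGG, ?_, ⟨0, by omega, hb⟩, ?_, ?_, ?_, ?_, ?_, ?_,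
    ?_, ?_, fun l h1 h2 v hv v' hv' _ _ _ => heq l h1 h2.le v hv v' hv'⟩,
    fun v hv v' hv' _ _ _ => heq (k + f) (by omega) le_rfl v hv v' hv'⟩
  · rintro v ⟨j, hj, rfl⟩
    obtain ⟨rk, E, h1, h2, h3, h4, h5⟩ := hatt j hj
    rw [hV' j hj] at h4 h5
    exact ⟨rk, E, h1, h2, h3, h4, h5⟩
  · exact ⟨(cb + co) * M₀, by omega, by rw [chV_top hM]⟩
  · linarith
  · linarith
  · linarith
  · linarith
  · refine ⟨q / M₀, hqM, by linarith, fun x hx1 hx2 => ?_, fun l h1 h2 v hv v' hv' _ _ _ h4 => ?_⟩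
    · obtain ⟨j, hj, k1, k2⟩ := grid_near (M₀ := M₀) (cb := cb) (co := co) (x := x) hM hq
        hx1 hx2
      refine ⟨_, ⟨j, by omega, rfl⟩, ?_⟩
      rw [abs_le]
      constructor <;> linarith
    · have a1 := abs_le.1 (hlin l h1 h2 v hv)
      have a2 := abs_le.1 (hlin l h1 h2 v' hv')
      have h5 : s * (v' - t) ≤ s * (v - t) + 3 * (s * (q / M₀)) := by
        have h6 : s * (v' - t) ≤ s * (v - t + 3 * (q / M₀)) :=
          mul_le_mul_of_nonneg_left (by linarith) (by linarith)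
        linarith [h6]
      show L l v' v' ≤ L l v v + 2 * φ
      linarith [a1.1, a1.2, a2.1, a2.2]
  · intro i hi v hv _ _
    have h1 := rec_oneT R (by omega) (hSl i hi) (hr v hv)
    have h2 := rec_oneT R (l := i) (by omega) (hSl i hi) (x := t + co * q) (by
      rw [add_sub_cancel_left, abs_of_nonneg hcoq]
      linarith)
    have h3 := abs_le.1 h1
    have h4 := abs_le.1 h2
    rw [abs_le]
    constructor <;> linarith [h3.1, h3.2, h4.1, h4.2]
  · intro l hl1 hl2 v hv v' hv' _ hvv _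
    have h1 := abs_le.1 (hlin l hl1 hl2 v hv)
    have h2 := abs_le.1 (hlin l hl1 hl2 v' hv')
    have h3 : v' - v ≤ s * (v' - v) := le_mul_of_one_le_left (by linarith) hs
    have h4 : s * (v' - v) = s * (v' - t) - s * (v - t) := by ring
    show L l v v + (v' - v) ≤ L l v' v' + φ
    linarith [h1.1, h1.2, h2.1, h2.2]

/-- **The box of a record.** `Cf`: the constant of the free velocities, `kk`: their scale;
`pn`: the parameter of the no look-ahead. -/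
theorem rec_box {M₀ cb co D Cf pn kk kf kn : ℕ} {κ' : ℚ} {Λ φ e s x₀ x₁ : ℝ} (hM : 1 ≤ M₀)
    (hN' : N' = (cb + co) * M₀ + 1) (hV' : ∀ k < N', V' k = chV M₀ cb k)
    (hk1 : 1 ≤ k + f) (hΛ : 1 ≤ Λ)
    -- the constants
    (hCf : 2 * Λ + 7 * k + 15 ≤ Cf) (hcb : cb = Cf + 7 * k + 13) (hco : Λ + 1 ≤ co)
    (hK : (cb : ℝ) + co + Λ + s + 10 ≤ K) (hε : 0 < ε)
    (hSl : ∀ l < k, Sl l = 1) (hκ1 : ∀ l < k, κ l = .one)
    (hSs : ∀ l, k ≤ l → l ≤ k + f → Sl l = s) (hs : 1 < s) (he0 : 0 < e)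
    (hφ : 4 * (ε * q) ≤ φ) (hφM : (3 * s + 1) * (q / M₀) ≤ φ) (hφq : 400 * φ ≤ q)
    (hκ'0 : (0 : ℝ) < κ') (hκ'e : (κ' : ℝ) ≤ e) (hpn : Λ + 2 ≤ e * (pn + 1))
    -- the labels
    (hlab : ∀ j < N', ∃ (E rd : ℕ → ℝ) (ρ : ℝ), ρ < 1 ∧
        (∀ l ≤ k + f + 1 - 1, 0 ≤ E l ∧ L l (t + V' j * q) (t + V' j * q) + E l + Λ * q ≤ 1 ∧
          0 ≤ rd l ∧ rd l ≤ ρ) ∧ ∀ e : ℝ, 0 < e →
        Bas S (fun J F A => ∃ (V : Type) (z : PtT F → V) (z' : LnT F → V)
          (g : V → ℕ → MvPolynomial (Option (Fin (k + f + 1))) ℝ),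
          LbE F c (k + f + 1) D E e (t + V' j * q) rd
            (fun l => L l (t + V' j * q) (t + V' j * q)) A z z' g))
    (hatt : ∀ j < N', ∃ rk E : ℝ, 0 ≤ rk ∧ rk < 1 ∧ 0 ≤ E ∧
      E + L (k + f) (t + V' j * q) (t + V' j * q) + Λ * q ≤ 1 ∧
      LbU S ((range (k + f)).image c) (c (k + f)) (t + V' j * q)
        (L (k + f) (t + V' j * q) (t + V' j * q)) rk E)
    -- the properties of the points
    (hFa : FaQ (k, Cf, (1 / 8 : ℚ), κ') kf S P θ c Pt rt L T κ G x₀)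
    (hx01 : t - (Cf + (7 * k + 12) / 2 - Λ) * q ≤ x₀) (hx02 : x₀ ≤ t - (Cf / 2 + 7 * k + 13) * q)
    (hkf : kf ≤ kk) (hk2 : (1 / 2 : ℝ) ^ kk ≤ q) (hk3 : q / 2 ≤ (1 / 2 : ℝ) ^ kk)
    (hNl : NlaQ pn kn S P θ c Pt rt L T κ G x₁) (hx11 : t - q ≤ x₁) (hx12 : x₁ ≤ t)
    (hkn : (Λ + 2) * q ≤ (1 / 2) ^ kn) :
    BoxT S c k f D (fun l v => L l v v) (fun i x => L i x x - 1 / 8 / 20 * (1 / 2) ^ kk)
      {v | ∃ j < N', v = t + chV M₀ cb j * q} s h (t - cb * q) (t + co * q) t q Λ φ e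
      (lh (L (k + f)) G) := by
  have hq0 := R.q0
  have ht0 := R.t0
  have ht1 := R.t1
  have hM0 : (0 : ℝ) < M₀ := by exact_mod_cast hM
  have hcbR : (cb : ℝ) = Cf + 7 * k + 13 := by rw [hcb]; push_cast; ring
  have hk0 : (0 : ℝ) ≤ k := Nat.cast_nonneg _
  have hcb0 : (0 : ℝ) ≤ cb := Nat.cast_nonneg _
  have hco0 : (0 : ℝ) ≤ co := Nat.cast_nonneg _
  have hKq : cb * q + co * q + Λ * q + s * q + 10 * q ≤ K * q := by
    have h1 := mul_le_mul_of_nonneg_right hK hq0.le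
    linarith [h1]
  have hcbq : 0 ≤ cb * q := by positivity
  have hcoq : 0 ≤ co * q := by positivity
  have hΛq : q ≤ Λ * q := le_mul_of_one_le_left hq0.le hΛ
  have hsq : 0 < s * q := by
    have : 0 < s := by linarith
    positivity
  have hΛcb : Λ * q ≤ cb * q := mul_le_mul_of_nonneg_right (by linarith) hq0.le
  have hΛco : Λ * q + q ≤ co * q := by
    have h1 := mul_le_mul_of_nonneg_right hco hq0.le
    linarith [h1]
  have hεq : 0 < ε * q := mul_pos hε hq0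
  have hqM0 : 0 < q / M₀ := by positivity
  have hs0 : 0 < s := by linarith
  have hsM : 0 < s * (q / M₀) := by positivity
  have hφM' : 3 * (s * (q / M₀)) + q / M₀ ≤ φ := by
    have e : (3 * s + 1) * (q / M₀) = 3 * (s * (q / M₀)) + q / M₀ := by ring
    rwa [e] at hφM
  have hφ0 : 0 < φ := by linarith
  have hKle : (cb : ℝ) + co + 1 ≤ K := by linarith
  have W := R.tg (k + f) hk1 (by omega)
  have hEb := W.Eb0
  have hmid : chV M₀ cb (cb * M₀) = 0 := chV_mid hM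
  have hjmid : cb * M₀ < N' := by
    rw [hN', add_mul]
    omega
  have hbe : t - cb * q = t + chV M₀ cb 0 * q := by
    rw [chV_zero]
    ring
  have hroomx : ∀ y : ℝ, t - cb * q ≤ y → y ≤ t + co * q → ∀ l ≤ k + f,
      L l y y + Eb (k + f) + 3 * K * q < 1 := fun y h1 h2 l hl => W.room l hl y (by
    rw [abs_le]
    constructor <;> linarith)
  have hlowx : ∀ y : ℝ, t - cb * q ≤ y → y ≤ t + co * q → ∀ l ≤ k + f, y ≤ L l y y :=
    fun y h1 h2 l hl => rec_low R hl (by linarith) (by linarith)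
  have hx0K : |x₀ - t| ≤ K * q := by
    have h1 : (Cf + (7 * k + 12) / 2 - Λ) * q ≤ cb * q := by
      refine mul_le_mul_of_nonneg_right ?_ hq0.le
      rw [hcbR]
      linarith
    have h2 : 0 ≤ (Cf / 2 + 7 * (k : ℝ) + 13) * q := by
      have : (0 : ℝ) ≤ Cf := Nat.cast_nonneg _
      positivity
    rw [abs_le]
    constructor <;> linarith
  have hx0l : ∀ l < k, |(L l x₀ x₀ - x₀) - (L l t t - t)| ≤ ε * q := fun l hl =>
    rec_oneT R (by omega) (hSl l hl) hx0K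
  have hpk : (0 : ℝ) < (1 / 2) ^ kk := by positivity
  have hCfq : (2 * Λ + 7 * k + 15) * q ≤ Cf * q := mul_le_mul_of_nonneg_right hCf hq0.le
  have hkq : 0 ≤ k * q := by positivity
  have hcbq' : cb * q = Cf * q + 7 * (k * q) + 13 * q := by rw [hcbR]; ring
  have hCk : (Cf : ℝ) * (q / 2) ≤ Cf * (1 / 2) ^ kk :=
    mul_le_mul_of_nonneg_left hk3 (Nat.cast_nonneg _)
  have hlinT : ∀ l, k ≤ l → l ≤ k + f → ∀ v : ℝ, t - cb * q ≤ v → v ≤ t + co * q →
      |L l v v - L l t t - s * (v - t)| ≤ φ := fun l h1 h2 v h3 h4 => by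
    have h5 := R.dL l (by omega) v (by
      rw [abs_le]
      constructor <;> linarith)
    rw [hSs l h1 h2] at h5
    linarith
  have hlad := rec_ladT R (M₀ := M₀) (cb := cb) (co := co) (s := s) (φ := φ) hM hN' hV' hKle hε hSl
    hSs hs.le hφ hφM (hFa.ch (k + f) (by omega)) (fun j hj => by
      obtain ⟨rk, E, a1, a2, a3, a4, a5⟩ := hatt j hj
      exact ⟨rk, E, a1, a2, a3, by linarith, a5⟩)
  refine ⟨hlad, rec_img R, R.gd, hq0, ⟨cb * M₀, hjmid, by rw [hmid]; ring⟩, by linarith,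
    by linarith, by linarith, by linarith, fun l hl => ⟨?_, ?_⟩, fun l h1 h2 v _ h3 h4 =>
      hlinT l h1 h2 v h3 h4, fun v h1 h2 => ?_, fun P₁ P₂' h1 h2 h3 => ?_, fun v hv _ _ =>
      rec_labv hV' le_rfl hlab v hv, ?_, fun i _ => ?_, fun Pd w₁ x' h1 h3 h3' h4 h5 h6 => ?_,
      fun w₁ v y h1 h2 h3 h4 => ?_, fun w₁ => ?_⟩
  · have h1 := hlowx (t - cb * q) le_rfl (by linarith) l hl
    show Λ * q ≤ L l (t - cb * q) (t - cb * q)
    linarith
  · have h1 := hroomx (t + co * q) (by linarith) le_rfl l hl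
    show L l (t + co * q) (t + co * q) + Λ * q ≤ 1
    linarith
  · refine rec_lam R hM hN' hV' hKle (by rw [hSs (k + f) (by omega) le_rfl]; exact hs0.le) ?_ h1
      h2 |>.trans_eq' ?_
    · rw [hSs (k + f) (by omega) le_rfl]
      linarith
    · rw [hSs (k + f) (by omega) le_rfl]
  · refine rec_rows R hk1 hε (by linarith) (by linarith) (by linarith) (by linarith) h1 h2 h3 ?_
    have h4 := hlowx t (by linarith) (by linarith) (k + f) le_rfl
    linarith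
  · obtain ⟨rk, E, a1, a2, a3, a4, a5⟩ := hatt (cb * M₀) hjmid
    rw [hV' _ hjmid, hmid, zero_mul, add_zero] at a4 a5
    exact ⟨rk, E, a2, a3, a5, by linarith⟩
  · show L i (t - cb * q) (t - cb * q) - 1 / 8 / 20 * (1 / 2) ^ kk ≤
      L i (t - cb * q) (t - cb * q) - φ
    linarith
  · refine fri_of (σ := 1 / 8) (κ := κ') (g := x₀) (G := G) (C := Cf) (k := kk) (q := q)
        (by push_cast; norm_num) rfl (hFa.free (by omega) (fun l hl => hκ1 l hl) (by norm_num)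
          (by norm_num) (by exact_mod_cast hκ'0) kk hkf) ⟨fun i => ?_, fun i => ?_,
            fun l i hli => ?_⟩ ?_ ?_ ?_ h3' ?_ ?_
    · have a1 := (h5 i).1
      have a2 := abs_le.1 (hx0l i i.2)
      linarith [a2.1, a2.2]
    · have a1 := (h5 i).2
      have a2 := abs_le.1 (hx0l i i.2)
      linarith [a2.1, a2.2]
    · have a1 := h6 l i hli
      have a2 := abs_le.1 (hx0l i i.2)
      have a3 := abs_le.1 (hx0l l l.2)
      push_cast
      linarith [a2.1, a2.2, a3.1, a3.2]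
    · rw [hbe, ← hV' 0 (by omega)]
      exact R.memG.2 0 (by omega)
    · linarith
    · unfold lagG
      have a1 : ((Cf : ℝ) + 7 * k + 13) * (1 / 2) ^ kk ≤ cb * q := by
        rw [hcbR]
        exact mul_le_mul_of_nonneg_left hk2 (by positivity)
      linarith
    · unfold lstG
      have a1 : (2 * (Cf : ℝ) + 7 * k + 12) * (q / 2) ≤ (2 * (Cf : ℝ) + 7 * k + 12) *
          (1 / 2) ^ kk := mul_le_mul_of_nonneg_left hk3 (by positivity)
      have a2 : (2 * (Cf : ℝ) + 7 * k + 12) * (q / 2) = (Cf + (7 * k + 12) / 2) * q := by ring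
      linarith
    · exact mul_le_mul hκ'e hk2 (by positivity) he0.le
  · refine nli_of (hNl ((Λ + 2) * q) (by positivity) hkn) (w := t) (Λ₀ := Λ) (q := q)
      (by linarith) (by linarith) ?_ h1 h2 h3 h4
    have a2 : 1 / ((pn : ℝ) + 1) * ((Λ + 2) * q) = (Λ + 2) / (pn + 1) * q := by ring
    rw [a2]
    refine mul_le_mul_of_nonneg_right ?_ hq0.le
    rw [div_le_iff₀ (by positivity)]
    exact hpn
  · obtain ⟨η, hη⟩ := hFa.rn
    exact ⟨η w₁, hη w₁⟩

end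

end Pool.T4C72
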