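import Pool.Agent.H72.T4C.S
import Pool.Agent.H72.T4C.Rec

/-!
# Several targets of one slope over slope-one places: numbers

`pv_num`: the numbers of the end at one pivot. `BoxT.la`: less room. `rec_balT`: ball windows for any
place. `mgL`: two lists of windows and one more.
-/

set_option autoImplicit false

namespace Pool.T4C72

open Finset Real MvPolynomial
open Pool.Agent.H49.Ent Pool.Agent.H32.Dense
open Pool.STK hiding pr2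
open Pool.KA Pool.KSAT Pool.K2S Pool.PB Pool.S6C
open Pool.GEN Pool.CHT Pool.CHX Pool.ISO Pool.LA91 Pool.AVG71 Pool.AVG5 Pool.D2F2 Pool.AVG57
open Pool.RCD Pool.AVG96 Pool.OWN68 Pool.V0F Pool.V0Q Pool.V0T
open Pool.AJW (CfB)
open Pool.D2R (WinB BalD)
open Pool.PKG (Kg RecG PropG)

/-- **The numbers of the end at one pivot**, in the unit `q`. `z₀`: the common small unit. -/
theorem pv_num {C q t β ζ z₀ s κm ε L0 LN bt Eb e a w : ℝ} (hq : 0 < q) (hC : 1 ≤ C) (hβ : 0 < β)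
    (hβκ : 32 * β ≤ κm) (hβs : 32 * β ≤ s - 1) (hκ1 : κm ≤ 1) (hz0 : 0 < z₀) (hzζ : z₀ ≤ ζ)
    (hζ : C * ζ * (s + 1) = β) (hε0 : 0 ≤ ε) (hε : 16 * ε ≤ β)
    (hbt : bt ≤ L0 + q + (s - 1) * (z₀ / 2 * q) + 2 * (ε * q) + β / 8 * q)
    (hLN : L0 + s * q - ε * q ≤ LN) (ha1 : t + q ≤ a) (ha2 : a ≤ t + q + β * q)
    (hw1 : t + z₀ / 2 * q ≤ w) (hw2 : w ≤ t + z₀ / 2 * q + z₀ * q / 4)
    (hroom : L0 + Eb + 3 * q < 1) (hEb : 0 < Eb) (he : Eb + 3 * q < e) :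
    w ≤ a ∧ a ≤ t + 3 / 2 * q ∧ bt + β * q ≤ 1 ∧
    Eb + C * (ζ * q) + 2 * (2 * (β * q)) ≤ e ∧
    bt + β * q + C * (ζ * q) + 2 * (2 * (β * q)) ≤ L0 + κm * q + (a - w) ∧
    bt + β * q + C * (ζ * q) + 2 * (2 * (β * q)) ≤ LN - (t + q - w) + (a - w) ∧
    bt + β * q + C * (ζ * q) + 2 * (2 * (β * q)) + z₀ / 2 * q ≤ L0 + 2 * (a - w) ∧
    z₀ / 2 * q + C * (ζ * q) ≤ a - w ∧
    (∀ x : ℝ, x + Eb + 3 * q < 1 → Eb + x + 2 * (a - w) + C * (ζ * q) ≤ 1) ∧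
    (∀ x : ℝ, x + Eb + 3 * q < 1 →
      Eb + x + max (κm * q) 0 + 2 * (z₀ / 2 * q) + C * (ζ * q) ≤ 1) ∧
    bt + β * q ≤ L0 + (a - w) + ζ * q + 2 * (β * q) := by
  have hζ0 : 0 < ζ := hz0.trans_le hzζ
  obtain ⟨X, hX⟩ : ∃ X, X = β * q := ⟨_, rfl⟩
  obtain ⟨Z, hZ⟩ : ∃ Z, Z = ζ * q := ⟨_, rfl⟩
  obtain ⟨Z₀, hZ₀⟩ : ∃ Z₀, Z₀ = z₀ * q := ⟨_, rfl⟩
  obtain ⟨Y, hY⟩ : ∃ Y, Y = C * (ζ * q) := ⟨_, rfl⟩
  obtain ⟨U, hU⟩ : ∃ U, U = ε * q := ⟨_, rfl⟩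
  obtain ⟨W, hW⟩ : ∃ W, W = κm * q := ⟨_, rfl⟩
  obtain ⟨Q, hQ⟩ : ∃ Q, Q = s * q := ⟨_, rfl⟩
  have hX0 : 0 < X := by rw [hX]; positivity
  have hZ0 : 0 < Z := by rw [hZ]; positivity
  have hZ00 : 0 < Z₀ := by rw [hZ₀]; positivity
  have hZZ : Z₀ ≤ Z := by
    rw [hZ₀, hZ]
    exact mul_le_mul_of_nonneg_right hzζ hq.le
  have hU0 : 0 ≤ U := by rw [hU]; positivity
  have hs : 1 < s := by linarith
  have hYZ : Z ≤ Y := by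
    rw [hY, ← hZ]
    exact le_mul_of_one_le_left hZ0.le hC
  have hYX : 2 * Y ≤ X := by
    have h1 : Y * (s + 1) = X := by
      rw [hY, hX, ← hζ]
      ring
    nlinarith
  have hsV : (s - 1) * (z₀ / 2 * q) ≤ X / 2 := by
    have h1 : (s + 1) * Y = X := by
      rw [hY, hX, ← hζ]
      ring
    have h2 : (s - 1) * (z₀ / 2 * q) = (s - 1) * Z₀ / 2 := by
      rw [hZ₀]
      ring
    have h3 : (s - 1) * Z₀ ≤ (s + 1) * Y :=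
      mul_le_mul (by linarith) (hZZ.trans hYZ) hZ00.le (by linarith)
    rw [h2]
    linarith
  have h1 : 32 * X ≤ W := by
    rw [hX, hW]
    have := mul_le_mul_of_nonneg_right hβκ hq.le
    linarith
  have h2 : 32 * X ≤ Q - q := by
    rw [hX, hQ]
    have := mul_le_mul_of_nonneg_right hβs hq.le
    linarith
  have h3 : W ≤ q := by
    rw [hW]
    have := mul_le_mul_of_nonneg_right hκ1 hq.le
    linarith
  have h4 : 16 * U ≤ X := by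
    rw [hU, hX]
    have := mul_le_mul_of_nonneg_right hε hq.le
    linarith
  have e1 : β / 8 * q = X / 8 := by rw [hX]; ring
  have e2 : z₀ / 2 * q = Z₀ / 2 := by rw [hZ₀]; ring
  have e3 : max (κm * q) 0 = W := by
    rw [← hW]
    exact max_eq_left (by linarith)
  rw [e1, ← hU] at hbt
  rw [← hQ, ← hU] at hLN
  rw [← hX] at ha2
  rw [e2] at hw1 hw2
  rw [← hZ₀] at hw2
  rw [e2, e3, ← hY, ← hX, ← hW, ← hZ]
  refine ⟨?_, ?_, ?_, ?_, ?_, ?_, ?_, ?_, fun x hx => ?_, fun x hx => ?_, ?_⟩ <;> linarith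

/-- **Less room.** -/
theorem BoxT.la {m : ℕ} {S : PCl m} {c : ℕ → Fin m} {k f D : ℕ} {sn sp : ℕ → ℝ → ℝ} {G : Set ℝ}
    {s h b o w u Λ Λ' φ e : ℝ} {lam : ℝ → ℝ} (B : BoxT S c k f D sn sp G s h b o w u Λ φ e lam)
    (hΛ : Λ' ≤ Λ) : BoxT S c k f D sn sp G s h b o w u Λ' φ e lam := by
  have hu := B.u0
  have h1 : Λ' * u ≤ Λ * u := mul_le_mul_of_nonneg_right hΛ hu.le
  refine ⟨B.lad, B.img, B.gd, B.u0, B.wG, by linarith [B.bw], by linarith [B.wo],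
    by linarith [B.o1], by linarith [B.b0], fun l hl => ⟨by linarith [(B.room l hl).1],
      by linarith [(B.room l hl).2]⟩, B.lin, B.lamt,
    fun P₁ P₂ h2 h3 h4 => B.row P₁ P₂ (h2.trans h1) (h3.trans h1) h4, fun v hv h2 h3 => ?_, ?_,
    B.spb, fun P w₁ x' h2 h3 h4 h5 h6 h7 => B.free P w₁ x' h2 h3 h4 (by linarith)
      (fun i => ⟨(h6 i).1, by linarith [(h6 i).2]⟩) h7,
    fun w₁ v y h2 h3 h4 h5 => B.nla w₁ v y h2 h3 h4 (by linarith), B.rn⟩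
  · obtain ⟨E, rd, ρ, h4, h5, h6⟩ := B.lab v hv h2 h3
    exact ⟨E, rd, ρ, h4, fun l hl => ⟨(h5 l hl).1, by linarith [(h5 l hl).2.1], (h5 l hl).2.2⟩,
      h6⟩
  · obtain ⟨rk, E, h2, h3, h4, h5⟩ := B.att
    exact ⟨rk, E, h2, h3, h4, by linarith⟩

section

variable {m : ℕ} {S : PCl m} {al : ℝ} {g₀ : ℝ → ℝ} {P : List (Fin m) × Fin m → ℝ → ℝ → ℝ}
  {θ : ℝ} {P₂ : ℕ → List (Fin m) × Fin m → ℝ → ℝ → ℝ} {θ₂ Eb e₂ : ℕ → ℝ}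
  {c : ℕ → Fin m} {Pt : ℝ → ℝ → ℝ} {rt : ℝ → ℝ} {h K₀ g : ℝ} {L T : ℕ → ℝ → ℝ → ℝ}
  {Sl : ℕ → ℝ} {κ : ℕ → Kg} {G : Set ℝ} {S₀ N : ℕ} {A V : ℕ → ℝ} {S₂ N' : ℕ} {V' : ℕ → ℝ}
  {K ε q t : ℝ}
  (R : RecG S al g₀ P θ P₂ θ₂ Eb e₂ c Pt rt h K₀ g L T Sl κ G S₀ N A V S₂ N' V' K ε q t)
include R

/-- **The ball windows** of the chain, for any place. -/
theorem rec_balT {i : ℕ} (hi : 1 ≤ i) (him : i < m) {k : ℕ} (hk : k < N') {x : ℝ} (hx : V' k < x)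
    (hxK : x - V' k ≤ 3 * K) (hVK : |V' k| ≤ K) :
    BalD S P θ c i (L i) (t + x * q) (t + V' k * q) S₀ (Eb i) := by
  have W := R.tg i hi him
  have hq := R.q0
  have h1 : V' k * q < x * q := mul_lt_mul_of_pos_right hx hq
  obtain ⟨ρ, vs, e, e₀, E, sg, Q, k1, k2, -⟩ := W.ptc k hk
  refine ⟨by linarith, ⟨ρ, vs, e, e₀, E, sg, Q, k1, k2⟩, fun l hl => ?_⟩
  have h3 := W.room l hl (t + V' k * q) (by
    rw [add_sub_cancel_left, abs_mul, abs_of_pos hq]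
    exact mul_le_mul_of_nonneg_right hVK hq.le)
  have h4 : lvN P c i (L i) l (t + V' k * q) (t + V' k * q) =
      L l (t + V' k * q) (t + V' k * q) := by
    rw [R.lv_at him hl]
  have h5 : (x - V' k) * q ≤ 3 * K * q := mul_le_mul_of_nonneg_right hxK hq.le
  rw [h4]
  linarith

end

/-- A positive lower bound. -/
theorem fin_pos {n : ℕ} {d : Fin (n + 1) → ℝ} (h : ∀ i, 0 < d i) : ∃ d₀ : ℝ, 0 < d₀ ∧
    ∀ i, d₀ ≤ d i := by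
  obtain ⟨i, -, hi⟩ := Finset.exists_min_image Finset.univ d Finset.univ_nonempty
  exact ⟨d i, h i, fun j => hi j (Finset.mem_univ j)⟩

/-- One window and two lists. -/
def mgL (N₁ : ℕ) (x : ℝ) (A₁ A₂ : ℕ → ℝ) (j : ℕ) : ℝ :=
  if j = 0 then x else if j < 1 + N₁ then A₁ (j - 1) else A₂ (j - 1 - N₁)

theorem subw_one {N₁ N₂ : ℕ} {x y : ℝ} {A₁ V₁ A₂ V₂ : ℕ → ℝ} :
    SubW N₁ A₁ V₁ (1 + N₁ + N₂) (mgL N₁ x A₁ A₂) (mgL N₁ y V₁ V₂) := fun j hj =>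
  ⟨j + 1, by omega, by
    unfold mgL
    rw [if_neg (by omega), if_pos (by omega), if_neg (by omega), if_pos (by omega),
      Nat.add_sub_cancel]
    exact ⟨rfl, rfl⟩⟩

theorem subw_two {N₁ N₂ : ℕ} {x y : ℝ} {A₁ V₁ A₂ V₂ : ℕ → ℝ} :
    SubW N₂ A₂ V₂ (1 + N₁ + N₂) (mgL N₁ x A₁ A₂) (mgL N₁ y V₁ V₂) := fun j hj =>
  ⟨j + 1 + N₁, by omega, by
    unfold mgL
    rw [if_neg (by omega), if_neg (by omega), if_neg (by omega), if_neg (by omega)]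
    have : j + 1 + N₁ - 1 - N₁ = j := by omega
    rw [this]
    exact ⟨rfl, rfl⟩⟩

theorem mgL_bd {N₁ N₂ : ℕ} {x y K K₁ K₂ : ℝ} {A₁ V₁ A₂ V₂ : ℕ → ℝ} (h1 : K₁ ≤ K) (h2 : K₂ ≤ K)
    (h0 : -K ≤ y ∧ y ≤ x ∧ x ≤ K) (b1 : ∀ j < N₁, -K₁ ≤ V₁ j ∧ V₁ j ≤ A₁ j ∧ A₁ j ≤ K₁)
    (b2 : ∀ j < N₂, -K₂ ≤ V₂ j ∧ V₂ j ≤ A₂ j ∧ A₂ j ≤ K₂) :
    ∀ j < 1 + N₁ + N₂, -K ≤ mgL N₁ y V₁ V₂ j ∧ mgL N₁ y V₁ V₂ j ≤ mgL N₁ x A₁ A₂ j ∧
      mgL N₁ x A₁ A₂ j ≤ K := by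
  intro j hj
  unfold mgL
  rcases Nat.eq_zero_or_pos j with h3 | h3
  · rw [if_pos h3, if_pos h3]
    exact h0
  · rw [if_neg h3.ne', if_neg h3.ne']
    by_cases h4 : j < 1 + N₁
    · rw [if_pos h4, if_pos h4]
      obtain ⟨c1, c2, c3⟩ := b1 (j - 1) (by omega)
      exact ⟨by linarith, c2, by linarith⟩
    · rw [if_neg h4, if_neg h4]
      obtain ⟨c1, c2, c3⟩ := b2 (j - 1 - N₁) (by omega)
      exact ⟨by linarith, c2, by linarith⟩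

end Pool.T4C72
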