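import Pool.Agent.H72.T4C.V0cN
import Pool.Agent.H72.T4C.Cls
import Pool.Agent.H72.T4C.Vn
import Pool.Agent.H72.T4C.Shf
import Pool.Agent.H92.V0F.Vsi

/-!
# Several targets of one slope over slope-one places: windows and constants

`wnt_of`: the windows of the charts in a record. `piv_cst`: the numbers of the pivots.
-/

set_option autoImplicit false

namespace Pool.T4C72

open Finset Real MvPolynomial
open Pool.Agent.H49.Ent Pool.Agent.H32.Dense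
open Pool.STK hiding pr2
open Pool.KA Pool.KSAT Pool.K2S Pool.PB Pool.S6C Pool.PKG
open Pool.GEN Pool.LA91 Pool.AVG71 Pool.AVG5 Pool.D2F2 Pool.AVG57
open Pool.RCD Pool.AVG96 Pool.OWN68 Pool.V0F Pool.V0Q Pool.V0T
open Pool.AJW (CfB)
open Pool.D2R (BalD WinB winb_con)
open Pool.CHT (chsys TmH bet)
open Pool.ISO (lvN)
open Pool.LBT (ThrOf)
open Pool.LEV (Law)
open Pool.T4E (PivN)

/-- A positive lower bound for finitely many numbers. -/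
theorem nat_pos {d : ℕ → ℝ} : ∀ f : ℕ, (∀ v ≤ f, 0 < d v) → ∃ m : ℝ, 0 < m ∧ ∀ v ≤ f, m ≤ d v
  | 0, h => ⟨d 0, h 0 le_rfl, fun v hv => by
    rw [Nat.le_zero.1 hv]⟩
  | f + 1, h => by
    obtain ⟨m, h1, h2⟩ := nat_pos f fun v hv => h v (by omega)
    refine ⟨min m (d (f + 1)), lt_min h1 (h _ le_rfl), fun v hv => ?_⟩
    rcases Nat.lt_or_eq_of_le hv with h3 | h3
    · exact (min_le_left _ _).trans (h2 v (by omega))
    · rw [h3]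
      exact min_le_right _ _

/-- An upper bound for finitely many numbers. -/
theorem nat_bd (d : ℕ → ℝ) : ∀ f : ℕ, ∃ M : ℝ, 1 ≤ M ∧ ∀ v ≤ f, d v ≤ M
  | 0 => ⟨max 1 (d 0), le_max_left _ _, fun v hv => by
    rw [Nat.le_zero.1 hv]
    exact le_max_right _ _⟩
  | f + 1 => by
    obtain ⟨M, h1, h2⟩ := nat_bd d f
    refine ⟨max M (d (f + 1)), h1.trans (le_max_left _ _), fun v hv => ?_⟩
    rcases Nat.lt_or_eq_of_le hv with h3 | h3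
    · exact (h2 v (by omega)).trans (le_max_left _ _)
    · rw [h3]
      exact le_max_right _ _

/-- A larger constant of the balls. -/
theorem winb_c {m J : ℕ} {F : Fam m J} {c : ℕ → Fin m} {r D Dr N M : ℕ}
    {C₀ C₁ a Eb ηm : ℝ} {o η σ : ℕ → ℝ} {lv b : ℕ → ℕ → ℝ} {κ : ℝ} {z : ℕ → ℕ → ℕ}
    {B : F.Ω → Prop} {g₀ : ℕ → ℕ → ℕ}
    {G : ℕ → PtT F → ℕ → MvPolynomial (Option (Fin m)) ℝ}
    {H : ℕ → LnT F → ℕ → MvPolynomial (Option (Fin m)) ℝ}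
    (W : WinB F c r D Dr N M C₀ a Eb ηm o η σ lv b κ z B g₀ G H) (h0 : 0 ≤ ηm) (h1 : C₀ ≤ C₁) :
    WinB F c r D Dr N M C₁ a Eb ηm o η σ lv b κ z B g₀ G H where
  C1 := W.C1.trans h1
  Eb0 := W.Eb0
  hη := W.hη
  hσ := W.hσ
  ho := W.ho
  hb := W.hb
  sds := W.sds
  ev := W.ev
  bal := fun k hk k' hk' q hq h2 h3 ω hω l hl b' hb' =>
    (W.bal k hk k' hk' q hq h2 h3 ω hω l hl b' hb').trans (by
      have h4 : (0 : ℝ) ≤ ηm * J := mul_nonneg h0 (Nat.cast_nonneg J)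
      have h5 : ⌊C₀ * (ηm * J)⌋₊ ≤ ⌊C₁ * (ηm * J)⌋₊ :=
        Nat.floor_le_floor (mul_le_mul_of_nonneg_right h1 h4)
      exact div_le_div_of_nonneg_right (pow_le_pow_right₀ one_le_two h5) (by positivity))

/-- **The numbers of the pivots.** -/
theorem piv_cst {f : ℕ} {C s : ℝ} {κp ζp : ℕ → ℝ} (hC : 10 ≤ C) (hs : 1 < s)
    (hκζ : ∀ l ≤ f, 0 < κp l ∧ κp l ≤ 1 ∧ 0 ≤ ζp l ∧
      ζp l ≤ (s - 1) / s / 2 / (96 * C ^ 2 * (s + 1)) * κp l) :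
    ∃ (κm β ζ : ℕ → ℝ) (z₀ βm : ℝ), 0 < z₀ ∧ z₀ ≤ 1 / 32 ∧ C * z₀ ≤ 1 / 32 ∧ 0 < βm ∧ βm ≤ 1 ∧
    ∀ l ≤ f, κm l ≤ κp l ∧ κm l ≤ (s - 1) / s / 2 ∧ 0 < κm l ∧ κm l ≤ 1 ∧ 0 < β l ∧
      32 * β l ≤ κm l ∧ 32 * β l ≤ s - 1 ∧ 0 < ζ l ∧ C * ζ l * (s + 1) = β l ∧ z₀ ≤ ζ l ∧
      C * (z₀ + ζp l + z₀) ≤ ζ l ∧ βm ≤ β l := by
  have hs0 : 0 < s := by linarith
  have hC0 : 0 < C := by linarith
  have hx0 : 0 < (s - 1) / s / 2 := by
    have : 0 < s - 1 := by linarith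
    positivity
  have hx1 : (s - 1) / s / 2 ≤ 1 := by
    have h1 : (s - 1) / s ≤ 1 := by
      rw [div_le_one hs0]
      linarith
    linarith
  have hx2 : (s - 1) / s / 2 ≤ s - 1 := by
    have h1 : (s - 1) / s ≤ s - 1 := div_le_self (by linarith) hs.le
    linarith
  have hX : ∀ x : ℝ, x = (s - 1) / s / 2 → 0 < x ∧ x ≤ 1 ∧ x ≤ s - 1 := fun x hx => by
    rw [hx]
    exact ⟨hx0, hx1, hx2⟩
  obtain ⟨x, hxe⟩ : ∃ x, x = (s - 1) / s / 2 := ⟨_, rfl⟩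
  rw [← hxe] at hκζ ⊢
  obtain ⟨hx0, hx1, hx2⟩ := hX x hxe
  obtain ⟨κm, hκm⟩ : ∃ κm : ℕ → ℝ, κm = fun v => min (κp v) x := ⟨_, rfl⟩
  obtain ⟨β, hβ⟩ : ∃ β : ℕ → ℝ, β = fun v => min (κm v) (s - 1) / 32 := ⟨_, rfl⟩
  obtain ⟨ζ, hζ⟩ : ∃ ζ : ℕ → ℝ, ζ = fun v => β v / (C * (s + 1)) := ⟨_, rfl⟩
  have h1 : ∀ l ≤ f, κm l ≤ κp l ∧ κm l ≤ x ∧ 0 < κm l ∧ κm l ≤ 1 ∧ 0 < β l ∧
      32 * β l ≤ κm l ∧ 32 * β l ≤ s - 1 ∧ 0 < ζ l ∧ C * ζ l * (s + 1) = β l ∧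
      3 * (C * ζp l) ≤ ζ l := by
    intro l hl
    obtain ⟨k1, k2, k3, k4⟩ := hκζ l hl
    have e1 : κm l = min (κp l) x := by rw [hκm]
    have e2 : β l = min (κm l) (s - 1) / 32 := by rw [hβ]
    have e3 : ζ l = β l / (C * (s + 1)) := by rw [hζ]
    have a1 : κm l ≤ κp l := by rw [e1]; exact min_le_left _ _
    have a2 : κm l ≤ x := by rw [e1]; exact min_le_right _ _
    have a3 : 0 < κm l := by rw [e1]; exact lt_min k1 hx0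
    have a4 : 0 < β l := by
      rw [e2]
      have : 0 < min (κm l) (s - 1) := lt_min a3 (by linarith)
      positivity
    have a5 : κp l * x ≤ min (κm l) (s - 1) := by
      refine le_min ?_ ?_
      · rw [e1]
        refine le_min ?_ ?_
        · exact mul_le_of_le_one_right k1.le hx1
        · exact mul_le_of_le_one_left hx0.le k2
      · exact (mul_le_of_le_one_left hx0.le k2).trans hx2
    refine ⟨a1, a2, a3, a2.trans hx1, a4, ?_, ?_, ?_, ?_, ?_⟩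
    · rw [e2]
      have := min_le_left (κm l) (s - 1)
      linarith
    · rw [e2]
      have := min_le_right (κm l) (s - 1)
      linarith
    · rw [e3]
      positivity
    · rw [e3]
      field_simp
    · have b1 : 3 * (C * ζp l) ≤ 3 * (C * (x / (96 * C ^ 2 * (s + 1)) * κp l)) :=
        mul_le_mul_of_nonneg_left (mul_le_mul_of_nonneg_left k4 hC0.le) (by norm_num)
      have b2 : 3 * (C * (x / (96 * C ^ 2 * (s + 1)) * κp l)) =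
          κp l * x / 32 / (C * (s + 1)) := by
        field_simp
        ring
      rw [b2] at b1
      refine b1.trans ?_
      rw [e3, e2]
      exact div_le_div_of_nonneg_right (by linarith) (by positivity)
  obtain ⟨z₁, hz₁, hz₁'⟩ := nat_pos f fun v hv => (h1 v hv).2.2.2.2.2.2.2.1
  obtain ⟨βm, hβm, hβm'⟩ := nat_pos f fun v hv => (h1 v hv).2.2.2.2.1
  obtain ⟨z₀, hz₀⟩ : ∃ z₀, z₀ = min (z₁ / (3 * C)) (1 / (32 * C)) := ⟨_, rfl⟩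
  have hz0 : 0 < z₀ := by
    rw [hz₀]
    exact lt_min (by positivity) (by positivity)
  have hz1 : 3 * (C * z₀) ≤ z₁ := by
    have h2 : z₀ ≤ z₁ / (3 * C) := by rw [hz₀]; exact min_le_left _ _
    rw [le_div_iff₀ (by positivity)] at h2
    linarith
  have hz2 : C * z₀ ≤ 1 / 32 := by
    have h2 : z₀ ≤ 1 / (32 * C) := by rw [hz₀]; exact min_le_right _ _
    rw [le_div_iff₀ (by positivity)] at h2
    linarith
  have hz3 : z₀ ≤ C * z₀ := le_mul_of_one_le_left hz0.le (by linarith)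
  refine ⟨κm, β, ζ, z₀, min βm 1, hz0, by linarith, hz2, lt_min hβm one_pos, min_le_right _ _,
    fun l hl => ?_⟩
  obtain ⟨a1, a2, a3, a4, a5, a6, a7, a8, a9, a10⟩ := h1 l hl
  have a11 := hz₁' l hl
  exact ⟨a1, a2, a3, a4, a5, a6, a7, a8, a9, by linarith, by linarith,
    (min_le_left _ _).trans (hβm' l hl)⟩

/-- **The windows of the charts** in a record. -/
theorem wnt_of {k f M₀ cb co N' : ℕ} {L : ℕ → ℝ → ℝ → ℝ} {t q s Λ φ C₀ Eb ηm : ℝ} {ow : ℕ → ℝ}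
    {nb : ℕ} (hM : 1 ≤ M₀) (hco : 1 ≤ co) (hN' : N' = (cb + co) * M₀ + 1) (hnb : nb = cb * M₀)
    (how : ∀ k, ow k = t + chV M₀ cb k * q) (hq : 0 < q) (hs : 1 < s) (hφ : q / M₀ ≤ φ)
    (hC : C₀ * ηm ≤ φ) (hE : ∀ l ≤ k + f, Eb + L l t t + Λ * q ≤ 1) :
    WnT k f (fun l v => L l v v) {v | ∃ j < N', v = t + chV M₀ cb j * q} s (t - cb * q) t q Λ φ
      (nb + M₀) C₀ Eb ηm ow (fun t' l => L l (ow t') (ow t')) (fun t' => t') (fun t' => nb + t')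
      nb M₀ ⌊(M₀ : ℝ) / s⌋₊ := by
  have hM0 : (0 : ℝ) < M₀ := by exact_mod_cast hM
  have how0 : ow 0 = t - cb * q := by rw [how, chV_zero]; ring
  have hownb : ow nb = t := by rw [how, hnb, chV_mid hM]; ring
  have hownn : ow (nb + M₀) = t + q := by
    rw [how, hnb, chV_nb hM, div_self hM0.ne']
    ring
  have hks := chw_ks (cb := cb) (t := t) (φ := φ) hM hs hq hφ
  rw [← hnb] at hks
  have hNN : nb + M₀ < N' := by
    rw [hN', hnb, add_mul]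
    have h2 : M₀ ≤ co * M₀ := Nat.le_mul_of_pos_left _ (by omega)
    omega
  have hφ0 : 0 < φ := lt_of_lt_of_le (by positivity) hφ
  refine ⟨hM, hks.1, fun t' ht' => ?_, fun t' ht' => ?_, rfl, how0, hownb, ?_, ?_, ?_,
    fun t' ht' => ⟨t', by omega, how t'⟩, fun t' ht' => ⟨nb + t', by omega, how _⟩,
    fun t' _ => ?_, fun t' _ => ?_, fun t' _ l _ => rfl, hC, hE⟩
  · show t' ≤ nb + M₀
    omega
  · show nb + t' ≤ nb + M₀
    omega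
  · show ow (nb + ⌊(M₀ : ℝ) / s⌋₊) ≤ ow (nb + M₀)
    simp only [how]
    have h1 := chV_mono (M₀ := M₀) (cb := cb) (show nb + ⌊(M₀ : ℝ) / s⌋₊ ≤ nb + M₀ by omega)
    have h2 := mul_le_mul_of_nonneg_right h1 hq.le
    linarith
  · show |ow (nb + ⌊(M₀ : ℝ) / s⌋₊) - (t + q / s)| ≤ φ
    rw [how]
    exact hks.2
  · show |ow (nb + M₀) - (t + q)| ≤ φ
    rw [hownn, sub_self, abs_zero]
    exact hφ0.le
  · simp only [how]
    exact chw_step hM hq hφ t'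
  · show ow (nb + t') ≤ ow (nb + (t' + 1)) ∧ ow (nb + (t' + 1)) ≤ ow (nb + t') + φ
    simp only [how]
    exact chw_step hM hq hφ (nb + t')

/-- **Ball windows** with the constants `D`, `Dr`, `CB`. -/
def WinbAt (m r S₀ D Dr : ℕ) (CB : ℝ) : Prop :=
    ∀ {S : PCl m} {P : List (Fin m) × Fin m → ℝ → ℝ → ℝ} {θ : ℝ}
    {c : ℕ → Fin m} {Pt : ℝ → ℝ → ℝ} {a Eb ηm : ℝ} {o η σ r₀ : ℕ → ℝ}
    (N M : ℕ), ThrOf (chsys m θ) S P → 0 < θ → TmH S →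
    Set.InjOn c (Set.Iio (r + 1)) → Law Pt → 0 ≤ Eb →
    (∀ k ≤ N, BalD S P θ c r Pt a (o k) S₀ Eb) →
    (∀ k ≤ N, 0 < η k ∧ 0 < σ k ∧ σ k ≤ ηm ∧ 0 < r₀ k ∧ η k ≤ ηm) →
    ∃ (K₁ : ℝ) (b : ℕ → ℕ → ℝ), 0 < K₁ ∧
      ∀ κ : ℝ, 0 < κ → Bas S (fun J F A => ∀ z : ℕ → ℕ → ℕ,
        (∀ k ≤ N, ∀ i ≤ M, r₀ k * J ≤ z k i ∧ z k i ≤ ⌊a * J⌋₊ - ⌊o k * J⌋₊) →
        ∃ (B : F.Ω → Prop) (g₀ : ℕ → ℕ → ℕ)
          (G : ℕ → PtT F → ℕ → MvPolynomial (Option (Fin m)) ℝ)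
          (H : ℕ → LnT F → ℕ → MvPolynomial (Option (Fin m)) ℝ), Sub B A ∧
          Pe F.p A ≤ K₁ * Pe F.p B ∧
          WinB F c r D Dr N M CB a Eb ηm o η σ
            (fun k l => lvN P c r Pt l (o k) (o k)) b κ z B g₀ G H)

theorem winbAt_ex (m r S₀ : ℕ) (hr : 1 ≤ r) (hS₀ : 1 ≤ S₀) : ∃ D₀ : ℕ, 1 ≤ D₀ ∧
    ∀ D : ℕ, D₀ ≤ D → ∀ Dr : ℕ, D ≤ Dr → ∃ CB : ℝ, 1 ≤ CB ∧ WinbAt m r S₀ D Dr CB :=
  winb_con m r S₀ hr hS₀

end Pool.T4C72
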