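import Pool.Agent.H48.V0T.S2

/-!
# The class theorem for several targets, with the lists of codes and of pivots
-/

set_option autoImplicit false

namespace Pool.T4C72

open Finset Real MvPolynomial
open Pool.Agent.H49.Ent Pool.Agent.H32.Dense
open Pool.STK hiding pr2
open Pool.KA Pool.KSAT Pool.K2S Pool.PB Pool.S6C
open Pool.GEN Pool.CHT Pool.CHX Pool.ISO Pool.LA91 Pool.AVG71 Pool.AVG5 Pool.D2F2 Pool.AVG57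
open Pool.RCD Pool.AVG96 Pool.OWN68 Pool.V0F Pool.V0Q Pool.V0T
open Pool.AJW (CfB)
open Pool.D2R (WinB gnh hgt hyb)
open Pool.PB.Trl (rt)

/-- **The class theorem** for `f + 1` targets, with its constants: slopes one below the place `k`, slope
`s` of the targets `c k, …, c (k + f)`; the unit `u`. The charts of the slope-one places are those of
the window `b`, the labels `GN` of the targets are near the charts of `w`. `al`: the targets with codes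
(`dj`, `jt`), `pv`: the possible pivots. -/
def V0cAt (f C : ℕ) (al : Fin (C + 1) → ℕ) {n₁ : ℕ} (pv : Fin (n₁ + 1) → ℕ) (D D' k : ℕ) (s h m₀ δ₀ T Λ ι φ₀ : ℝ)
    (κp ζp : ℕ → ℝ) : Prop :=
  ∀ {m : ℕ} {S : PCl m} {c : ℕ → Fin m} {sn : ℕ → ℝ → ℝ} {G : Set ℝ} {b o φ : ℝ},
    LadT S c k f sn G b o φ → (range (k + f)).image c = univ.erase (c (k + f)) →
    ∀ {w u : ℝ} {lam : ℝ → ℝ} {sp : ℕ → ℝ → ℝ}, 0 < u → w ∈ G → φ ≤ φ₀ * u →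
    -- the room
    b + Λ * u ≤ w → w + Λ * u ≤ o → o + Λ * u ≤ 1 → Λ * u ≤ b →
    (∀ l ≤ k + f, Λ * u ≤ sn l b ∧ sn l o + Λ * u ≤ 1) →
    -- the levels of the targets, the digits of the position of the last place
    (∀ l, k ≤ l → l ≤ k + f → ∀ v ∈ G, b ≤ v → v ≤ o → |sn l v - sn l w - s * (v - w)| ≤ φ) →
    (∀ v : ℝ, b ≤ v → v ≤ o → |lam v - sn (k + f) w - s * (v - w)| ≤ φ) →
    -- the rows
    (∀ P₁ P₂ : ℝ, |P₁ - sn (k + f) w| ≤ Λ * u → |P₂ - sn (k + f) w| ≤ Λ * u → P₁ ≤ P₂ →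
      RawN S (univ.erase (c (k + f))) (c (k + f)) P₁ (P₂ - P₁) h φ) →
    (∃ rk E : ℝ, rk < 1 ∧ 0 ≤ E ∧
      AttG S ((range (k + f)).image c) (c (k + f)) w (sn (k + f) w) rk E ∧
      sn (k + f) w + E + Λ * u ≤ 1) →
    -- free velocities
    (∀ i < k, sp i b ≤ sn i b - φ) →
    (∀ (P : Fin k → ℚ) (w₁ : ℚ) (x' : ℝ), w ≤ w₁ → (w₁ : ℝ) ≤ w + φ → x' ∈ G → w₁ ≤ x' →
      x' ≤ w + Λ * u → (∀ i : Fin k, sn i w - w + u ≤ P i ∧ (P i : ℝ) ≤ sn i w - w + Λ * u) →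
      (∀ l i : Fin k, l < i → (P i : ℝ) - (sn i w - w) + u / 2 ≤ P l - (sn l w - w)) →
      FrI S c k sp b (fun i => (P i : ℝ)) w₁ x' (φ₀ * u)) →
    -- no look-ahead
    (∀ w₁ v y : ℚ, w ≤ w₁ → w₁ ≤ v → v ≤ y → (y : ℝ) ≤ w + Λ * u →
      NlI S (c (k + f)) w₁ v (lam v) (lam y) (φ₀ * u)) →
    -- the records
    (∀ w₁ : ℚ, w ≤ w₁ → (w₁ : ℝ) ≤ w + φ →
      ∃ η : ℝ, RNum S (fun J F => ptr F J) (vg (w₁ : ℝ)) η) →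
    -- the windows of the charts
    ∀ {Dr N M : ℕ} {C₀ a Eb ηm : ℝ} {ow η σ : ℕ → ℝ} {lv bb : ℕ → ℕ → ℝ} {fb fn : ℕ → ℕ}
      {nb n ks : ℕ}, 1 ≤ n → ks ≤ n → (∀ t ≤ nb, fb t ≤ N) → (∀ t ≤ n, fn t ≤ N) →
    fn 0 = fb nb → ow (fb 0) = b → ow (fn 0) = w → ow (fn ks) ≤ ow (fn n) →
    |ow (fn ks) - (w + u / s)| ≤ φ → |ow (fn n) - (w + u)| ≤ φ →
    (∀ t ≤ nb, ow (fb t) ∈ G) → (∀ t ≤ n, ow (fn t) ∈ G) →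
    (∀ t < nb, ow (fb t) ≤ ow (fb (t + 1)) ∧ ow (fb (t + 1)) ≤ ow (fb t) + φ) →
    (∀ t < n, ow (fn t) ≤ ow (fn (t + 1)) ∧ ow (fn (t + 1)) ≤ ow (fn t) + φ) →
    (∀ t ≤ N, ∀ l ≤ k + f, lv t l = sn l (ow t)) → C₀ * ηm ≤ φ →
    (∀ l ≤ k + f, Eb + sn l w + Λ * u ≤ 1) →
    ∀ E : ℝ, Bas S (fun J F A => ∀ {κ : ℝ} {z : ℕ → ℕ → ℕ}
      {g₀ : ℕ → ℕ → ℕ} {Gc : ℕ → PtT F → ℕ → MvPolynomial (Option (Fin m)) ℝ}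
      {H : ℕ → LnT F → ℕ → MvPolynomial (Option (Fin m)) ℝ}
      {GN : PtT F → ℕ → MvPolynomial (Option (Fin m)) ℝ}
      {HN : LnT F → ℕ → MvPolynomial (Option (Fin m)) ℝ},
      WinB F c (k + f) D Dr N M C₀ a Eb ηm ow η σ lv bb κ z A g₀ Gc H →
      (∀ t < nb, ∃ j ≤ M, z (fb t) j = ⌊ow (fb (t + 1)) * J⌋₊ - ⌊ow (fb t) * J⌋₊) →
      (∀ t < n, ∃ j ≤ M, z (fn t) j = ⌊ow (fn (t + 1)) * J⌋₊ - ⌊ow (fn t) * J⌋₊) →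
      (∃ jq ≤ M, ∃ jT ≤ M, (z (fb 0) jq : ℝ) ≤ u * J ∧ z (fb 0) jq + 1 ≤ z (fb 0) jT) →
      (∀ l < k, CfB F ⌊b * J⌋₊ E (c l) A (fun s => s) (fun s => H (fb 0) s l)) →
      -- the labels of the targets
      LbT F c k f D' w u φ E sn A (g₀ (fn 0)) (Gc (fn 0)) GN HN →
      -- the codes of the alive targets
      (∀ i, ∀ N' : ℕ, (N' : ℝ) ≤ (sn (k + al i) w + (1 + (s - 1) / s) * u) * J →
        CH (Pool.Agent.H49.Ent.cond F.p A True)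
          (Pool.AVG57.cod F ⌊w * J⌋₊ (fun s' => HN s' (k + al i)) (c (k + al i)) N' 1 (D' + 1))
          (fun ω => (jet2 F c ⌊w * J⌋₊ (fhT H HN (fb 0) k ⌊b * J⌋₊ ⌊w * J⌋₊) 0 k
            (fun l' j' => sn l' w + T * u - (j' : ℝ) * w) ω, (cR F A w ω, F.W ω))) ≤
          δ₀ * u * J) →
      (∀ i, ∀ N' : ℕ, (N' : ℝ) ≤ (sn (k + al i) w + u) * J →
        CH (Pool.Agent.H49.Ent.cond F.p A True)
          (Pool.AVG57.cod F ⌊w * J⌋₊ (fun s' => HN s' (k + al i)) (c (k + al i)) N' 0 (D' + 1))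
          (fun ω => (jet2 F c ⌊w * J⌋₊ (fhT H HN (fb 0) k ⌊b * J⌋₊ ⌊w * J⌋₊) 0 k
            (fun l' j' => sn l' w + u + 400 * ((k : ℝ) + 2) * φ - (j' : ℝ) * w) ω,
            (cR F A (ow (fn n)) ω, F.W ω))) ≤ δ₀ * u * J) →
      (∀ ω, A ω → ∀ l, k ≤ l → l ≤ k + f → ∀ i < l,
        |ggT F c k Gc GN (fb 0) (fn n) (g₀ (fn 0)) l ω i| ≤ 2 ^ (ι * u * J)) ∧
      (∀ ω ν, A ω → A ν → ptr F J ω = ptr F J ν → ∀ l, k ≤ l → l ≤ k + f → ∀ i < k,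
        |ggT F c k Gc GN (fb 0) (fn n) (g₀ (fn 0)) l ω i -
          ggT F c k Gc GN (fb 0) (fn n) (g₀ (fn 0)) l ν i| ≤ 2 ^ (-((s - 1) / s / 2 * u * J))) ∧
      ∃ (v W : ℕ) (A' : F.Ω → Prop) (la : LnT F → ℕ → ℝ) (laP : PtT F → ℕ → ℝ)
        (mu : LnT F → ℕ → Polynomial ℝ), v ≤ f ∧ v ∈ Set.range pv ∧
        ⌊w * J⌋₊ ≤ W ∧ (W : ℝ) ≤ (w + 2 * φ) * J ∧ Sub A' A ∧ m₀ * Pe F.p A ≤ Pe F.p A' ∧
        (∀ s' l, |la s' l| ≤ 2 ^ (ζp v * u * J)) ∧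
        (∀ s' i, (mu s' i).natDegree ≤ D' + 1) ∧
        ∀ ω, A' ω → (∀ l < v, la (slam F W ω) l = laP (ptr F J ω) l) ∧ ∀ i < k,
          |ggT F c k Gc GN (fb 0) (fn n) (g₀ (fn 0)) (k + v) ω i +
            ∑ l ∈ range v, la (slam F W ω) l *
              ggT F c k Gc GN (fb 0) (fn n) (g₀ (fn 0)) (k + l) ω i -
            (mu (slam F W ω) i).eval (rt F W ω)| ≤ 2 ^ (-(κp v * u * J)))

/-- **(V0CG)** The class theorem for `f + 1` targets, the codes of the targets `k + al i`, the pivots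
`k + pv i`. -/
def V0cGStmt (f C : ℕ) (al : Fin (C + 1) → ℕ) {n₁ : ℕ} (pv : Fin (n₁ + 1) → ℕ) : Prop :=
  ∀ (D D' k : ℕ) (s h θ : ℝ), 1 ≤ D → D ≤ D' → 1 ≤ k → 1 < s → 0 < h → h ≤ 1 → 0 < θ →
  ∃ (m₀ δ₀ T₀ : ℝ) (κp ζp : ℕ → ℝ), 0 < m₀ ∧ 0 < δ₀ ∧
  (∀ l ≤ f, 0 < κp l ∧ κp l ≤ 1 ∧ 0 ≤ ζp l ∧ ζp l ≤ θ * κp l) ∧
  ∀ T : ℝ, T₀ ≤ T → ∃ Λ : ℝ, 1 ≤ Λ ∧ ∀ ι : ℝ, 0 < ι → ∃ φ₀ : ℝ, 0 < φ₀ ∧
  V0cAt f C al pv D D' k s h m₀ δ₀ T Λ ι φ₀ κp ζp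

/-- **The pivots are the alive targets.** -/
theorem v0cG_of {f C : ℕ} {al : Fin (C + 1) → ℕ} (hal : ∀ l ≤ f, l ∈ Set.range al)
    (H : V0cTStmt f C al) : V0cGStmt f C al al := by
  intro D D' k s h θ h1 h2 h3 h4 h5 h6 h7
  obtain ⟨m₀, δ₀, T₀, κp, ζp, a1, a2, a3, H⟩ := H D D' k s h θ h1 h2 h3 h4 h5 h6 h7
  refine ⟨m₀, δ₀, T₀, κp, ζp, a1, a2, a3, fun T hT => ?_⟩
  obtain ⟨Λ, a4, H⟩ := H T hT
  refine ⟨Λ, a4, fun ι hι => ?_⟩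
  obtain ⟨φ₀, a5, H⟩ := H ι hι
  refine ⟨φ₀, a5, ?_⟩
  intro m S c sn G b o φ b1 b2 w u lam sp b3 b4 b5 b6 b7 b8 b9 b10 b11 b12 b13 b14 b15 b16 b17 b18
    Dr N M C₀ a Eb ηm ow η σ lv bb fb fn nb n ks c1 c2 c3 c4 c5 c6 c7 c8 c9 c10 c11 c12 c13 c14
    c15 c16 c17 E
  refine Bas.mono 0 (H b1 b2 b3 b4 b5 b6 b7 b8 b9 b10 b11 b12 b13 b14 b15 b16 b17 b18 c1 c2 c3 c4
    c5 c6 c7 c8 c9 c10 c11 c12 c13 c14 c15 c16 c17 (Dr := Dr) (M := M) (a := a) (η := η)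
    (σ := σ) (bb := bb) E) ?_
  intro J _ F A hF κ z g₀ Gc H' GN HN d1 d2 d3 d4 d5 d6 d7 d8
  obtain ⟨e1, e2, v, W, A', la, laP, mu, e3, e4, e5, e6, e7, e8, e9, -, e10, e11⟩ :=
    hF d1 d2 d3 d4 d5 d6 d7 d8 (fun l hl hn => absurd (hal l hl) hn)
  exact ⟨e1, e2, v, W, A', la, laP, mu, e3, e4, e5, e6, e7, e8, e9, e10, e11⟩

end Pool.T4C72
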