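import Pool.Agent.H72.T4C.Core

/-!
# The box of a record at a shifted window

`box_at`: the box of a record at the window `t + o q`, in a subclass.
-/

set_option autoImplicit false

namespace Pool.T4C72

open Finset Real MvPolynomial
open Pool.Agent.H49.Ent Pool.Agent.H32.Dense
open Pool.STK hiding pr2
open Pool.KA Pool.KSAT Pool.K2S Pool.PB Pool.S6C
open Pool.GEN Pool.LA91 Pool.RCD Pool.OWN68 Pool.V0F Pool.V0T
open Pool.PKG (Kg RecG PropG)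

/-- The grid of a shifted window. -/
theorem grid_shift (M₀ cb N' o : ℕ) (t q : ℝ) :
    {v : ℝ | ∃ j < N', v = t + o * q + chV M₀ (cb + o) j * q} =
      {v : ℝ | ∃ j < N', v = t + chV M₀ cb j * q} := by
  have h : ∀ j, t + o * q + chV M₀ (cb + o) j * q = t + chV M₀ cb j * q := fun j => by
    rw [← chV_shift]
    ring
  simp only [h]

section

variable {k f : ℕ} {S S₁ : PCl (k + f + 1)} {al : ℝ} {g₀ : ℝ → ℝ}
  {P : List (Fin (k + f + 1)) × Fin (k + f + 1) → ℝ → ℝ → ℝ}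
  {θ : ℝ} {P₂ : ℕ → List (Fin (k + f + 1)) × Fin (k + f + 1) → ℝ → ℝ → ℝ} {θ₂ Eb e₂ : ℕ → ℝ}
  {c : ℕ → Fin (k + f + 1)} {Pt : ℝ → ℝ → ℝ} {rt : ℝ → ℝ} {h K₀ g : ℝ} {L T : ℕ → ℝ → ℝ → ℝ}
  {Sl : ℕ → ℝ} {κ : ℕ → Kg} {G : Set ℝ} {S₀ N : ℕ} {A V : ℕ → ℝ} {S₂ N' : ℕ} {V' : ℕ → ℝ}
  {K ε q t : ℝ}
  (R : RecG S al g₀ P θ P₂ θ₂ Eb e₂ c Pt rt h K₀ g L T Sl κ G S₀ N A V S₂ N' V' K ε q t)
include R

/-- **The box of a record** at the window `t + o q`, in a subclass. -/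
theorem box_at (hne : S₁.Ne) (hs₁ : ∀ (τ : ℝ) (J : ℕ) (F : Fam (k + f + 1) J) (A : F.Ω → Prop),
    S₁.St τ J F A → S.St τ J F A)
    {M₀ cb co D₁ D Cf pn kk kf kn o : ℕ} {κ' : ℚ} {Λ φ e s x₀ x₁ : ℝ} (hM : 1 ≤ M₀)
    (hN' : N' = (cb + co) * M₀ + 1) (hV' : ∀ k < N', V' k = chV M₀ cb k)
    (hk1 : 1 ≤ k + f) (hΛ : 1 ≤ Λ) (hD : D₁ ≤ D)
    -- the constants
    (hCf : 2 * Λ + 7 * k + 15 ≤ Cf) (hcb : cb = Cf + 7 * k + 13) (hco : Λ + 1 + o ≤ co)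
    (hK : (cb : ℝ) + co + Λ + s + 10 + (1 + s) * o + ε ≤ K) (hε : 0 < ε)
    (hSl : ∀ l < k, Sl l = 1) (hκ1 : ∀ l < k, κ l = .one)
    (hSs : ∀ l, k ≤ l → l ≤ k + f → Sl l = s) (hs : 1 < s) (he0 : 0 < e)
    (hφ : 8 * (ε * q) ≤ φ) (hφM : (3 * s + 1) * (q / M₀) ≤ φ) (hφq : 400 * φ ≤ q)
    (hκ'0 : (0 : ℝ) < κ') (hκ'e : (κ' : ℝ) ≤ e) (hpn : Λ + 2 ≤ e * (pn + 1))
    -- the labels
    (hlab : ∀ j < N', ∃ (E rd : ℕ → ℝ) (ρ : ℝ), ρ < 1 ∧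
        (∀ l ≤ k + f + 1 - 1, 0 ≤ E l ∧ L l (t + V' j * q) (t + V' j * q) + E l + Λ * q ≤ 1 ∧
          0 ≤ rd l ∧ rd l ≤ ρ) ∧ ∀ e : ℝ, 0 < e →
        Bas S (fun J F A => ∃ (V : Type) (z : PtT F → V) (z' : LnT F → V)
          (g : V → ℕ → MvPolynomial (Option (Fin (k + f + 1))) ℝ),
          LbE F c (k + f + 1) D₁ E e (t + V' j * q) rd
            (fun l => L l (t + V' j * q) (t + V' j * q)) A z z' g))
    (hatt : ∀ j < N', ∃ rk E : ℝ, 0 ≤ rk ∧ rk < 1 ∧ 0 ≤ E ∧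
      E + L (k + f) (t + V' j * q) (t + V' j * q) + Λ * q ≤ 1 ∧
      LbU S ((range (k + f)).image c) (c (k + f)) (t + V' j * q)
        (L (k + f) (t + V' j * q) (t + V' j * q)) rk E)
    -- the properties of the points
    (hFa : FaQ (k, Cf + o, (1 / 8 : ℚ), κ') kf S P θ c Pt rt L T κ G x₀)
    (hx01 : t + o * q - (Cf + o + (7 * k + 12) / 2 - Λ) * q ≤ x₀)
    (hx02 : x₀ ≤ t + o * q - ((Cf + o) / 2 + 7 * k + 13) * q)
    (hkf : kf ≤ kk) (hk2 : (1 / 2 : ℝ) ^ kk ≤ q) (hk3 : q / 2 ≤ (1 / 2 : ℝ) ^ kk)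
    (hNl : NlaQ pn kn S P θ c Pt rt L T κ G x₁) (hx11 : t + o * q - q ≤ x₁)
    (hx12 : x₁ ≤ t + o * q) (hkn : (Λ + 2) * q ≤ (1 / 2) ^ kn) :
    BoxT S₁ c k f D (fun l v => L l v v) (fun i x => L i x x - 1 / 8 / 20 * (1 / 2) ^ kk)
      {v | ∃ j < N', v = t + chV M₀ cb j * q} s h (t - cb * q) (t + co * q) (t + o * q) q Λ φ e
      (lh (L (k + f)) G) := by
  have hq0 := R.q0
  have hco0 : (o : ℝ) ≤ co := by linarith
  have hco1 : o ≤ co := by exact_mod_cast hco0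
  obtain ⟨co', rfl⟩ : ∃ co', co = co' + o := ⟨co - o, by omega⟩
  push_cast at hco hK hco0
  have hs0 : 0 < s := by linarith
  have hcb0 : (0 : ℝ) ≤ cb := Nat.cast_nonneg _
  have ho0 : (0 : ℝ) ≤ o := Nat.cast_nonneg _
  have hco'0 : (0 : ℝ) ≤ co' := Nat.cast_nonneg _
  have hSk : Sl (k + f + 1 - 1) = s := by
    rw [Nat.add_sub_cancel]
    exact hSs (k + f) (by omega) le_rfl
  have R' := recG_shift (R.sub hne hs₁) (x := (o : ℝ)) (K' := (cb : ℝ) + (co' + o) + Λ + s + 10)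
    ho0 (by linarith) hε.le (by omega) (by
      rw [hSk, abs_of_pos hs0]
      linarith)
  have hw : ∀ y : ℝ, t + o * q + (y - o) * q = t + y * q := fun y => by ring
  have hN'' : N' = ((cb + o) + co') * M₀ + 1 := by
    rw [hN']
    congr 2
    omega
  have hB := rec_box R' (M₀ := M₀) (cb := cb + o) (co := co') (D := D) (Cf := Cf + o) (pn := pn)
    (kk := kk) (kf := kf) (kn := kn) (κ' := κ') (Λ := Λ) (φ := φ) (e := e) (s := s) (x₀ := x₀)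
    (x₁ := x₁) hM hN'' (fun j hj => by
      show V' j - (o : ℝ) = _
      rw [hV' j hj, chV_shift]) hk1 hΛ (by push_cast; linarith) (by omega) (by linarith)
    (by push_cast; linarith) (by linarith) hSl hκ1 hSs hs he0 (by linarith) hφM hφq hκ'0 hκ'e hpn
    (fun j hj => by
      obtain ⟨E, rd, ρ, h1, h2, h3⟩ := hlab j hj
      refine ⟨E, rd, ρ, h1, ?_, fun e he => ?_⟩
      · simp only [hw]
        exact h2
      · simp only [hw]
        refine ((h3 e he).sub hs₁).mono 0 ?_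
        rintro J - F A' ⟨V₁, z, z', g', h4⟩
        exact ⟨V₁, z, z', g', fun i hi => (h4 i hi).mono (Finset.Subset.refl _) hD le_rfl le_rfl
          le_rfl⟩)
    (fun j hj => by
      obtain ⟨rk, E, h1, h2, h3, h4, h5⟩ := hatt j hj
      simp only [hw]
      exact ⟨rk, E, h1, h2, h3, h4, h5.sub hs₁⟩)
    (hFa.sub hs₁) (by push_cast; exact hx01) (by push_cast; exact hx02) hkf hk2 hk3
    (her_nla (k + f + 1) pn kn S S₁ P θ c Pt rt L T κ G x₁ hs₁ hNl) hx11 hx12 hkn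
  rw [grid_shift] at hB
  have e1 : t + o * q - ((cb + o : ℕ) : ℝ) * q = t - cb * q := by push_cast; ring
  have e2 : t + o * q + (co' : ℝ) * q = t + ((co' + o : ℕ) : ℝ) * q := by push_cast; ring
  rw [e1, e2] at hB
  exact hB

end

end Pool.T4C72
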