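import Pool.Agent.H72.T4C.VoidH
import Pool.Agent.H17.T4.EndT
import Pool.Agent.H56.ASM.Jt
import Pool.Agent.H3.V0F.Nla

/-!
# The tie of all slopes over one contact coordinate

`TieExStmt κ Φ`: the tie for some property, for the kinds `κ` and the slopes with `Φ`. `clV_tie`: the
class theorem of the kinds one, any, any, thin with equal slopes of the last three places, from the
class theorem `V0cGStmt 2` with the pivot last. `pOne_eq`: the parts at one contact coordinate, the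
target with the slope of the tie.
-/

set_option autoImplicit false

namespace Pool.T4C72

open Pool.GEN Pool.PKG Pool.LA91 Pool.V0F
open Pool.ASM (ClV VdP POne)

/-- **(TIE)** The tie with some property, for the kinds `κ` and the slopes with `Φ`, dimension
four. -/
def TieExStmt (κ : ℕ → Kg) (Φ : (ℕ → ℝ) → Prop) : Prop :=
  ∀ h : ℝ, 0 < h → h ≤ 1 → ∃ (ι : Type) (_ : Countable ι) (Q : PropG 4 ι), HerQ Q ∧
    ((∀ k, 1 ≤ k → k < 4 → FZX k) → AePG 4 Q) ∧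
    ∀ Sl : ℕ → ℝ, Φ Sl → TieHStmt 1 2 (fun i : Fin (2 + 1) => (i : ℕ)) h Sl κ Q

/-- The slopes one, s, s, s. -/
def SlEq (Sl : ℕ → ℝ) : Prop := Sl 0 = 1 ∧ 1 < Sl 3 ∧ Sl 1 = Sl 3 ∧ Sl 2 = Sl 3

theorem TieExStmt.mono {κ : ℕ → Kg} {Φ Φ' : (ℕ → ℝ) → Prop} (H : TieExStmt κ Φ)
    (h : ∀ Sl, Φ' Sl → Φ Sl) : TieExStmt κ Φ' := by
  intro h' h0 h1
  obtain ⟨ι, hc, Q, hQ, hA, H⟩ := H h' h0 h1
  exact ⟨ι, hc, Q, hQ, hA, fun Sl hS => H Sl (h Sl hS)⟩

/-- **The class theorem** of the kinds one, any, any, thin, equal slopes of the last places. -/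
theorem clV_tie (hV : V0cGStmt 2 2 (fun i : Fin (2 + 1) => (i : ℕ)) (fun _ : Fin (0 + 1) => 2))
    {κ : ℕ → Kg} {Φ : (ℕ → ℝ) → Prop} (hT : TieExStmt κ Φ) (hκ0 : κ 0 = .one)
    (hκ3 : κ 3 = .thin) (hΦ : ∀ Sl, Φ Sl → SlEq Sl) : ClV κ Φ := by
  intro h h0 h1
  obtain ⟨ι, hc, Q, hQ, hA, hT⟩ := hT h h0 h1
  refine ⟨_, inferInstance, sumQ FaQ (sumQ NlaQ (sumQ AttUQ (sumQ ChUQ Q))), fun hZ =>
    aePG_sum (aePG_fa _) (her_fa _) (aePG_sum (t_nla _) (her_nla _)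
      (aePG_sum (aePG_attU _) (her_attU _) (aePG_sum (aePG_chU _) (her_chU _) (hA hZ)))),
    fun Sl hS => ?_⟩
  obtain ⟨s0, s3, s1, s2⟩ := hΦ Sl hS
  refine v0t_voidH (k := 1) (f := 2) hV (Pool.T4E.endT 1 2 _) hQ (hT Sl hS) le_rfl
    (fun _ => le_rfl) ⟨0, rfl⟩ h0 h1 (fun l hl => ?_) (fun l hl => ?_) (fun l h2 h3 => ?_)
    (fun _ => hκ3) s3
  · obtain rfl : l = 0 := by omega
    exact s0
  · obtain rfl : l = 0 := by omega
    exact hκ0
  · obtain rfl | rfl | rfl : l = 1 ∨ l = 2 ∨ l = 3 := by omega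
    · exact s1
    · exact s2
    · rfl

/-- **One contact coordinate**, the target with the slope of the tie, from the class theorem and the
tie. -/
theorem pOne_eq
    (hV : V0cGStmt 2 2 (fun i : Fin (2 + 1) => (i : ℕ)) (fun _ : Fin (0 + 1) => 2))
    (tt : TieExStmt (kg4 .one .thin .thin .thin) SlEq)
    (ts : TieExStmt (kg4 .one .thin .sta .thin) fun Sl => SlEq Sl ∧ Sl 3 = 2)
    (st : TieExStmt (kg4 .one .sta .thin .thin) fun Sl => SlEq Sl ∧ Sl 3 = 2)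
    (ss : TieExStmt (kg4 .one .sta .sta .thin) fun Sl => SlEq Sl ∧ Sl 3 = 2) :
    POne fun a b => a = b := by
  have key : ∀ Sl : ℕ → ℝ, Sl 0 = 1 ∧ Sl 1 = 2 ∧ Sl 2 = 2 ∧ 2 = Sl 3 → SlEq Sl ∧ Sl 3 = 2 :=
    fun Sl ⟨h0, h1, h2, h3⟩ => ⟨⟨h0, by rw [← h3]; norm_num, by rw [h1, h3], by rw [h2, h3]⟩,
      h3.symm⟩
  refine ⟨?_, ?_, ?_, ?_⟩
  · refine ((clV_tie hV tt rfl rfl fun Sl hS => hS).mono fun Sl hS => ?_).p
    obtain ⟨h0, h1, h2, h3⟩ := hS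
    have h3' : Sl 1 = Sl 3 := h3
    exact ⟨h0, by rw [← h3']; exact h1, h3', by rw [h2, h3']⟩
  · exact ((clV_tie hV ts rfl rfl fun Sl hS => hS.1).mono key).p
  · exact ((clV_tie hV st rfl rfl fun Sl hS => hS.1).mono key).p
  · exact ((clV_tie hV ss rfl rfl fun Sl hS => hS.1).mono key).p

/-- The same with one tie for all kinds. -/
theorem pOne_eq'
    (hV : V0cGStmt 2 2 (fun i : Fin (2 + 1) => (i : ℕ)) (fun _ : Fin (0 + 1) => 2))
    (hT : ∀ κ : ℕ → Kg, κ 0 = .one → κ 3 = .thin → TieExStmt κ SlEq) :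
    POne fun a b => a = b :=
  pOne_eq hV (hT _ rfl rfl) ((hT _ rfl rfl).mono fun _ h => h.1) ((hT _ rfl rfl).mono fun _ h => h.1)
    ((hT _ rfl rfl).mono fun _ h => h.1)

end Pool.T4C72
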