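import Pool.Agent.H72.T4C.Cons
import Pool.Agent.H48.V0T.V0cC

/-!
# The tie of all slopes over one contact coordinate

`pOne_tie`: the parts at one contact coordinate, the target with the slope of the tie, from the tie
alone. `pOne_fin`: the same from the law `V0tFinF 2`.
-/

set_option autoImplicit false

namespace Pool.T4C72

open Pool.GEN Pool.PKG Pool.LA91 Pool.V0F
open Pool.ASM (POne)

/-- **One contact coordinate**, the target with the slope of the tie, from the law of three targets
and the tie. -/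
theorem pOne_fin (hF : Pool.V0T.V0tFinF 2)
    (tt : TieExStmt (kg4 .one .thin .thin .thin) SlEq)
    (ts : TieExStmt (kg4 .one .thin .sta .thin) fun Sl => SlEq Sl ∧ Sl 3 = 2)
    (st : TieExStmt (kg4 .one .sta .thin .thin) fun Sl => SlEq Sl ∧ Sl 3 = 2)
    (ss : TieExStmt (kg4 .one .sta .sta .thin) fun Sl => SlEq Sl ∧ Sl 3 = 2) :
    POne fun a b => a = b :=
  pOne_eq (Pool.V0T.v0cT hF (Pool.V0T.fulT 2)) tt ts st ss

/-- The same with one tie for all kinds. -/
theorem pOne_fin' (hF : Pool.V0T.V0tFinF 2)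
    (hT : ∀ κ : ℕ → Kg, κ 0 = .one → κ 3 = .thin → TieExStmt κ SlEq) :
    POne fun a b => a = b :=
  pOne_eq' (Pool.V0T.v0cT hF (Pool.V0T.fulT 2)) hT

/-- **One contact coordinate**, the target with the slope of the tie, from the tie. -/
theorem pOne_tie
    (tt : TieExStmt (kg4 .one .thin .thin .thin) SlEq)
    (ts : TieExStmt (kg4 .one .thin .sta .thin) fun Sl => SlEq Sl ∧ Sl 3 = 2)
    (st : TieExStmt (kg4 .one .sta .thin .thin) fun Sl => SlEq Sl ∧ Sl 3 = 2)
    (ss : TieExStmt (kg4 .one .sta .sta .thin) fun Sl => SlEq Sl ∧ Sl 3 = 2) :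
    POne fun a b => a = b :=
  pOne_eq Pool.V0T.v0cG_three tt ts st ss

/-- The same with one tie for all kinds. -/
theorem pOne_tie' (hT : ∀ κ : ℕ → Kg, κ 0 = .one → κ 3 = .thin → TieExStmt κ SlEq) :
    POne fun a b => a = b := pOne_eq' Pool.V0T.v0cG_three hT

end Pool.T4C72
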