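import Pool.Agent.H72.T4C.Cons
import Pool.Agent.H44.V0P.V0clF

/-!
# The tie of two places over two contact coordinates

`TieEx2Stmt κ Φ`: the tie for some property, slopes one, one, s, s. `clV_tie2`: the class theorem from
the tie. `vdP_tie2`: the parts `1, 1, s; s` of `PTwo (a = b)`.
-/

set_option autoImplicit false

namespace Pool.T4C72

open Pool.GEN Pool.PKG Pool.LA91 Pool.V0F
open Pool.ASM (ClV VdP PTwo Nm2)

/-- **(TIE)** The tie with some property, two contact coordinates, dimension four. -/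
def TieEx2Stmt (κ : ℕ → Kg) (Φ : (ℕ → ℝ) → Prop) : Prop :=
  ∀ h : ℝ, 0 < h → h ≤ 1 → ∃ (ι : Type) (_ : Countable ι) (Q : PropG 4 ι), HerQ Q ∧
    ((∀ k, 1 ≤ k → k < 4 → FZX k) → AePG 4 Q) ∧
    ∀ Sl : ℕ → ℝ, Φ Sl → TieHStmt 2 1 (fun i : Fin (1 + 1) => (i : ℕ)) h Sl κ Q

/-- The slopes one, one, s, s. -/
def SlEq2 (Sl : ℕ → ℝ) : Prop := Sl 0 = 1 ∧ Sl 1 = 1 ∧ 1 < Sl 3 ∧ Sl 2 = Sl 3

/-- **The class theorem** of the kinds one, one, any, thin, equal slopes of the last two places. -/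
theorem clV_tie2 {κ : ℕ → Kg} {Φ : (ℕ → ℝ) → Prop} (hT : TieEx2Stmt κ Φ) (hκ0 : κ 0 = .one)
    (hκ1 : κ 1 = .one) (hκ3 : κ 3 = .thin) (hΦ : ∀ Sl, Φ Sl → SlEq2 Sl) : ClV κ Φ := by
  intro h h0 h1
  obtain ⟨ι, hc, Q, hQ, hA, hT⟩ := hT h h0 h1
  refine ⟨_, inferInstance, sumQ FaQ (sumQ NlaQ (sumQ AttUQ (sumQ ChUQ Q))), fun hZ =>
    aePG_sum (aePG_fa _) (her_fa _) (aePG_sum (t_nla _) (her_nla _)
      (aePG_sum (aePG_attU _) (her_attU _) (aePG_sum (aePG_chU _) (her_chU _) (hA hZ)))),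
    fun Sl hS => ?_⟩
  obtain ⟨s0, s1, s3, s2⟩ := hΦ Sl hS
  refine v0t_voidH (k := 2) (f := 1) Pool.V0Q.v0cG_pair (Pool.T4E.endT 2 1 _) hQ (hT Sl hS)
    (by norm_num) (fun _ => le_rfl) ⟨0, rfl⟩ h0 h1 (fun l hl => ?_) (fun l hl => ?_)
    (fun l h2 h3 => ?_) (fun _ => hκ3) s3
  · obtain rfl | rfl : l = 0 ∨ l = 1 := by omega
    · exact s0
    · exact s1
  · obtain rfl | rfl : l = 0 ∨ l = 1 := by omega
    · exact hκ0
    · exact hκ1
  · obtain rfl | rfl : l = 2 ∨ l = 3 := by omega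
    · exact s2
    · rfl

/-- **The parts** `1, 1, s; s` **of** `PTwo (a = b)` from the tie. -/
theorem vdP_tie2 {k : Kg}
    (hT : TieEx2Stmt (kg4 .one .one k .thin) (Nm2 2 1 (fun a b => a = b) k)) :
    VdP (kg4 .one .one k .thin) (Nm2 2 1 (fun a b => a = b) k) :=
  (clV_tie2 hT rfl rfl rfl fun _ h => ⟨h.s0, h.sj, h.s3, h.rel⟩).p

/-- `PTwo (a = b)` from the ties at the place two and the parts at the place one. -/
theorem pTwo_tie2
    (tt : TieEx2Stmt (kg4 .one .one .thin .thin) (Nm2 2 1 (fun a b => a = b) .thin))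
    (ts : TieEx2Stmt (kg4 .one .one .sta .thin) (Nm2 2 1 (fun a b => a = b) .sta))
    (tp : TieEx2Stmt (kg4 .one .one .stp .thin) (Nm2 2 1 (fun a b => a = b) .stp))
    (t1 : VdP (kg4 .one .thin .one .thin) (Nm2 1 2 (fun a b => a = b) .thin))
    (s1 : VdP (kg4 .one .sta .one .thin) (Nm2 1 2 (fun a b => a = b) .sta)) :
    PTwo fun a b => a = b where
  t2 := vdP_tie2 tt
  s2 := vdP_tie2 ts
  p2 := vdP_tie2 tp
  t1 := t1
  s1 := s1

end Pool.T4C72
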