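import Pool.Agent.H72.T4C.Wnt
import Pool.Agent.H23.D2.Rcq

/-!
# Several targets of one slope over slope-one places: the record with the tie

`v0t_core`: no record with the tie in the window `t`.
-/

set_option autoImplicit false

namespace Pool.T4C72

open Finset Real MvPolynomial
open Pool.Agent.H49.Ent Pool.Agent.H32.Dense
open Pool.STK hiding pr2
open Pool.KA Pool.KSAT Pool.K2S Pool.PB Pool.S6C Pool.PKG
open Pool.GEN Pool.LA91 Pool.AVG71 Pool.AVG5 Pool.D2F2 Pool.AVG57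
open Pool.RCD Pool.AVG96 Pool.OWN68 Pool.V0F Pool.V0Q Pool.V0T
open Pool.AJW (CfB)
open Pool.D2R (BalD WinB winb_con)
open Pool.CHT (chsys TmH bet)
open Pool.ISO (lvN)
open Pool.LBT (ThrOf)
open Pool.LEV (Law)
open Pool.T4E (PivN)

/-- **No record with the tie** in the window `t`. -/
theorem v0t_core {k f n₀ n₁ : ℕ} {al : Fin (n₀ + 1) → ℕ} {pv : Fin (n₁ + 1) → ℕ}
    {D D' Dr Dr₀ C S₀ : ℕ} {h s m₀ δ₀ T Λ Λt z₀ φ₀ βm φL φc CB : ℝ} {κp ζp κm β ζ CBv : ℕ → ℝ}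
    (hend : EndTAt k f pv (k + f + 1) D D' C)
    (hV : V0cAt f n₀ al pv D D' k s h m₀ δ₀ T Λ z₀ φ₀ κp ζp)
    (hwin : ∀ v ≤ f, WinbAt (k + f + 1) (k + v) S₀ D Dr (CBv v))
    (hCB1 : 1 ≤ CB) (hCB : ∀ v ≤ f, CBv v ≤ CB) (hDr : D ≤ Dr) (hDr₀ : Dr₀ ≤ Dr)
    (hk : 1 ≤ k) (hpv : ∀ i, pv i ≤ f) (hlast : ∃ i, pv i = f) (hC10 : 10 ≤ C) (hs : 1 < s)
    (hΛ : 1 ≤ Λ) (hm₀ : 0 < m₀)
    (hz₀ : 0 < z₀) (hz₀1 : z₀ ≤ 1 / 32) (hCz : C * z₀ ≤ 1 / 32) (hβm : 0 < βm)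
    (hnum : ∀ l ≤ f, κm l ≤ κp l ∧ κm l ≤ (s - 1) / s / 2 ∧ 0 < κm l ∧ κm l ≤ 1 ∧ 0 < β l ∧
      32 * β l ≤ κm l ∧ 32 * β l ≤ s - 1 ∧ 0 < ζ l ∧ C * ζ l * (s + 1) = β l ∧ z₀ ≤ ζ l ∧
      C * (z₀ + ζp l + z₀) ≤ ζ l ∧ βm ≤ β l)
    (hζp : ∀ l ≤ f, 0 ≤ ζp l)
    (hφL : 0 < φL) (hφLφ : φL ≤ φ₀) (hφLz : 16 * φL ≤ z₀) (hφc : 0 < φc) (hφcL : φc ≤ φL)
    -- the record
    {S : PCl (k + f + 1)} {al' : ℝ} {g₀ : ℝ → ℝ}
    {P : List (Fin (k + f + 1)) × Fin (k + f + 1) → ℝ → ℝ → ℝ}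
    {θ : ℝ} {P₂ : ℕ → List (Fin (k + f + 1)) × Fin (k + f + 1) → ℝ → ℝ → ℝ} {θ₂ Eb e₂ : ℕ → ℝ}
    {c : ℕ → Fin (k + f + 1)} {Pt : ℝ → ℝ → ℝ} {rt : ℝ → ℝ} {K₀ g : ℝ} {L Tb : ℕ → ℝ → ℝ → ℝ}
    {Sl : ℕ → ℝ} {κ : ℕ → Kg} {G : Set ℝ} {N : ℕ} {A V : ℕ → ℝ} {S₂ N' : ℕ} {V' : ℕ → ℝ}
    {K ε q t : ℝ}
    (R : RecG S al' g₀ P θ P₂ θ₂ Eb e₂ c Pt rt h K₀ g L Tb Sl κ G S₀ N A V S₂ N' V' K ε q t)
    {M₀ cb co : ℕ} {sp : ℕ → ℝ → ℝ} {lam : ℝ → ℝ} (hM : 1 ≤ M₀) (hco : Λ + 1 ≤ co)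
    (hcbΛ : Λ ≤ cb) (hN' : N' = (cb + co) * M₀ + 1) (hV' : ∀ j < N', V' j = chV M₀ cb j)
    (hK : (cb : ℝ) + co + Λ + s + 10 ≤ K) (hΛt : Λt ≤ 3 * K)
    (hε : 0 < ε) (hεc : 4 * ε ≤ φc) (hεz : 2 * C * ε ≤ z₀) (hεβ : 16 * ε ≤ βm)
    (hMφ : 1 / M₀ ≤ φc)
    (hSl : ∀ l < k, Sl l = 1) (hSs : ∀ l, k ≤ l → l ≤ k + f → Sl l = s)
    (hκt : ∀ i, κ (k + pv i) = .thin) (hj₀ : ∃ j < N, A j = 1 ∧ V j = z₀ / 2)
    (hbox : BoxT S c k f D (fun l v => L l v v) sp {v | ∃ j < N', v = t + chV M₀ cb j * q} s h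
      (t - cb * q) (t + co * q) t q Λ (φL * q) φ₀ lam)
    (htie : TieW S c k f D D' al (fun l v => L l v v) {v | ∃ j < N', v = t + chV M₀ cb j * q} s
      (t - cb * q) t q Λt T δ₀ (φL * q) (φc * q) Dr₀) : False := by
  have hq0 := R.q0
  have ht0 := R.t0
  have ht1 := R.t1
  have hC1 : (10 : ℝ) ≤ C := by exact_mod_cast hC10
  have hC0 : (0 : ℝ) < C := by linarith
  have hs0 : 0 < s := by linarith
  have hM0 : (0 : ℝ) < M₀ := by exact_mod_cast hM
  have hcb0 : (0 : ℝ) ≤ cb := Nat.cast_nonneg _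
  have hco0 : (0 : ℝ) ≤ co := Nat.cast_nonneg _
  have hco1 : 1 ≤ co := by
    have : (1 : ℝ) ≤ co := by linarith
    exact_mod_cast this
  have hK1 : 1 ≤ K := by linarith
  have hKq : cb * q + co * q + Λ * q + s * q + 10 * q ≤ K * q := by
    have := mul_le_mul_of_nonneg_right hK hq0.le
    linarith
  have hcbq : 0 ≤ cb * q := by positivity
  have hcoq : 0 ≤ co * q := by positivity
  have hΛq : q ≤ Λ * q := le_mul_of_one_le_left hq0.le hΛ
  have hsq : q < s * q := by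
    have := mul_lt_mul_of_pos_right hs hq0
    linarith
  have hΛcb : Λ * q ≤ cb * q := mul_le_mul_of_nonneg_right hcbΛ hq0.le
  have hεq : 0 < ε * q := by positivity
  have hφcq : 0 < φc * q := by positivity
  have hφLq : 0 < φL * q := by positivity
  have hqM : q / M₀ ≤ φc * q := by
    have h1 := mul_le_mul_of_nonneg_right hMφ hq0.le
    have h2 : 1 / (M₀ : ℝ) * q = q / M₀ := by ring
    linarith
  have hφcLq : φc * q ≤ φL * q := mul_le_mul_of_nonneg_right hφcL hq0.le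
  have hφLzq : 16 * (φL * q) ≤ z₀ * q := by
    have := mul_le_mul_of_nonneg_right hφLz hq0.le
    linarith
  have hz₀q : 0 < z₀ * q := by positivity
  have hz₀q1 : z₀ * q ≤ 1 / 32 * q := mul_le_mul_of_nonneg_right hz₀1 hq0.le
  have hCzq : C * (z₀ * q) ≤ 1 / 32 * q := by
    have := mul_le_mul_of_nonneg_right hCz hq0.le
    linarith
  -- the windows
  obtain ⟨nb, hnb⟩ : ∃ nb : ℕ, nb = cb * M₀ := ⟨_, rfl⟩
  obtain ⟨ow, how⟩ : ∃ ow : ℕ → ℝ, ow = fun k => t + chV M₀ cb k * q := ⟨_, rfl⟩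
  have hok : ∀ k, ow k = t + chV M₀ cb k * q := fun k => by rw [how]
  have how0 : ow 0 = t - cb * q := by rw [hok, chV_zero]; ring
  have hownb : ow nb = t := by rw [hok, hnb, chV_mid hM]; ring
  have hownn : ow (nb + M₀) = t + q := by
    rw [hok, hnb, chV_nb hM, div_self hM0.ne']
    ring
  have hNN : nb + M₀ < N' := by
    rw [hN', hnb, add_mul]
    have h2 : M₀ ≤ co * M₀ := Nat.le_mul_of_pos_left _ (by omega)
    omega
  have hVK : ∀ k' < N', |chV M₀ cb k'| ≤ K := fun k' hk' =>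
    (chV_abs (M₀ := M₀) (cb := cb) (co := co) (k := k') hM (by omega)).trans (by linarith)
  have hin : ∀ y : ℝ, t - cb * q ≤ y → y ≤ t + co * q → |y - t| ≤ K * q := fun y h1 h2 => by
    rw [abs_le]
    constructor <;> linarith
  have hroom : ∀ v ≤ f, ∀ y : ℝ, t - cb * q ≤ y → y ≤ t + co * q → ∀ l ≤ k + v,
      L l y y + Eb (k + v) + 3 * K * q < 1 := fun v hv y h1 h2 l hl =>
    (R.tg (k + v) (by omega) (by omega)).room l hl y (hin y h1 h2)
  have h3K : 3 * q ≤ 3 * K * q := by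
    have := mul_le_mul_of_nonneg_right hK1 hq0.le
    linarith
  have h3KC : (C : ℝ) * (z₀ * q) ≤ 3 * K * q := by linarith
  have h3KΛ : Λ ≤ 3 * K := by linarith
  have hlow : ∀ y : ℝ, t - cb * q ≤ y → y ≤ t + co * q → ∀ l ≤ k + f, y ≤ L l y y :=
    fun y h1 h2 l hl => rec_low R hl (by linarith) (by linarith)
  have hEb0 : ∀ v ≤ f, 0 < Eb (k + v) := fun v hv => (R.tg (k + v) (by omega) (by omega)).Eb0
  have htco : t ≤ t + co * q := by linarith
  have htcb : t - cb * q ≤ t := by linarith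
  have hqco : q ≤ co * q := le_mul_of_one_le_left hq0.le (by linarith)
  -- the error of the balls
  obtain ⟨ηm, hηm⟩ : ∃ ηm : ℝ, ηm = min (z₀ / (C * CB)) (φc / CB) * q := ⟨_, rfl⟩
  have hCB0 : 0 < CB := by linarith
  have hηm0 : 0 < ηm := by
    rw [hηm]
    exact mul_pos (lt_min (by positivity) (by positivity)) hq0
  have hηm1 : C * (CB * ηm) ≤ z₀ * q := by
    have h1 : ηm ≤ z₀ / (C * CB) * q := by
      rw [hηm]
      exact mul_le_mul_of_nonneg_right (min_le_left _ _) hq0.le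
    calc C * (CB * ηm) ≤ C * (CB * (z₀ / (C * CB) * q)) :=
          mul_le_mul_of_nonneg_left (mul_le_mul_of_nonneg_left h1 hCB0.le) hC0.le
      _ = z₀ * q := by field_simp
  have hηm2 : CB * ηm ≤ φc * q := by
    have h1 : ηm ≤ φc / CB * q := by
      rw [hηm]
      exact mul_le_mul_of_nonneg_right (min_le_right _ _) hq0.le
    calc CB * ηm ≤ CB * (φc / CB * q) := mul_le_mul_of_nonneg_left h1 hCB0.le
      _ = φc * q := by field_simp
  obtain ⟨r₀, hr₀e⟩ : ∃ r₀ : ℝ, r₀ = min (q / (2 * M₀)) (z₀ / 2 * q / 2) := ⟨_, rfl⟩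
  have hr₀ : 0 < r₀ := by
    rw [hr₀e]
    exact lt_min (by positivity) (by positivity)
  obtain ⟨lv, hlv⟩ : ∃ lv : ℕ → ℕ → ℝ, lv = fun t' l => L l (ow t') (ow t') := ⟨_, rfl⟩
  have hlve : ∀ t' l, lv t' l = L l (ow t') (ow t') := fun t' l => by rw [hlv]
  -- the families of balls
  have hfam : ∀ v, ∃ (K₁ : ℝ) (b : ℕ → ℕ → ℝ), v ≤ f → 0 < K₁ ∧ ∀ κ' : ℝ, 0 < κ' →
      Bas S (fun J F A => ∀ z : ℕ → ℕ → ℕ, (∀ t' ≤ nb + M₀, ∀ j ≤ 2, r₀ * J ≤ z t' j ∧
        z t' j ≤ ⌊(t + 3 * q) * J⌋₊ - ⌊ow t' * J⌋₊) →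
      ∃ (B : F.Ω → Prop) (g₀ : ℕ → ℕ → ℕ)
        (Gc : ℕ → PtT F → ℕ → MvPolynomial (Option (Fin (k + f + 1))) ℝ)
        (H : ℕ → LnT F → ℕ → MvPolynomial (Option (Fin (k + f + 1))) ℝ), Sub B A ∧
        Pe F.p A ≤ K₁ * Pe F.p B ∧
        WinB F c (k + v) D Dr (nb + M₀) 2 CB (t + 3 * q) (Eb (k + v)) ηm ow (fun _ => ηm)
          (fun _ => ηm) lv b κ' z B g₀ Gc H) := by
    intro v
    by_cases hv : v ≤ f
    · obtain ⟨K₁, b, hK₁, hb⟩ := hwin v hv (S := S) (P := P) (θ := θ) (c := c) (Pt := L (k + v))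
        (a := t + 3 * q) (Eb := Eb (k + v)) (ηm := ηm) (o := ow) (η := fun _ => ηm)
        (σ := fun _ => ηm) (r₀ := fun _ => r₀) (nb + M₀) 2 R.thr R.th0 R.tmh
        (R.inj.mono fun y hy => by
          rw [Set.mem_Iio] at hy ⊢
          omega) (R.lawL (k + v) (by omega)) (hEb0 v hv).le (fun k' hk' => by
          rw [hok, ← hV' k' (by omega)]
          have h1 := abs_le.1 (hVK k' (by omega))
          have h2 : chV M₀ cb k' ≤ 1 := by
            have h3 := chV_mono (M₀ := M₀) (cb := cb) hk'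
            rwa [hnb, chV_nb hM, div_self hM0.ne'] at h3
          rw [← hV' k' (by omega)] at h1 h2
          refine rec_balT R (by omega) (by omega) (by omega) (by linarith) (by linarith [h1.1]) ?_
          rw [hV' k' (by omega)]
          exact hVK k' (by omega))
        (fun k' _ => ⟨hηm0, hηm0, le_rfl, hr₀, le_rfl⟩)
      refine ⟨K₁, b, fun _ => ⟨hK₁, fun κ' hκ' => ?_⟩⟩
      refine Bas.mono 0 (hb κ' hκ') ?_
      intro J _ F A' hA z hz
      obtain ⟨B, g₁, Gc, H, b1, b2, b3⟩ := hA z hz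
      refine ⟨B, g₁, Gc, H, b1, b2, ?_⟩
      refine winb_c (WinB.lvc b3 fun k' _ l hl => ?_) hηm0.le (hCB v hv)
      rw [hlve, ← R.lv_at (i := k + v) (by omega) hl]
    · exact ⟨0, fun _ _ => 0, fun h => absurd h hv⟩
  choose K₁ bb hfam using hfam
  obtain ⟨Kw, hKw, hKw'⟩ := nat_bd K₁ f
  -- the class theorem and the tie
  have hwn : ∀ (Λ' φ' : ℝ), Λ' ≤ 3 * K → φc * q ≤ φ' → WnT k f (fun l v => L l v v)
      {v | ∃ j < N', v = t + chV M₀ cb j * q} s (t - cb * q) t q Λ' φ' (nb + M₀) CB (Eb (k + f)) ηm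
      ow lv (fun t' => t') (fun t' => nb + t') nb M₀ ⌊(M₀ : ℝ) / s⌋₊ := by
    intro Λ' φ' h1 h2
    rw [hlv]
    refine wnt_of hM hco1 hN' hnb hok hq0 hs (hqM.trans h2) (hηm2.trans h2) fun l hl => ?_
    have h3 := mul_le_mul_of_nonneg_right h1 hq0.le
    have := hroom f le_rfl t htcb htco l hl
    linarith
  have hT := htie (Dr := Dr) (M' := 2) (a := t + 3 * q) (η := fun _ => ηm) (σ := fun _ => ηm)
    (bb := bb f) hDr₀ (hwn Λt (φc * q) hΛt le_rfl)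
  have hW := hwn Λ (φL * q) h3KΛ hφcLq
  have hVb := hV hbox.lad hbox.img hbox.u0 hbox.wG (mul_le_mul_of_nonneg_right hφLφ hq0.le) hbox.bw
    hbox.wo hbox.o1 hbox.b0 hbox.room hbox.lin hbox.lamt hbox.row hbox.att hbox.spb
    (fun Pq w₁ x' a1 _ a2 a3 a4 a5 a6 => hbox.free Pq w₁ x' a1 a2 a3 a4 a5 a6) hbox.nla
    (fun w₁ _ _ => hbox.rn w₁) (Dr := Dr) (M := 2) (a := t + 3 * q) (η := fun _ => ηm)
    (σ := fun _ => ηm) (bb := bb f) hW.n1 hW.kn hW.fbN hW.fnN hW.eq hW.ob hW.ow0 hW.okn hW.oks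
    hW.on hW.bG hW.nG hW.bs hW.ns hW.lv hW.C0 hW.Eb 1
  obtain ⟨cT, κT, hcT, hκT, hcls⟩ := cls_out (ι := z₀ * q) (x := (s - 1) / s / 2 * q) (m₀ := m₀)
    (κv := fun v => κm v * q) (ζv := fun v => ζp v * q) (pv := pv) R.pos hT (by
    refine Bas.mono 0 hVb ?_
    intro J _ F A hA κ' z g₁ Gc H GN HN a1 a2 a3 a4 a5 a6
    obtain ⟨e1, e2, v, W, A', la, laP, mu, e3, e4, e5, e6, e7, e8, e9, e10, e11⟩ :=
      hA a1 a2.1 a2.2.1 a2.2.2 a3 a4 a5 a6
    refine ⟨e1, e2, v, W, A', la, laP, mu, e3, e4, e5, e6, e7, e8, e9, e10, fun ω hω =>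
      ⟨(e11 ω hω).1, fun i hi => ((e11 ω hω).2 i hi).trans ?_⟩⟩
    refine Real.rpow_le_rpow_of_exponent_le one_le_two (neg_le_neg ?_)
    exact mul_le_mul_of_nonneg_right (mul_le_mul_of_nonneg_right (hnum v e3).1 hq0.le)
      (Nat.cast_nonneg J))
  -- the last windows
  have hrat : ∀ v, ∃ d : ℝ, v ≤ f → 0 < d ∧ ∀ a' w' : ℝ, t + q ≤ a' → a' ≤ t + q + d →
      t + z₀ / 2 * q ≤ w' → w' ≤ t + z₀ / 2 * q + d → w' ≤ a' →
      bet (P₂ (k + v)) c (k + v) a' w' ≤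
        L (k + v) (t + q) (t + z₀ / 2 * q) + β v / 8 * q := by
    intro v
    by_cases hv : v ≤ f
    · obtain ⟨j, hj, hj1, hj2⟩ := hj₀
      have hβ := (hnum v hv).2.2.2.2.1
      obtain ⟨d, hd, h1⟩ := (R.tg (k + v) (by omega) (by omega)).rat j hj (β v / 8 * q)
        (by positivity)
      rw [hj1, hj2, one_mul] at h1
      exact ⟨d, fun _ => ⟨hd, fun a' w' k1 k2 k3 k4 k5 => (h1 a' w' k1 k2 k3 k4 k5).1⟩⟩
    · exact ⟨0, fun h => absurd h hv⟩
  choose d hd using hrat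
  obtain ⟨dm, hdm, hdm'⟩ := nat_pos f fun v hv => (hd v hv).1
  obtain ⟨a, ha1, ha2⟩ : ∃ a : ℚ, t + q < a ∧ (a : ℝ) < t + q + min dm (βm * q) :=
    exists_rat_btwn (by
      have : 0 < min dm (βm * q) := lt_min hdm (by positivity)
      linarith)
  obtain ⟨w, hw1, hw2⟩ : ∃ w : ℚ, t + z₀ / 2 * q < w ∧
      (w : ℝ) < t + z₀ / 2 * q + min dm (z₀ * q / 4) := exists_rat_btwn (by
      have : 0 < min dm (z₀ * q / 4) := lt_min hdm (by positivity)
      linarith)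
  have ha3 := min_le_left dm (βm * q)
  have ha4 := min_le_right dm (βm * q)
  have hw3 := min_le_left dm (z₀ * q / 4)
  have hw4 := min_le_right dm (z₀ * q / 4)
  have hz₀2 : z₀ / 2 * q = z₀ * q / 2 := by ring
  have hβm1 : βm * q ≤ 1 / 32 * q := by
    have h1 := (hnum f le_rfl).2.2.2.2.2.2.2.2.2.2.2
    have h2 := (hnum f le_rfl).2.2.2.2.2.1
    have h3 := (hnum f le_rfl).2.2.2.1
    exact mul_le_mul_of_nonneg_right (by linarith) hq0.le
  have hwa : (w : ℝ) ≤ a := by linarith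
  have ha5 : (a : ℝ) ≤ t + 3 / 2 * q := by linarith
  -- the numbers of the pivots
  have hpivn : ∀ i, PivN (P₂ (k + pv i)) (θ₂ (k + pv i)) c k (pv i) C (Eb (k + pv i)) ow lv nb
      (nb + M₀) w a (z₀ / 2 * q) (κm (pv i) * q) (β (pv i) * q) (2 * (β (pv i) * q))
      (e₂ (k + pv i)) (ζ (pv i) * q) := by
    intro i
    obtain ⟨v, hve⟩ : ∃ v, v = pv i := ⟨_, rfl⟩
    have hv : v ≤ f := by rw [hve]; exact hpv i
    have hkd := R.kd (k + v) (by omega)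
    rw [hve, hκt i, ← hve] at hkd
    rw [← hve]
    obtain ⟨b1, b2, b3, b4, b5, b6, b7, b8, b9, b10, b11, b12⟩ := hnum v hv
    obtain ⟨hd0, hd1⟩ := hd v hv
    have hd2 := hdm' v hv
    have W := R.tg (k + v) (by omega) (by omega)
    have hSv := hSs (k + v) (by omega) (by omega)
    have hbr := hd1 a w ha1.le (by linarith) hw1.le (by linarith) hwa
    rw [hSv] at hkd
    obtain ⟨-, hthin⟩ := hkd
    have hth := hthin (t + q) (t + z₀ / 2 * q) (by linarith) (by linarith) (by linarith)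
    have hdT := abs_le.1 (R.dT (k + v) (by omega) (t + z₀ / 2 * q) (by
      rw [add_sub_cancel_left, abs_of_pos (by positivity)]
      linarith))
    have hdL1 := abs_le.1 (R.dL (k + v) (by omega) (t + q) (by
      rw [add_sub_cancel_left, abs_of_pos hq0]
      linarith))
    rw [hSv] at hdT hdL1
    have hEbe := W.Ebe
    have hrt := hroom v hv t htcb htco
    have hβmv : βm * q ≤ β v * q := mul_le_mul_of_nonneg_right b12 hq0.le
    obtain ⟨n2, n3, n4, n5, n6, n7, n8, n9, n10, n11, n12⟩ := pv_num (C := C) (q := q) (t := t)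
      (β := β v) (ζ := ζ v) (z₀ := z₀) (s := s) (κm := κm v) (ε := ε) (L0 := L (k + v) t t)
      (LN := L (k + v) (t + q) (t + q)) (bt := bet (P₂ (k + v)) c (k + v) a w) (Eb := Eb (k + v))
      (e := e₂ (k + v)) (a := a) (w := w) hq0 (by linarith) b5 b6 b7 b4 hz₀ b10 b9 hε.le
      (by linarith) (by
        have h1 : (s - 1) * (z₀ / 2 * q) = s * (t + z₀ / 2 * q - t) - z₀ / 2 * q := by ring
        rw [h1]
        linarith [hdT.2]) (by
        have h1 : s * (t + q - t) = s * q := by ring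
        rw [h1] at hdL1
        linarith [hdL1.1]) ha1.le (by linarith) hw1.le (by linarith) (by
        have := hrt (k + v) le_rfl
        linarith) (hEb0 v hv) (by linarith)
    refine ⟨by exact_mod_cast hwa, ?_, ?_, by positivity, by positivity, by positivity,
      by positivity, n4, n5, ?_, ?_, ?_, n9, fun l hl => ?_, fun l hl => ?_, fun j _ => Or.inr ?_⟩
    · have h1 : (a : ℝ) ≤ 1 := by linarith
      exact_mod_cast h1
    · exact W.eθ w (by
        rw [abs_le]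
        constructor <;> linarith)
    · rw [hlve, hownb]
      exact n6
    · rw [hlve, hownn]
      exact n7
    · rw [hlve, hownb]
      exact n8
    · rw [hlve, hownb]
      refine n10 _ ?_
      have := hrt l hl
      linarith
    · rw [hlve, hownb]
      refine n11 _ ?_
      have := hrt l hl
      linarith
    · rw [hlve, hownb]
      exact n12
  -- the end
  obtain ⟨J₁, hJ₁⟩ := radii_ok (M₀ := M₀) (cb := cb) (t := t) (q := q) (a := a)
    (q₁ := z₀ / 2 * q) (φ := φL * q) (ζ := z₀ * q) hM hq0 (by linarith) ha1.le ha5 (by positivity)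
    (by linarith) (by linarith) hz₀q.le
  simp only [← hok, ← hnb, ← hr₀e] at hJ₁
  have hx0 : 0 < (s - 1) / s / 2 * q := by
    have : 0 < s - 1 := by linarith
    positivity
  have hdLt : ∀ l ≤ k + f, |L l (t + q) (t + q) - L l t t - Sl l * q| ≤ ε * q := fun l hl => by
    have h1 := R.dL l (by omega) (t + q) (by
      rw [add_sub_cancel_left, abs_of_pos hq0]
      linarith)
    rwa [add_sub_cancel_left] at h1
  have hεz₀ : C * (ε * q) ≤ z₀ * q / 2 := by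
    have := mul_le_mul_of_nonneg_right hεz hq0.le
    linarith
  have hεz₁ : 20 * (ε * q) ≤ z₀ * q := by
    have h1 : 10 * (ε * q) ≤ C * (ε * q) := mul_le_mul_of_nonneg_right hC1 hεq.le
    linarith
  refine hend (S := S) (P := fun v => P₂ (k + v)) (θ := fun v => θ₂ (k + v)) (Eb := Eb)
    (e := fun v => e₂ (k + v)) (s₁ := fun v => κm v * q) (h := fun v => β v * q)
    (h₂ := fun v => 2 * (β v * q)) (ζ := fun v => ζ v * q) (zt := fun v => ζp v * q) (c := c)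
    (C₀ := CB) (a' := t + 3 * q) (ηm := ηm) (ζ₀ := z₀ * q) (ι := z₀ * q)
    (x := (s - 1) / s / 2 * q) (φ := φL * q) (u := q) (K₁ := Kw) (cT := cT) (κT := κT)
    (m₀ := m₀) (o := ow) (η := fun _ => ηm) (σ := fun _ => ηm) (r₀ := fun _ => r₀)
    (sn := fun l v => L l v v) (lv := lv) (bb := bb) (Dr := Dr) (N := nb + M₀) (nb := nb)
    (n := M₀) (w := w) (a := a) (q₁ := z₀ / 2 * q) (fun J => zzV M₀ cb t q a (z₀ / 2 * q) J) R.ne
    R.tmc R.pos R.tmh R.inj hDr le_rfl (fun t' _ => ?_) hz₀q hηm1 (fun t' ht' l hl => ?_)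
    (fun t' ht' => ?_) ?_ ?_ ?_ ?_ ?_ ?_ ?_ ?_ ?_ ?_ hz₀q hx0 (by linarith) hcT hκT hm₀
    (by positivity) hpv hlast (fun i => ?_) ⟨J₁, fun J hJ => ?_⟩ (fun i κ' hκ' => ?_) ?_
  · simp only [hok]
    exact (chw_step hM hq0 hqM t').1
  · rw [hlve, hlve, hownb]
    have h1 := abs_le.1 (chV_abs (M₀ := M₀) (cb := cb) (co := co) (k := t') hM (by omega))
    have h2 := rec_oneT R (l := l) (by omega) (hSl l hl) (x := ow t') (by
      rw [hok, add_sub_cancel_left, abs_mul, abs_of_pos hq0]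
      exact mul_le_mul_of_nonneg_right (hVK t' (by omega)) hq0.le)
    exact (mul_le_mul_of_nonneg_left h2 hC0.le).trans (by linarith)
  · rcases ht' with rfl | rfl
    · refine ⟨by rw [hownb]; linarith, fun l hl => ?_, fun i l hl => ?_⟩
      · rw [hlve, hownb]
        have h1 := hlow t htcb htco l hl
        linarith
      · rw [hlve, hownb]
        have h2 := hroom (pv i) (hpv i) t htcb htco l hl
        linarith
    · refine ⟨by rw [hownn]; linarith, fun l hl => ?_, fun i l hl => ?_⟩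
      · rw [hlve, hownn]
        have h1 := hlow (t + q) (by linarith) (by linarith) l hl
        linarith
      · rw [hlve, hownn]
        have h2 := hroom (pv i) (hpv i) (t + q) (by linarith) (by linarith) l hl
        linarith
  · rw [how0]; linarith
  · rw [how0]; linarith
  · rw [hownb]; linarith
  · rw [hownb]; linarith
  · rw [hownb]; linarith
  · rw [hownb]; linarith
  · have h1 : (0 : ℝ) ≤ w := by linarith
    exact_mod_cast h1
  · have h1 : (w : ℝ) < 1 := by linarith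
    exact_mod_cast h1
  · rw [hownb]; linarith
  · linarith
  · obtain ⟨b1, b2, b3, b4, b5, b6, b7, b8, b9, b10, b11, b12⟩ := hnum (pv i) (hpv i)
    refine ⟨(R.tg (k + pv i) (by have := hpv i; omega) (by have := hpv i; omega)).thr₂,
      mul_nonneg (hζp _ (hpv i)) hq0.le, ?_, mul_le_mul_of_nonneg_right b2 hq0.le, hpivn i,
      fun l hl => ?_⟩
    · have h1 := mul_le_mul_of_nonneg_right b11 hq0.le
      have h2 : C * (z₀ + ζp (pv i) + z₀) * q = C * (z₀ * q + ζp (pv i) * q + z₀ * q) := by ring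
      linarith
    · rw [hlve, hlve, hlve, hlve, hownb, hownn]
      have hpi := hpv i
      have h1 := abs_le.1 (hdLt (k + pv i) (by omega))
      have h2 := abs_le.1 (hdLt (k + l) (by omega))
      rw [hSs (k + pv i) (by omega) (by omega)] at h1
      rw [hSs (k + l) (by omega) (by omega)] at h2
      linarith [h1.1, h1.2, h2.1, h2.2]
  · obtain ⟨z1, z2, z3, z4, z5, z6, z7⟩ := hJ₁ J hJ
    refine ⟨z1, fun k' _ => z2 k', z3 nb, z4 nb, ?_, ?_⟩
    · rw [hownb]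
      exact z5 nb
    · rw [hownb]
      exact z6 nb
  · refine Bas.mono 0 ((hfam (pv i) (hpv i)).2 κ' hκ') ?_
    intro J _ F A hA z hz
    obtain ⟨B, g₁, Gc, H, b1, b2, b3⟩ := hA z hz
    exact ⟨B, g₁, Gc, H, b1, b2.trans (mul_le_mul_of_nonneg_right (hKw' _ (hpv i))
      (Pe_nonneg F.isLaw B)), b3⟩
  · refine Bas.mono J₁ hcls ?_
    rintro J hJ F A h1 κ' g₁ Gc H hκ hW' hc1
    obtain ⟨z1, z2, z3, z4, z5, z6, z7⟩ := hJ₁ J hJ
    have hJ0 : (0 : ℝ) ≤ J := Nat.cast_nonneg J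
    rw [how0] at hc1
    rw [hownb]
    exact h1 hκ hW' ⟨fun t' _ => ⟨0, by omega, z2 t'⟩, fun t' _ => ⟨0, by omega, z2 (nb + t')⟩,
      1, by omega, 2, le_rfl, (z3 0).trans (mul_le_mul_of_nonneg_right (by linarith) hJ0),
      z7 0⟩ hc1

end Pool.T4C72
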