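import Pool.Agent.H72.T4C.S
import Pool.Agent.H17.T4.Piv

/-!
# Several targets of one slope over slope-one places: the end, statement

`OutT`: the conclusion of the class theorem `V0cTStmt` on one event. `EndTStmt`: the conclusion on
parts of all large events is absurd, when the numbers of every alive pivot are good (`PivN`) and the
class has ball windows for every alive pivot.
-/

set_option autoImplicit false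

namespace Pool.T4C72

open Finset Real MvPolynomial
open Pool.Agent.H49.Ent Pool.Agent.H32.Dense
open Pool.STK hiding pr2
open Pool.KA Pool.KSAT Pool.K2S Pool.PB Pool.S6C
open Pool.GEN Pool.CHT Pool.CHX Pool.ISO Pool.LA91 Pool.AVG71 Pool.AVG5 Pool.D2F2 Pool.AVG57
open Pool.RCD Pool.AVG96 Pool.OWN68 Pool.V0F Pool.V0Q Pool.V0T
open Pool.AJW (CfB)
open Pool.D2R (WinB gnh hgt hyb)
open Pool.PB.Trl (rt)
open Pool.LBT (ThrOf)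
open Pool.T4E (PivN)

/-- **The conclusion of the class theorem** on one event: gradients of all targets at most
`2 ^ (ι J)`, equal up to `2 ^ (- x J)` at two samples of one point, and on a part of mass `m₀` a closed
combination of the gradients of the targets with the pivot `k + pv i`, of coefficients at
most `2 ^ (ζv v J)` and of error `2 ^ (- κv v J)`, `v = pv i`. -/
def OutT {m J : ℕ} (F : Fam m J) (c : ℕ → Fin m) (k f D' : ℕ) {n₁ : ℕ} (pv : Fin (n₁ + 1) → ℕ)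
    (w φ ι x m₀ : ℝ) (κv ζv : ℕ → ℝ) (kb kn : ℕ) (g : ℕ → ℕ) (A : F.Ω → Prop)
    (G : ℕ → PtT F → ℕ → MvPolynomial (Option (Fin m)) ℝ)
    (GN : PtT F → ℕ → MvPolynomial (Option (Fin m)) ℝ) : Prop :=
  (∀ ω, A ω → ∀ l, k ≤ l → l ≤ k + f → ∀ i < l,
    |ggT F c k G GN kb kn g l ω i| ≤ 2 ^ (ι * J)) ∧
  (∀ ω ν, A ω → A ν → ptr F J ω = ptr F J ν → ∀ l, k ≤ l → l ≤ k + f → ∀ i < k,
    |ggT F c k G GN kb kn g l ω i - ggT F c k G GN kb kn g l ν i| ≤ 2 ^ (-(x * J))) ∧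
  ∃ (v W : ℕ) (A' : F.Ω → Prop) (la : LnT F → ℕ → ℝ) (laP : PtT F → ℕ → ℝ)
    (mu : LnT F → ℕ → Polynomial ℝ), v ≤ f ∧ v ∈ Set.range pv ∧
    ⌊w * J⌋₊ ≤ W ∧ (W : ℝ) ≤ (w + 2 * φ) * J ∧ Sub A' A ∧ m₀ * Pe F.p A ≤ Pe F.p A' ∧
    (∀ s' l, |la s' l| ≤ 2 ^ (ζv v * J)) ∧
    (∀ s' i, (mu s' i).natDegree ≤ D' + 1) ∧
    ∀ ω, A' ω → (∀ l < v, la (slam F W ω) l = laP (ptr F J ω) l) ∧ ∀ i < k,
      |ggT F c k G GN kb kn g (k + v) ω i +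
        ∑ l ∈ range v, la (slam F W ω) l * ggT F c k G GN kb kn g (k + l) ω i -
        (mu (slam F W ω) i).eval (rt F W ω)| ≤ 2 ^ (-(κv v * J))

/-- **The end** for several targets over slope-one places, with the constant `C`. `Eb l`: the exponent
of the balls for the places up to `l`; the pivot `k + pv i` has the thresholds `P (pv i)`,
`θ (pv i)`. -/
def EndTAt (k f : ℕ) {n₁ : ℕ} (pv : Fin (n₁ + 1) → ℕ) (m D D' C : ℕ) : Prop := ∀ {S : PCl m}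
    {P : ℕ → List (Fin m) × Fin m → ℝ → ℝ → ℝ} {θ Eb e s₁ h h₂ ζ zt : ℕ → ℝ} {c : ℕ → Fin m}
    {C₀ a' ηm ζ₀ ι x φ u K₁ cT κT m₀ : ℝ} {o η σ r₀ : ℕ → ℝ} {sn : ℕ → ℝ → ℝ} {lv : ℕ → ℕ → ℝ}
    {bb : ℕ → ℕ → ℕ → ℝ} {Dr N nb n : ℕ} {w a : ℚ} {q₁ : ℝ} (zz : ℕ → ℕ → ℕ → ℕ),
    S.Ne → TmC S 6 →
    (∀ (τ : ℝ) (J : ℕ) (F : Fam m J) (A : F.Ω → Prop), S.St τ J F A → 0 < Pe F.p A) →
    TmH S → Set.InjOn c (Set.Iio (k + f + 1)) → D ≤ Dr → nb + n ≤ N →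
    (∀ t < nb, o t ≤ o (t + 1)) → 0 < ζ₀ → C * (C₀ * ηm) ≤ ζ₀ →
    (∀ t ≤ nb, ∀ l < k, C * |lv t l - o t - (lv nb l - o nb)| ≤ ζ₀) →
    -- the room
    (∀ t, t = nb ∨ t = nb + n → o t + C * ζ₀ ≤ 1 ∧ (∀ l ≤ k + f, C * ζ₀ ≤ lv t l) ∧
      ∀ i, ∀ l ≤ k + pv i, Eb (k + pv i) + lv t l + C * ζ₀ ≤ 1) →
    0 ≤ o 0 → o 0 < 1 → 0 ≤ o nb → o nb < 1 →
    o nb ≤ w → w ≤ o nb + ζ₀ → 0 ≤ w → w < 1 → o nb + 2 * φ ≤ w → φ ≤ ζ₀ →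
    0 < ι → 0 < x → 0 < K₁ → 0 < cT → 0 < κT → 0 < m₀ → 0 ≤ q₁ →
    -- the pivots
    (∀ i, pv i ≤ f) → (∃ i, pv i = f) →
    (∀ i, ThrOf (chsys m (θ (pv i))) S (P (pv i)) ∧ 0 ≤ zt (pv i) ∧
      C * (ι + zt (pv i) + ζ₀) ≤ ζ (pv i) ∧ s₁ (pv i) ≤ x ∧
      PivN (P (pv i)) (θ (pv i)) c k (pv i) C (Eb (k + pv i)) o lv nb (nb + n) w a q₁
        (s₁ (pv i)) (h (pv i)) (h₂ (pv i)) (e (pv i)) (ζ (pv i)) ∧
      ∀ l ≤ pv i, lv (nb + n) (k + pv i) - lv nb (k + pv i) ≤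
        lv (nb + n) (k + l) - lv nb (k + l) + ζ₀) →
    -- the radii
    (∃ J₁ : ℕ, ∀ J ≥ J₁, (∀ t ≤ N, ∀ j ≤ 2, r₀ t * J ≤ zz J t j ∧
        zz J t j ≤ ⌊a' * J⌋₊ - ⌊o t * J⌋₊) ∧
      (∀ t < nb + n, zz J t 0 = ⌊o (t + 1) * J⌋₊ - ⌊o t * J⌋₊) ∧ (zz J nb 1 : ℝ) ≤ q₁ * J ∧
      2 * φ * J + 1 ≤ zz J nb 1 ∧ ⌊o nb * J⌋₊ + zz J nb 2 ≤ ⌊(a : ℝ) * J⌋₊ ∧
      (a : ℝ) * J ≤ ⌊o nb * J⌋₊ + zz J nb 2 + ζ₀ * J + 2) →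
    -- the windows
    (∀ i, ∀ κ : ℝ, 0 < κ → Bas S (fun J F A => ∀ z : ℕ → ℕ → ℕ,
      (∀ t ≤ N, ∀ j ≤ 2, r₀ t * J ≤ z t j ∧ z t j ≤ ⌊a' * J⌋₊ - ⌊o t * J⌋₊) →
      ∃ (B : F.Ω → Prop) (g₀ : ℕ → ℕ → ℕ) (G : ℕ → PtT F → ℕ → MvPolynomial (Option (Fin m)) ℝ)
        (H : ℕ → LnT F → ℕ → MvPolynomial (Option (Fin m)) ℝ), Sub B A ∧
        Pe F.p A ≤ K₁ * Pe F.p B ∧
        WinB F c (k + pv i) D Dr N 2 C₀ a' (Eb (k + pv i)) ηm o η σ lv (bb (pv i)) κ z B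
          g₀ G H)) →
    -- the class theorem
    Bas S (fun J F A => ∀ {κ : ℝ} {g₀ : ℕ → ℕ → ℕ}
      {Gc : ℕ → PtT F → ℕ → MvPolynomial (Option (Fin m)) ℝ}
      {H : ℕ → LnT F → ℕ → MvPolynomial (Option (Fin m)) ℝ}, κ ≤ κT →
      WinB F c (k + f) D Dr N 2 C₀ a' (Eb (k + f)) ηm o η σ lv (bb f) κ (zz J) A g₀ Gc H →
      (∀ l < k, CfB F ⌊o 0 * J⌋₊ 1 (c l) A (fun s => s) (fun s => H 0 s l)) →
      ∃ (B : F.Ω → Prop) (GN : PtT F → ℕ → MvPolynomial (Option (Fin m)) ℝ)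
        (HN : LnT F → ℕ → MvPolynomial (Option (Fin m)) ℝ), Sub B A ∧ cT * Pe F.p A ≤ Pe F.p B ∧
        LbT F c k f D' (o nb) u φ 1 sn B (g₀ nb) (Gc nb) GN HN ∧
        OutT F c k f D' pv (o nb) φ ι x m₀ s₁ zt 0 (nb + n) (g₀ nb) B Gc GN) →
    False

/-- **(ENDT)** The end for several targets over slope-one places. -/
def EndTStmt (k f : ℕ) {n₁ : ℕ} (pv : Fin (n₁ + 1) → ℕ) : Prop :=
  ∀ (m D D' : ℕ), 1 ≤ D → D ≤ D' → ∃ C : ℕ, 10 ≤ C ∧ EndTAt k f pv m D D' C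

end Pool.T4C72
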