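import Pool.Agent.H72.T4C.S

/-!
# Several targets of one slope over slope-one places: the tie, with the slopes at the window

`TieHStmt`: the tie holds in one of finitely many smaller boxes: for a pair `(ν, μ)` the window
`t + (μ / ν) q`, the unit `q / ν`. The slopes and the property `Q` are also given at the window `g`
itself.
-/

set_option autoImplicit false

namespace Pool.T4C72

open Finset Real MvPolynomial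
open Pool.Agent.H49.Ent Pool.Agent.H32.Dense
open Pool.STK hiding pr2
open Pool.KA Pool.KSAT Pool.K2S Pool.PB Pool.S6C
open Pool.GEN Pool.RCD Pool.V0F Pool.V0T
open Pool.PKG (Kg RecG PropG)

/-- **(TIE)** The tie for the records of the slopes `Sl` and the kinds `κ`, with the property `Q` at
the window `g` and at points near the window `t`: in a subclass, in one of finitely many boxes
`x = (ν, μ)`: the window `t + (μ / ν) q`, the unit `q / ν`. Order of the constants: `D` (labels of the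
class), `S₀`, `K₀` (`|t - g| ≤ K₀ q`); `D'` (degree of the labels of the targets); `δ`, `T₀` (from the
class theorem); `T` (far digits), the boxes `Bx`, the pairs of windows `A₁`, `V₁` of the record (in
units `q`); `S₂` (the constant of the pairs); `Λ` (the room), `φs` (a bound of `φ`), `Dr₀` (degree of the
closed polynomials of the balls); `φ` (the closeness of the labels, in units of the box); `e` (the errors, in units).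
`Sa`: the class at the window `g`, `S`: any subclass. -/
def TieHStmt (k f : ℕ) {n₀ : ℕ} (al : Fin (n₀ + 1) → ℕ) (h : ℝ) (Sl : ℕ → ℝ) (κ : ℕ → Kg) {ι : Type}
    (Q : PropG (k + f + 1) ι) : Prop :=
  ∀ (D S₀ : ℕ) (K₀ : ℝ), 1 ≤ D → 1 ≤ S₀ → 0 < K₀ → ∃ D' : ℕ, D ≤ D' ∧
  ∀ δ T₀ : ℝ, 0 < δ → ∃ T : ℝ, T₀ ≤ T ∧
  ∃ (Bx : Finset (ℕ × ℕ)) (K₁ : ℝ) (N₁ : ℕ) (A₁ V₁ : ℕ → ℝ), 1 ≤ K₁ ∧
    (∀ x ∈ Bx, 1 ≤ x.1 ∧ (x.2 : ℝ) / x.1 ≤ K₁) ∧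
    (∀ j < N₁, -K₁ ≤ V₁ j ∧ V₁ j ≤ A₁ j ∧ A₁ j ≤ K₁) ∧
  ∀ S₂ : ℕ, S₀ ≤ S₂ →
  ∃ (Λ φs : ℝ) (Dr₀ : ℕ), 1 ≤ Λ ∧ 0 < φs ∧ ∀ φ : ℝ, 0 < φ → φ ≤ φs → ∃ e : ℝ, 0 < e ∧
  ∀ (M₀ cb co : ℕ), 1 ≤ M₀ → (∀ x ∈ Bx, x.1 ∣ M₀) → Λ ≤ cb → Λ + K₁ ≤ co →
  ∀ (Sa : PCl (k + f + 1)) (P : List (Fin (k + f + 1)) × Fin (k + f + 1) → ℝ → ℝ → ℝ)
    (θ : ℝ) (P₂ : ℕ → List (Fin (k + f + 1)) × Fin (k + f + 1) → ℝ → ℝ → ℝ) (θ₂ Eb e₂ : ℕ → ℝ)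
    (c : ℕ → Fin (k + f + 1)) (Pt : ℝ → ℝ → ℝ) (r : ℝ → ℝ) (L Tb : ℕ → ℝ → ℝ → ℝ)
    (G : Set ℝ) (g : ℝ), IsClosed G → g ∈ G →
    (∀ l < k + f + 1, HasDerivAt (fun x => L l x x) (Sl l) g) →
    ∃ (p : ℕ → ι) (M : ℕ) (B₀ B₁ : ℕ → ℝ), (∀ j < M, B₀ j < B₁ j) ∧ ∀ k₀ : ℕ → ℕ,
    (∀ j < M, Q (p j) (k₀ j) Sa P θ c Pt r L Tb κ G g) → ∃ q₁ : ℝ, 0 < q₁ ∧
  ∀ {S : PCl (k + f + 1)} {al' : ℝ} {g₀ : ℝ → ℝ} {N : ℕ} {A V : ℕ → ℝ}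
    {V' : ℕ → ℝ} {K ε q t : ℝ} {x : ℕ → ℝ} {sp : ℕ → ℝ → ℝ} {φ' : ℝ} {lam : ℝ → ℝ},
    (∀ (τ : ℝ) (J : ℕ) (F : Fam (k + f + 1) J) (A : F.Ω → Prop), S.St τ J F A →
      Sa.St τ J F A) → q < q₁ →
    (∀ j < M, x j ∈ G ∧ t + B₀ j * q ≤ x j ∧ x j ≤ t + B₁ j * q ∧
      Q (p j) (k₀ j) S P θ c Pt r L Tb κ G (x j)) →
    RecG S al' g₀ P θ P₂ θ₂ Eb e₂ c Pt r h K₀ g L Tb Sl κ G S₀ N A V S₂ ((cb + co) * M₀ + 1) V'
      K ε q t → SubW N₁ A₁ V₁ N A V →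
    (∀ j < (cb + co) * M₀ + 1, V' j = chV M₀ cb j) → (cb : ℝ) + co + Λ ≤ K → ε ≤ e →
    φ' ≤ e * q → q / M₀ ≤ φ' →
    -- the box of the record and the boxes of the list
    BoxT S c k f D (fun l v => L l v v) sp {v | ∃ j < (cb + co) * M₀ + 1, v = t + chV M₀ cb j * q}
      (Sl (k + f)) h (t - cb * q) (t + co * q) t q Λ φ' e lam →
    (∀ x ∈ Bx, ∃ sp' : ℕ → ℝ → ℝ, BoxT S c k f D (fun l v => L l v v) sp'
      {v | ∃ j < (cb + co) * M₀ + 1, v = t + chV M₀ cb j * q} (Sl (k + f)) h (t - cb * q)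
      (t + co * q) (t + (x.2 : ℝ) / x.1 * q) (q / x.1) Λ φ' e lam) →
    ∃ S' : PCl (k + f + 1), S'.Ne ∧ (∀ (τ : ℝ) (J : ℕ) (F : Fam (k + f + 1) J)
      (A : F.Ω → Prop), S'.St τ J F A → S.St τ J F A) ∧
    ∃ x ∈ Bx, TieW S' c k f D D' al (fun l v => L l v v)
      {v | ∃ j < (cb + co) * M₀ + 1, v = t + chV M₀ cb j * q} (Sl (k + f)) (t - cb * q)
      (t + (x.2 : ℝ) / x.1 * q) (q / x.1) Λ T δ (φ * (q / x.1)) φ' Dr₀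

end Pool.T4C72
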