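import Pool.Agent.H72.T4C.Bxa

/-!
# Several targets of one slope over slope-one places: no record

`v0t_void`: no record for the slopes one below the place `k` and one slope above, from the class
theorem, the end and the tie.
-/

set_option autoImplicit false

namespace Pool.T4C72

open Finset Real MvPolynomial
open Pool.Agent.H49.Ent Pool.Agent.H32.Dense
open Pool.STK hiding pr2
open Pool.KA Pool.KSAT Pool.K2S Pool.PB Pool.S6C Pool.PKG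
open Pool.GEN Pool.LA91 Pool.RCD Pool.OWN68 Pool.V0F Pool.V0T

/-- The parameters of the points. -/
def vpT {ι : Type} (k Cf o₁ : ℕ) (κ' : ℚ) (pn : ℕ) (p : ℕ → ι) :
    ℕ → (ℕ × ℕ × ℚ × ℚ) ⊕ (ℕ ⊕ (Unit ⊕ (Unit ⊕ ι)))
  | 0 => Sum.inl (k, Cf, 1 / 8, κ')
  | 1 => Sum.inl (k, Cf + o₁, 1 / 8, κ')
  | 2 => Sum.inr (Sum.inl pn)
  | 3 => Sum.inr (Sum.inl pn)
  | 4 => Sum.inr (Sum.inr (Sum.inl ()))
  | 5 => Sum.inr (Sum.inr (Sum.inr (Sum.inl ())))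
  | j + 6 => Sum.inr (Sum.inr (Sum.inr (Sum.inr (p j))))

/-- The bounds of the points. -/
def vbT (a b c d : ℝ) (B : ℕ → ℝ) : ℕ → ℝ
  | 0 => a
  | 1 => b
  | 2 => c
  | 3 => d
  | 4 => c
  | 5 => c
  | j + 6 => B j

/-- **No record** for the slopes one below the place `k` and one slope above. -/
theorem v0t_void {k f n₀ n₁ : ℕ} {al : Fin (n₀ + 1) → ℕ} {pv : Fin (n₁ + 1) → ℕ} {h : ℝ}
    {Sl : ℕ → ℝ} {κ : ℕ → Kg} {ι : Type} {Q : PropG (k + f + 1) ι}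
    (hV : V0cGStmt f n₀ al pv) (hE : EndTStmt k f pv) (hQ : HerQ Q)
    (hT : TieStmt k f al h Sl κ Q) (hk : 1 ≤ k) (hpv : ∀ i, pv i ≤ f) (hlast : ∃ i, pv i = f) (hh0 : 0 < h) (hh1 : h ≤ 1)
    (hSl : ∀ l < k, Sl l = 1) (hκ1 : ∀ l < k, κ l = .one)
    (hSs : ∀ l, k ≤ l → l ≤ k + f → Sl l = Sl (k + f)) (hκt : ∀ i, κ (k + pv i) = .thin)
    (hs : 1 < Sl (k + f)) :
    VoidQG (k + f + 1) h Sl κ (sumQ FaQ (sumQ NlaQ (sumQ AttUQ (sumQ ChUQ Q)))) := by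
  intro al₀ _ K₀ _ S₀ hS₀
  obtain ⟨s, hse⟩ : ∃ s, s = Sl (k + f) := ⟨_, rfl⟩
  rw [← hse] at hs hSs
  have hs0 : 0 < s := by linarith
  -- the degrees
  obtain ⟨D₁, hD₁, hlbe⟩ := recG_lbe (k + f + 1) S₀ (by omega) hS₀
  have hwb := fun v => winbAt_ex (k + f + 1) (k + v) S₀ (by omega) hS₀
  choose D₂ hD₂ hwb using hwb
  obtain ⟨D, hD1, hD2⟩ : ∃ D : ℕ, D₁ ≤ D ∧ ∀ v ≤ f, D₂ v ≤ D :=
    ⟨max D₁ ((Finset.range (f + 1)).sup D₂), le_max_left _ _, fun v hv => le_max_of_le_right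
      (Finset.le_sup (Finset.mem_range.2 (by omega)))⟩
  have hD : 1 ≤ D := hD₁.trans hD1
  obtain ⟨D', hDD', hT⟩ := hT D S₀ hD hS₀
  obtain ⟨C, hC10, hend⟩ := hE (k + f + 1) D D' hD hDD'
  have hC1 : (10 : ℝ) ≤ C := by exact_mod_cast hC10
  have hC0 : (0 : ℝ) < C := by linarith
  obtain ⟨m₀, δ₀, T₀, κp, ζp, hm₀, hδ₀, hκζ, hV⟩ := hV D D' k s h
    ((s - 1) / s / 2 / (96 * C ^ 2 * (s + 1))) hD hDD' hk hs hh0 hh1 (by
      have : 0 < s - 1 := by linarith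
      positivity)
  obtain ⟨T, hTT, o₁, K₁, N₁, A₁, V₁, hK₁, hAV₁, hT⟩ := hT δ₀ T₀ hδ₀
  obtain ⟨Λ₁, hΛ₁, hV⟩ := hV T hTT
  obtain ⟨κm, β, ζ, z₀, βm, hz₀, hz₀1, hCz, hβm, hβm1, hnum⟩ := piv_cst hC1 hs hκζ
  obtain ⟨φ₀, hφ₀, hV⟩ := hV z₀ hz₀
  have ho₁ : (0 : ℝ) ≤ o₁ := Nat.cast_nonneg _
  -- the windows
  obtain ⟨KK, hKK⟩ : ∃ KK : ℝ, KK = max (1 + (o₁ : ℝ)) K₁ := ⟨_, rfl⟩
  have hKK1 : 1 + (o₁ : ℝ) ≤ KK := by rw [hKK]; exact le_max_left _ _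
  have hKK2 : K₁ ≤ KK := by rw [hKK]; exact le_max_right _ _
  refine ⟨KK, 1 + 1 + N₁, mgL 1 1 (fun _ => 1 + (o₁ : ℝ)) A₁,
    mgL 1 (z₀ / 2) (fun _ => z₀ / 2 + (o₁ : ℝ)) V₁, by linarith,
    mgL_bd (K₁ := 1 + (o₁ : ℝ)) (K₂ := K₁) hKK1 hKK2 ⟨by linarith, by linarith, by linarith⟩
      (fun j _ => ⟨by linarith, by linarith, le_rfl⟩) hAV₁, fun S₂ hS₂ => ?_⟩
  obtain ⟨Λ₂, Dr₀, hΛ₂, hT⟩ := hT S₂ hS₂
  obtain ⟨Dr, hDr, hDr₀⟩ : ∃ Dr : ℕ, D ≤ Dr ∧ Dr₀ ≤ Dr :=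
    ⟨max D Dr₀, le_max_left _ _, le_max_right _ _⟩
  have hCBe : ∀ v, ∃ CB : ℝ, v ≤ f → WinbAt (k + f + 1) (k + v) S₀ D Dr CB := by
    intro v
    by_cases hv : v ≤ f
    · obtain ⟨CB, -, h2⟩ := hwb v D (hD2 v hv) Dr hDr
      exact ⟨CB, fun _ => h2⟩
    · exact ⟨1, fun h => absurd h hv⟩
  choose CBv hCBv using hCBe
  obtain ⟨CB, hCB1, hCB⟩ := nat_bd CBv f
  -- the errors
  obtain ⟨φL, hφLe⟩ : ∃ φL : ℝ, φL = min φ₀ (min (z₀ / 16) (1 / 400)) := ⟨_, rfl⟩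
  have hφL : 0 < φL := by
    rw [hφLe]
    exact lt_min hφ₀ (lt_min (by positivity) (by norm_num))
  have hφL1 : φL ≤ φ₀ := by rw [hφLe]; exact min_le_left _ _
  have hφL2 : φL ≤ z₀ / 16 := by
    rw [hφLe]
    exact (min_le_right _ _).trans (min_le_left _ _)
  have hφL3 : φL ≤ 1 / 400 := by
    rw [hφLe]
    exact (min_le_right _ _).trans (min_le_right _ _)
  obtain ⟨e, he, hT⟩ := hT φL hφL
  obtain ⟨φc, hφce⟩ : ∃ φc : ℝ, φc = min φL e := ⟨_, rfl⟩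
  have hφc : 0 < φc := by rw [hφce]; exact lt_min hφL he
  have hφc1 : φc ≤ φL := by rw [hφce]; exact min_le_left _ _
  have hφc2 : φc ≤ e := by rw [hφce]; exact min_le_right _ _
  obtain ⟨em, heme⟩ : ∃ em : ℝ, em = min φ₀ e := ⟨_, rfl⟩
  have hem : 0 < em := by rw [heme]; exact lt_min hφ₀ he
  have hem1 : em ≤ φ₀ := by rw [heme]; exact min_le_left _ _
  have hem2 : em ≤ e := by rw [heme]; exact min_le_right _ _
  obtain ⟨Λ, hΛe⟩ : ∃ Λ : ℝ, Λ = max Λ₁ Λ₂ := ⟨_, rfl⟩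
  have hΛa : Λ₁ ≤ Λ := by rw [hΛe]; exact le_max_left _ _
  have hΛb : Λ₂ ≤ Λ := by rw [hΛe]; exact le_max_right _ _
  have hΛ : 1 ≤ Λ := hΛ₁.trans hΛa
  obtain ⟨Cf, hCf⟩ := exists_nat_ge (2 * Λ + 7 * k + 15)
  obtain ⟨cb, hcb⟩ : ∃ cb : ℕ, cb = Cf + 7 * k + 13 := ⟨_, rfl⟩
  obtain ⟨co, hco⟩ := exists_nat_ge (Λ + 1 + o₁)
  obtain ⟨M₀, hM₀⟩ := exists_nat_ge ((3 * s + 1) / φc)
  have hcbR : (cb : ℝ) = Cf + 7 * k + 13 := by rw [hcb]; push_cast; ring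
  have hk0 : (0 : ℝ) ≤ k := Nat.cast_nonneg _
  have hcb0 : (0 : ℝ) ≤ cb := Nat.cast_nonneg _
  have hco0 : (0 : ℝ) ≤ co := Nat.cast_nonneg _
  have hM0 : (0 : ℝ) < M₀ := lt_of_lt_of_le (by positivity) hM₀
  have hM1 : 1 ≤ M₀ := by
    have h2 : 0 < M₀ := by exact_mod_cast hM0
    omega
  have hMφ : (3 * s + 1) / M₀ ≤ φc := by
    rw [div_le_iff₀ hM0]
    rw [div_le_iff₀ hφc] at hM₀
    linarith
  have hMφ1 : 1 / (M₀ : ℝ) ≤ φc := by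
    refine le_trans ?_ hMφ
    exact div_le_div_of_nonneg_right (by linarith) hM0.le
  obtain ⟨ε, hεe⟩ : ∃ ε : ℝ, ε = min (min (φc / 8) e) (min (z₀ / (4 * C)) (βm / 32)) :=
    ⟨_, rfl⟩
  have hε : 0 < ε := by
    rw [hεe]
    exact lt_min (lt_min (by positivity) he) (lt_min (by positivity) (by positivity))
  have hε1 : ε ≤ φc / 8 := by
    rw [hεe]
    exact (min_le_left _ _).trans (min_le_left _ _)
  have hε2 : ε ≤ e := by
    rw [hεe]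
    exact (min_le_left _ _).trans (min_le_right _ _)
  have hε3 : C * ε ≤ z₀ / 4 := by
    have h1 : ε ≤ z₀ / (4 * C) := by
      rw [hεe]
      exact (min_le_right _ _).trans (min_le_left _ _)
    rw [le_div_iff₀ (by positivity)] at h1
    linarith
  have hε4 : ε ≤ βm / 32 := by
    rw [hεe]
    exact (min_le_right _ _).trans (min_le_right _ _)
  obtain ⟨K', hK'⟩ : ∃ K' : ℝ, K' = cb + co + Λ + s + 10 + (1 + s) * o₁ + 1 + KK := ⟨_, rfl⟩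
  have hso : 0 ≤ (1 + s) * (o₁ : ℝ) := by positivity
  refine ⟨K', (cb + co) * M₀ + 1, chV M₀ cb, by rw [hK']; linarith, fun j hj => ?_, ε, hε, ?_⟩
  · have h1 := abs_le.1 (chV_abs (M₀ := M₀) (cb := cb) (co := co) (k := j) hM1 hj)
    rw [hK']
    constructor <;> linarith [h1.1, h1.2]
  intro S g₀ P θ P₂ θ₂ Eb e₂ c Pt rt L Tb G g hG hgG
  obtain ⟨p, M, B₀, B₁, hB, hT⟩ := hT M₀ cb co hM1 (by linarith) (by linarith) P θ P₂ θ₂ Eb e₂ c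
    Pt rt L Tb G g hG hgG
  obtain ⟨κ', hκ'0, hκ'1⟩ : ∃ κ' : ℚ, (0 : ℝ) < κ' ∧ (κ' : ℝ) < em := exists_rat_btwn hem
  obtain ⟨pn, hpn⟩ := exists_nat_ge ((Λ + 2) / em)
  have hpn' : Λ + 2 ≤ em * (pn + 1) := by
    rw [div_le_iff₀ hem] at hpn
    linarith
  refine ⟨vpT k Cf o₁ κ' pn p, 6 + M, vbT (-(Cf + (7 * k + 12) / 2 - Λ))
    (o₁ - (Cf + o₁ + (7 * k + 12) / 2 - Λ)) (-1) (o₁ - 1) B₀, vbT (-(Cf / 2 + 7 * k + 13))
    (o₁ - ((Cf + o₁) / 2 + 7 * k + 13)) 0 o₁ B₁, fun j hj => ?_, fun k₀ => ?_⟩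
  · match j, hj with
    | 0, _ =>
      simp only [vbT]
      linarith
    | 1, _ =>
      simp only [vbT]
      linarith
    | 2, _ =>
      simp only [vbT]
      norm_num
    | 3, _ =>
      simp only [vbT]
      linarith
    | 4, _ =>
      simp only [vbT]
      norm_num
    | 5, _ =>
      simp only [vbT]
      norm_num
    | j + 6, hj => exact hB j (by omega)
  obtain ⟨q₁, hq₁, hT⟩ := hT fun j => k₀ (j + 6)
  refine ⟨min q₁ (min ((1 / 2) ^ max (k₀ 0) (k₀ 1)) (min ((1 / 2) ^ max (k₀ 2) (k₀ 3) / (Λ + 2))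
    ((1 / 2) ^ k₀ 4 / (cb + co + Λ + 2)))), ?_, ?_⟩
  · have : 0 < Λ + 2 := by linarith
    have : 0 < cb + co + Λ + 2 := by linarith
    exact lt_min hq₁ (lt_min (by positivity) (lt_min (by positivity) (by positivity)))
  intro q t x hq hx R
  have hq0 := R.q0
  have hΛ2 : 0 < Λ + 2 := by linarith
  have hcc2 : 0 < cb + co + Λ + 2 := by linarith
  have hqt : q < q₁ := hq.trans_le (min_le_left _ _)
  have hqa : q < (1 / 2) ^ max (k₀ 0) (k₀ 1) :=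
    hq.trans_le ((min_le_right _ _).trans (min_le_left _ _))
  have hqb : (Λ + 2) * q ≤ (1 / 2) ^ max (k₀ 2) (k₀ 3) := by
    have h1 := hq.trans_le ((min_le_right _ _).trans ((min_le_right _ _).trans (min_le_left _ _)))
    rw [lt_div_iff₀ hΛ2] at h1
    linarith
  have hqc : (cb + co + Λ + 2) * q ≤ (1 / 2) ^ k₀ 4 := by
    have h1 := hq.trans_le ((min_le_right _ _).trans ((min_le_right _ _).trans
      (min_le_right _ _)))
    rw [lt_div_iff₀ hcc2] at h1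
    linarith
  obtain ⟨kk, hk0', hk1, hk2⟩ := pow_near hq0 hqa
  have hkk0 : k₀ 0 ≤ kk := (le_max_left _ _).trans hk0'
  have hkk1 : k₀ 1 ≤ kk := (le_max_right _ _).trans hk0'
  have hk3 : q / 2 ≤ (1 / 2 : ℝ) ^ kk := by linarith
  -- the points
  obtain ⟨x0G, x01, x02, hQ0⟩ := hx 0 (by omega)
  obtain ⟨x1G, x11, x12, hQ1⟩ := hx 1 (by omega)
  obtain ⟨x2G, x21, x22, hQ2⟩ := hx 2 (by omega)
  obtain ⟨x3G, x31, x32, hQ3⟩ := hx 3 (by omega)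
  obtain ⟨x4G, x41, x42, hQ4⟩ := hx 4 (by omega)
  obtain ⟨x5G, x51, x52, hQ5⟩ := hx 5 (by omega)
  have hFa0 : FaQ (k, Cf, (1 / 8 : ℚ), κ') (k₀ 0) S P θ c Pt rt L Tb κ G (x 0) := hQ0
  have hFa1 : FaQ (k, Cf + o₁, (1 / 8 : ℚ), κ') (k₀ 1) S P θ c Pt rt L Tb κ G (x 1) := hQ1
  have hNl0 : NlaQ pn (k₀ 2) S P θ c Pt rt L Tb κ G (x 2) := hQ2
  have hNl1 : NlaQ pn (k₀ 3) S P θ c Pt rt L Tb κ G (x 3) := hQ3
  have hAt : AttUQ () (k₀ 4) S P θ c Pt rt L Tb κ G (x 4) := hQ4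
  have hCh : ChUQ () (k₀ 5) S P θ c Pt rt L Tb κ G (x 5) := hQ5
  simp only [vbT] at x01 x02 x11 x12 x21 x22 x31 x32 x41 x42
  -- the room
  have hK0 : 0 < K' := by rw [hK']; linarith
  have hKbig : (cb : ℝ) + co + Λ + s + 10 + 1 ≤ K' := by rw [hK']; linarith
  have ht0 := R.t0
  have ht1 := R.t1
  have hKq : cb * q + co * q + Λ * q + s * q + 11 * q ≤ K' * q := by
    have := mul_le_mul_of_nonneg_right hKbig hq0.le
    linarith
  have hcbq : 0 ≤ cb * q := by positivity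
  have hcoq : 0 ≤ co * q := by positivity
  have hΛq : q ≤ Λ * q := le_mul_of_one_le_left hq0.le hΛ
  have hsq : 0 < s * q := by positivity
  have hVK' : ∀ j < (cb + co) * M₀ + 1, |chV M₀ cb j| ≤ cb + co := fun j hj =>
    chV_abs (M₀ := M₀) (cb := cb) (co := co) (k := j) hM1 hj
  have hVK : ∀ j < (cb + co) * M₀ + 1, |chV M₀ cb j| ≤ K' := fun j hj =>
    (hVK' j hj).trans (by linarith)
  -- the labels
  have hattS : ∀ j < (cb + co) * M₀ + 1, ∃ rk E : ℝ, 0 ≤ rk ∧ rk ≤ 1 - (1 / 2) ^ k₀ 4 ∧ 0 ≤ E ∧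
      E + L (k + f) (t + chV M₀ cb j * q) (t + chV M₀ cb j * q) ≤ 1 - (1 / 2) ^ k₀ 4 ∧
      LbU S ((range (k + f)).image c) (c (k + f)) (t + chV M₀ cb j * q)
        (L (k + f) (t + chV M₀ cb j * q) (t + chV M₀ cb j * q)) rk E := by
    intro j hj
    refine hAt _ (R.memG.2 j hj) ?_
    have h1 := abs_le.1 (hVK' j hj)
    have h2 := mul_le_mul_of_nonneg_right h1.1 hq0.le
    have h3 := mul_le_mul_of_nonneg_right h1.2 hq0.le
    rw [abs_le]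
    constructor <;> linarith
  have hhalf : (0 : ℝ) < (1 / 2) ^ k₀ 4 := by positivity
  obtain ⟨S₁, hsub, R₁, hlab⟩ := hlbe (m₁ := Λ * q) R hK0 hVK (by
    have h1 : 0 ≤ K' * q := by positivity
    linarith) (fun j hj => by
    obtain ⟨rd, -, h2⟩ := hCh _ (R.memG.2 j hj)
    exact ⟨rd, h2⟩) (fun j hj => by
    obtain ⟨rk, E, h1, h2, h3, h4, h5⟩ := hattS j hj
    refine ⟨rk, E, h3, ?_, h5⟩
    have h6 : E + L (k + f) (t + chV M₀ cb j * q) (t + chV M₀ cb j * q) + Λ * q ≤ 1 := by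
      linarith
    exact h6)
  have hatt₁ : ∀ j < (cb + co) * M₀ + 1, ∃ rk E : ℝ, 0 ≤ rk ∧ rk < 1 ∧ 0 ≤ E ∧
      E + L (k + f) (t + chV M₀ cb j * q) (t + chV M₀ cb j * q) + Λ * q ≤ 1 ∧
      LbU S₁ ((range (k + f)).image c) (c (k + f)) (t + chV M₀ cb j * q)
        (L (k + f) (t + chV M₀ cb j * q) (t + chV M₀ cb j * q)) rk E := by
    intro j hj
    obtain ⟨rk, E, h1, h2, h3, h4, h5⟩ := hattS j hj
    exact ⟨rk, E, h1, by linarith, h3, by linarith, h5.sub hsub⟩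
  -- the points of the two windows
  have hpts : ∀ o : ℕ, o = 0 ∨ o = o₁ → ∃ (kf kn : ℕ) (x₀ x₁ : ℝ),
      FaQ (k, Cf + o, (1 / 8 : ℚ), κ') kf S₁ P θ c Pt rt L Tb κ G x₀ ∧
      t + o * q - (Cf + o + (7 * k + 12) / 2 - Λ) * q ≤ x₀ ∧
      x₀ ≤ t + o * q - ((Cf + o) / 2 + 7 * k + 13) * q ∧ kf ≤ kk ∧
      NlaQ pn kn S₁ P θ c Pt rt L Tb κ G x₁ ∧ t + o * q - q ≤ x₁ ∧ x₁ ≤ t + o * q ∧
      (Λ + 2) * q ≤ (1 / 2) ^ kn := by
    rintro o (rfl | rfl)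
    · refine ⟨k₀ 0, k₀ 2, x 0, x 2, hFa0.sub hsub, ?_, ?_, hkk0,
        her_nla (k + f + 1) pn (k₀ 2) S S₁ P θ c Pt rt L Tb κ G (x 2) hsub hNl0, ?_, ?_, ?_⟩
      · push_cast
        linarith
      · push_cast
        linarith
      · push_cast
        linarith
      · push_cast
        linarith
      · exact hqb.trans (pow_le_pow_of_le_one (by norm_num) (by norm_num) (le_max_left _ _))
    · refine ⟨k₀ 1, k₀ 3, x 1, x 3, hFa1.sub hsub, ?_, ?_, hkk1,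
        her_nla (k + f + 1) pn (k₀ 3) S S₁ P θ c Pt rt L Tb κ G (x 3) hsub hNl1, ?_, ?_, ?_⟩
      · linarith
      · linarith
      · linarith
      · linarith
      · exact hqb.trans (pow_le_pow_of_le_one (by norm_num) (by norm_num) (le_max_right _ _))
  have hole : ∀ o : ℕ, o = 0 ∨ o = o₁ → (o : ℝ) ≤ o₁ := by
    rintro o (rfl | rfl)
    · push_cast
      exact ho₁
    · exact le_rfl
  -- the boxes
  have hbox : ∀ (S₃ : PCl (k + f + 1)), S₃.Ne → (∀ (τ : ℝ) (J : ℕ) (F : Fam (k + f + 1) J)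
      (A : F.Ω → Prop), S₃.St τ J F A → S₁.St τ J F A) → ∀ o : ℕ, o = 0 ∨ o = o₁ →
      ∀ φ e' : ℝ, φc ≤ φ → φ ≤ 1 / 400 → em ≤ e' →
      BoxT S₃ c k f D (fun l v => L l v v) (fun i x => L i x x - 1 / 8 / 20 * (1 / 2) ^ kk)
        {v | ∃ j < (cb + co) * M₀ + 1, v = t + chV M₀ cb j * q} s h (t - cb * q) (t + co * q)
        (t + o * q) q Λ (φ * q) e' (lh (L (k + f)) G) := by
    intro S₃ hne hs₃ o ho φ e' h1 h2 h3
    obtain ⟨kf, kn, x₀, x₁, c1, c2, c3, c4, c5, c6, c7, c8⟩ := hpts o ho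
    have ho1 := hole o ho
    have ho2 : (1 + s) * (o : ℝ) ≤ (1 + s) * o₁ := mul_le_mul_of_nonneg_left ho1 (by linarith)
    have h4 : φc * q ≤ φ * q := mul_le_mul_of_nonneg_right h1 hq0.le
    refine box_at R₁ hne hs₃ (D₁ := D₁) (Cf := Cf) (pn := pn) (kk := kk) (kf := kf) (kn := kn)
      (κ' := κ') (x₀ := x₀) (x₁ := x₁) hM1 rfl (fun _ _ => rfl) (by omega) hΛ hD1 hCf hcb
      (by linarith) ?_ hε hSl hκ1 hSs hs (hem.trans_le h3) ?_ ?_ ?_ hκ'0 (by linarith) ?_ hlab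
      hatt₁ c1 c2 c3 c4 hk2 hk3 c5 c6 c7 c8
    · rw [hK']
      linarith
    · have h5 := mul_le_mul_of_nonneg_right hε1 hq0.le
      linarith
    · have h5 := mul_le_mul_of_nonneg_right hMφ hq0.le
      have h6 : (3 * s + 1) * (q / M₀) = (3 * s + 1) / M₀ * q := by ring
      rw [h6]
      linarith
    · have h5 := mul_le_mul_of_nonneg_right h2 hq0.le
      linarith
    · refine hpn'.trans (mul_le_mul_of_nonneg_right h3 (by positivity))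
  -- no record with the tie
  have hcore : ∀ (S₃ : PCl (k + f + 1)), S₃.Ne → (∀ (τ : ℝ) (J : ℕ) (F : Fam (k + f + 1) J)
      (A : F.Ω → Prop), S₃.St τ J F A → S₁.St τ J F A) → ∀ o : ℕ, o = 0 ∨ o = o₁ →
      (∃ j < 1 + 1 + N₁, mgL 1 1 (fun _ => 1 + (o₁ : ℝ)) A₁ j = 1 + o ∧
        mgL 1 (z₀ / 2) (fun _ => z₀ / 2 + (o₁ : ℝ)) V₁ j = z₀ / 2 + o) →
      TieW S₃ c k f D D' al (fun l v => L l v v)
        {v | ∃ j < (cb + co) * M₀ + 1, v = t + chV M₀ cb j * q} s (t - cb * q) (t + o * q) q Λ₂ T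
        δ₀ (φL * q) (φc * q) Dr₀ → False := by
    intro S₃ hne hs₃ o ho hj htie
    have ho1 := hole o ho
    have ho0 : (0 : ℝ) ≤ o := Nat.cast_nonneg _
    have ho2 : (1 + s) * (o : ℝ) ≤ (1 + s) * o₁ := mul_le_mul_of_nonneg_left ho1 (by linarith)
    have hco1 : o ≤ co := by
      have : (o : ℝ) ≤ co := by linarith
      exact_mod_cast this
    obtain ⟨co', hco'⟩ : ∃ co', co = co' + o := ⟨co - o, by omega⟩
    have hcoR : (co : ℝ) = co' + o := by rw [hco']; push_cast; ring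
    have hSk : Sl (k + f + 1 - 1) = s := by
      rw [Nat.add_sub_cancel, hse]
    have R' := recG_shift (R₁.sub hne hs₃) (x := (o : ℝ)) (K' := (cb : ℝ) + co + Λ + s + 10)
      ho0 (by linarith) hε.le (by omega) (by
        rw [hSk, abs_of_pos hs0, hK']
        linarith)
    have hbx := (hbox S₃ hne hs₃ o ho φL φ₀ hφc1 hφL3 hem1).la hΛa
    have e1 : t + o * q - ((cb + o : ℕ) : ℝ) * q = t - cb * q := by push_cast; ring
    have e2 : t + o * q + (co' : ℝ) * q = t + (co : ℝ) * q := by rw [hcoR]; ring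
    rw [← grid_shift M₀ cb ((cb + co) * M₀ + 1) o t q, ← e1] at hbx htie
    rw [← e2] at hbx
    have hN'' : (cb + co) * M₀ + 1 = ((cb + o) + co') * M₀ + 1 := by
      congr 2
      omega
    exact v0t_core hend hV (fun v hv => hCBv v hv) hCB1 hCB hDr hDr₀ hk hpv hlast hC10 hs hΛ₁
      hm₀ hz₀ hz₀1 hCz hβm hnum (fun l hl => (hκζ l hl).2.2.1) hφL hφL1 (by linarith) hφc hφc1 R'
      (M₀ := M₀) (cb := cb + o) (co := co') hM1 (by linarith) (by push_cast; linarith) hN''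
      (fun j hj => by
        show chV M₀ cb j - (o : ℝ) = _
        rw [chV_shift]) (by push_cast; linarith) (by linarith) (by linarith) (by linarith)
      (by linarith) (by linarith) hMφ1 hSl hSs hκt (by
        obtain ⟨j, hj1, hj2, hj3⟩ := hj
        refine ⟨j, hj1, ?_, ?_⟩
        · show mgL 1 1 (fun _ => 1 + (o₁ : ℝ)) A₁ j - (o : ℝ) = 1
          rw [hj2]
          ring
        · show mgL 1 (z₀ / 2) (fun _ => z₀ / 2 + (o₁ : ℝ)) V₁ j - (o : ℝ) = z₀ / 2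
          rw [hj3]
          ring) hbx htie
  -- the tie
  have hS1ne : S₁.Ne := R₁.ne
  have hb0 := (hbox S₁ hS1ne (fun _ _ _ _ h => h) 0 (Or.inl rfl) φc e le_rfl
    (hφc1.trans hφL3) hem2).la hΛb
  have hb1 := (hbox S₁ hS1ne (fun _ _ _ _ h => h) o₁ (Or.inr rfl) φc e le_rfl
    (hφc1.trans hφL3) hem2).la hΛb
  have ht0e : t + ((0 : ℕ) : ℝ) * q = t := by push_cast; ring
  rw [ht0e] at hb0
  rw [hse] at hb0 hb1
  obtain ⟨S₃, hne₃, hs₃, htie⟩ := hT (x := fun j => x (j + 6)) hqt (fun j hj => by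
    obtain ⟨y1, y2, y3, y4⟩ := hx (j + 6) (by omega)
    exact ⟨y1, y2, y3, hQ _ _ _ _ _ _ _ _ _ _ _ _ _ _ hsub y4⟩) R₁ subw_two (fun _ _ => rfl) (by linarith) hε2
    (mul_le_mul_of_nonneg_right hφc2 hq0.le) (by
      have h1 := mul_le_mul_of_nonneg_right hMφ1 hq0.le
      have h2 : q / (M₀ : ℝ) = 1 / M₀ * q := by ring
      rw [h2]
      exact h1) hb0 hb1
  rw [← hse] at htie
  rcases htie with htie | htie
  · refine hcore S₃ hne₃ hs₃ 0 (Or.inl rfl) ⟨0, by omega, ?_, ?_⟩ (by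
      rw [ht0e]
      exact htie)
    · simp [mgL]
    · simp [mgL]
  · refine hcore S₃ hne₃ hs₃ o₁ (Or.inr rfl) ⟨1, by omega, ?_, ?_⟩ htie
    · simp [mgL]
    · simp [mgL]

end Pool.T4C72
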