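import Pool.Agent.H72.T4C.VoidF
import Pool.Agent.H72.T4C.Sh
import Pool.Agent.H3.D2G.RecH

/-!
# Several targets of one slope over slope-one places: no record, with the slopes at the window

`v0t_voidH`: no record for the slopes one below the place `k` and one slope above, from the class
theorem, the end and the tie in one of finitely many boxes; the slopes and the property of the tie
are given at the window itself too.
-/

set_option autoImplicit false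

namespace Pool.T4C72

open Finset Real MvPolynomial
open Pool.Agent.H49.Ent Pool.Agent.H32.Dense
open Pool.STK hiding pr2
open Pool.KA Pool.KSAT Pool.K2S Pool.PB Pool.S6C Pool.PKG
open Pool.GEN Pool.LA91 Pool.RCD Pool.OWN68 Pool.V0F Pool.V0T

/-- **No record** for the slopes one below the place `k` and one slope above. -/
theorem v0t_voidH {k f n₀ n₁ : ℕ} {al : Fin (n₀ + 1) → ℕ} {pv : Fin (n₁ + 1) → ℕ} {h : ℝ}
    {Sl : ℕ → ℝ} {κ : ℕ → Kg} {ι : Type} {Q : PropG (k + f + 1) ι}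
    (hV : V0cGStmt f n₀ al pv) (hE : EndTStmt k f pv) (hQ : HerQ Q)
    (hT : TieHStmt k f al h Sl κ Q) (hk : 1 ≤ k) (hpv : ∀ i, pv i ≤ f) (hlast : ∃ i, pv i = f)
    (hh0 : 0 < h) (hh1 : h ≤ 1) (hSl : ∀ l < k, Sl l = 1) (hκ1 : ∀ l < k, κ l = .one)
    (hSs : ∀ l, k ≤ l → l ≤ k + f → Sl l = Sl (k + f)) (hκt : ∀ i, κ (k + pv i) = .thin)
    (hs : 1 < Sl (k + f)) :
    VoidQH (k + f + 1) h Sl κ (sumQ FaQ (sumQ NlaQ (sumQ AttUQ (sumQ ChUQ Q)))) := by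
  classical
  intro al₀ _ K₀ hK₀ S₀ hS₀
  obtain ⟨s, hse⟩ : ∃ s, s = Sl (k + f) := ⟨_, rfl⟩
  rw [← hse] at hs hSs
  have hs0 : 0 < s := by linarith
  -- the degrees
  obtain ⟨D₁, hD₁, hlbe⟩ := recG_lbe (k + f + 1) S₀ (by omega) hS₀
  have hwb := fun v => winbAt_ex (k + f + 1) (k + v) S₀ (by omega) hS₀
  choose D₂ hD₂ hwb using hwb
  obtain ⟨D, hD1, hD2⟩ : ∃ D : ℕ, D₁ ≤ D ∧ ∀ v ≤ f, D₂ v ≤ D :=
    ⟨max D₁ ((Finset.range (f + 1)).sup D₂), le_max_left _ _, fun v hv => le_max_of_le_right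
      (Finset.le_sup (Finset.mem_range.2 (by omega)))⟩
  have hD : 1 ≤ D := hD₁.trans hD1
  obtain ⟨D', hDD', hT⟩ := hT D S₀ K₀ hD hS₀ hK₀
  obtain ⟨C, hC10, hend⟩ := hE (k + f + 1) D D' hD hDD'
  have hC1 : (10 : ℝ) ≤ C := by exact_mod_cast hC10
  have hC0 : (0 : ℝ) < C := by linarith
  obtain ⟨m₀, δ₀, T₀, κp, ζp, hm₀, hδ₀, hκζ, hV⟩ := hV D D' k s h
    ((s - 1) / s / 2 / (96 * C ^ 2 * (s + 1))) hD hDD' hk hs hh0 hh1 (by
      have : 0 < s - 1 := by linarith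
      positivity)
  obtain ⟨T, hTT, Bx₀, K₁, N₁, A₁, V₁, hK₁, hBx, hAV₁, hT⟩ := hT δ₀ T₀ hδ₀
  obtain ⟨Λ₁, hΛ₁, hV⟩ := hV T hTT
  obtain ⟨κm, β, ζ, z₀, βm, hz₀, hz₀1, hCz, hβm, hβm1, hnum⟩ := piv_cst hC1 hs hκζ
  obtain ⟨φ₀, hφ₀, hV⟩ := hV z₀ hz₀
  -- the boxes
  obtain ⟨Bx, hBxe⟩ : ∃ Bx : Finset (ℕ × ℕ), Bx = insert (1, 0) Bx₀ := ⟨_, rfl⟩
  have hB1 : ∀ x ∈ Bx, 1 ≤ x.1 ∧ (x.2 : ℝ) / x.1 ≤ K₁ := by
    intro x hx
    rw [hBxe, Finset.mem_insert] at hx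
    rcases hx with rfl | hx
    · refine ⟨le_rfl, ?_⟩
      push_cast
      linarith
    · exact hBx x hx
  have hB0 : ((1, 0) : ℕ × ℕ) ∈ Bx := by
    rw [hBxe]
    exact Finset.mem_insert_self _ _
  have hBs : ∀ x ∈ Bx₀, x ∈ Bx := fun x hx => by
    rw [hBxe]
    exact Finset.mem_insert_of_mem hx
  obtain ⟨I, bx, hbx1, hbx2⟩ := fin_enum Bx
  obtain ⟨Pr, hPre⟩ : ∃ Pr : ℕ, Pr = ∏ x ∈ Bx, x.1 := ⟨_, rfl⟩
  have hPr1 : 1 ≤ Pr := by
    rw [hPre]
    exact Nat.one_le_iff_ne_zero.2 (Finset.prod_ne_zero_iff.2 fun x hx => by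
      have := (hB1 x hx).1
      omega)
  have hPrd : ∀ x ∈ Bx, x.1 ∣ Pr := fun x hx => by
    rw [hPre]
    exact Finset.dvd_prod_of_mem _ hx
  have hPrR : (1 : ℝ) ≤ Pr := by exact_mod_cast hPr1
  have hνR : ∀ x ∈ Bx, (1 : ℝ) ≤ x.1 ∧ (x.1 : ℝ) ≤ Pr ∧ (0 : ℝ) ≤ (x.2 : ℝ) / x.1 := by
    intro x hx
    refine ⟨by exact_mod_cast (hB1 x hx).1, ?_, by positivity⟩
    exact_mod_cast Nat.le_of_dvd (by omega) (hPrd x hx)
  -- the windows
  refine ⟨K₁ + 1, I + N₁, mgF I (fun i => ((bx i).2 : ℝ) / (bx i).1 + 1 / (bx i).1) A₁,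
    mgF I (fun i => ((bx i).2 : ℝ) / (bx i).1 + z₀ / 2 / (bx i).1) V₁, by linarith,
    fun j hj => ?_, fun S₂ hS₂ => ?_⟩
  · unfold mgF
    by_cases h1 : j < I
    · rw [if_pos h1, if_pos h1]
      obtain ⟨g1, g2, g3⟩ := hνR _ (hbx1 j h1)
      have g4 := (hB1 _ (hbx1 j h1)).2
      have g5 : 1 / ((bx j).1 : ℝ) ≤ 1 := by
        rw [div_le_one (by linarith)]
        exact g1
      have g6 : z₀ / 2 / ((bx j).1 : ℝ) ≤ 1 / ((bx j).1 : ℝ) :=
        div_le_div_of_nonneg_right (by linarith) (by linarith)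
      have g7 : 0 ≤ z₀ / 2 / ((bx j).1 : ℝ) := div_nonneg (by linarith) (by linarith)
      exact ⟨by linarith, by linarith, by linarith⟩
    · rw [if_neg h1, if_neg h1]
      obtain ⟨g1, g2, g3⟩ := hAV₁ (j - I) (by omega)
      exact ⟨by linarith, g2, by linarith⟩
  obtain ⟨Λ₂, φs, Dr₀, hΛ₂, hφs, hT⟩ := hT S₂ hS₂
  obtain ⟨Dr, hDr, hDr₀⟩ : ∃ Dr : ℕ, D ≤ Dr ∧ Dr₀ ≤ Dr :=
    ⟨max D Dr₀, le_max_left _ _, le_max_right _ _⟩
  have hCBe : ∀ v, ∃ CB : ℝ, v ≤ f → WinbAt (k + f + 1) (k + v) S₀ D Dr CB := by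
    intro v
    by_cases hv : v ≤ f
    · obtain ⟨CB, -, h2⟩ := hwb v D (hD2 v hv) Dr hDr
      exact ⟨CB, fun _ => h2⟩
    · exact ⟨1, fun h => absurd h hv⟩
  choose CBv hCBv using hCBe
  obtain ⟨CB, hCB1, hCB⟩ := nat_bd CBv f
  -- the errors
  obtain ⟨φL, hφLe⟩ : ∃ φL : ℝ, φL = min (min φ₀ φs) (min (z₀ / 16) (1 / 400)) := ⟨_, rfl⟩
  have hφL : 0 < φL := by
    rw [hφLe]
    exact lt_min (lt_min hφ₀ hφs) (lt_min (by positivity) (by norm_num))
  have hφL1 : φL ≤ φ₀ := by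
    rw [hφLe]
    exact (min_le_left _ _).trans (min_le_left _ _)
  have hφLs : φL ≤ φs := by
    rw [hφLe]
    exact (min_le_left _ _).trans (min_le_right _ _)
  have hφL2 : φL ≤ z₀ / 16 := by
    rw [hφLe]
    exact (min_le_right _ _).trans (min_le_left _ _)
  have hφL3 : φL ≤ 1 / 400 := by
    rw [hφLe]
    exact (min_le_right _ _).trans (min_le_right _ _)
  obtain ⟨e, he, hT⟩ := hT φL hφL hφLs
  have hPr0 : (0 : ℝ) < Pr := by linarith
  obtain ⟨φm, hφme⟩ : ∃ φm : ℝ, φm = min φL e / Pr := ⟨_, rfl⟩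
  have hφm : 0 < φm := by
    rw [hφme]
    exact div_pos (lt_min hφL he) hPr0
  have hφmP : Pr * φm ≤ min φL e := by
    rw [hφme]
    field_simp
    exact le_rfl
  have hφmx : ∀ y : ℝ, 0 ≤ y → y ≤ Pr → y * φm ≤ φL ∧ y * φm ≤ e := fun y _ h2 => by
    have h3 : y * φm ≤ Pr * φm := mul_le_mul_of_nonneg_right h2 hφm.le
    exact ⟨h3.trans (hφmP.trans (min_le_left _ _)), h3.trans (hφmP.trans (min_le_right _ _))⟩
  have hφm1 : φm ≤ φL := by
    have := (hφmx 1 zero_le_one hPrR).1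
    linarith
  have hφm2 : φm ≤ e := by
    have := (hφmx 1 zero_le_one hPrR).2
    linarith
  obtain ⟨em, heme⟩ : ∃ em : ℝ, em = min φ₀ e := ⟨_, rfl⟩
  have hem : 0 < em := by rw [heme]; exact lt_min hφ₀ he
  have hem1 : em ≤ φ₀ := by rw [heme]; exact min_le_left _ _
  have hem2 : em ≤ e := by rw [heme]; exact min_le_right _ _
  obtain ⟨Λ, hΛe⟩ : ∃ Λ : ℝ, Λ = max Λ₁ Λ₂ := ⟨_, rfl⟩
  have hΛa : Λ₁ ≤ Λ := by rw [hΛe]; exact le_max_left _ _
  have hΛb : Λ₂ ≤ Λ := by rw [hΛe]; exact le_max_right _ _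
  have hΛ : 1 ≤ Λ := hΛ₁.trans hΛa
  obtain ⟨Cf, hCf⟩ := exists_nat_ge (2 * Λ + 7 * k + 15)
  obtain ⟨cb, hcb⟩ : ∃ cb : ℕ, cb = Cf + 7 * k + 13 := ⟨_, rfl⟩
  obtain ⟨co, hco⟩ := exists_nat_ge (Λ + 1 + K₁)
  obtain ⟨M', hM'⟩ := exists_nat_ge ((3 * s + 1) / φm)
  have hM'0 : (0 : ℝ) < M' := lt_of_lt_of_le (by positivity) hM'
  obtain ⟨M₀, hM₀e⟩ : ∃ M₀ : ℕ, M₀ = Pr * M' := ⟨_, rfl⟩
  have hM₀R : (M₀ : ℝ) = Pr * M' := by rw [hM₀e]; push_cast; ring
  have hM₀ : (3 * s + 1) / φm ≤ M₀ := by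
    rw [hM₀R]
    exact hM'.trans (le_mul_of_one_le_left hM'0.le hPrR)
  have hMd : ∀ x ∈ Bx, x.1 ∣ M₀ := fun x hx => by
    rw [hM₀e]
    exact Dvd.dvd.mul_right (hPrd x hx) _
  have hcbR : (cb : ℝ) = Cf + 7 * k + 13 := by rw [hcb]; push_cast; ring
  have hk0 : (0 : ℝ) ≤ k := Nat.cast_nonneg _
  have hcb0 : (0 : ℝ) ≤ cb := Nat.cast_nonneg _
  have hco0 : (0 : ℝ) ≤ co := Nat.cast_nonneg _
  have hM0 : (0 : ℝ) < M₀ := lt_of_lt_of_le (by positivity) hM₀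
  have hM1 : 1 ≤ M₀ := by
    have h2 : 0 < M₀ := by exact_mod_cast hM0
    omega
  have hMφ : (3 * s + 1) / M₀ ≤ φm := by
    rw [div_le_iff₀ hM0]
    rw [div_le_iff₀ hφm] at hM₀
    linarith
  have hMφ1 : 1 / (M₀ : ℝ) ≤ φm := by
    refine le_trans ?_ hMφ
    exact div_le_div_of_nonneg_right (by linarith) hM0.le
  obtain ⟨ε, hεe⟩ : ∃ ε : ℝ, ε = min (φm / 8) (min (z₀ / (4 * C * Pr)) (βm / (32 * Pr))) :=
    ⟨_, rfl⟩
  have hε : 0 < ε := by
    rw [hεe]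
    exact lt_min (by positivity) (lt_min (by positivity) (by positivity))
  have hε1 : ε ≤ φm / 8 := by
    rw [hεe]
    exact min_le_left _ _
  have hε3 : C * (ε * Pr) ≤ z₀ / 4 := by
    have h1 : ε ≤ z₀ / (4 * C * Pr) := by
      rw [hεe]
      exact (min_le_right _ _).trans (min_le_left _ _)
    rw [le_div_iff₀ (by positivity)] at h1
    linarith
  have hε4 : ε * Pr ≤ βm / 32 := by
    have h1 : ε ≤ βm / (32 * Pr) := by
      rw [hεe]
      exact (min_le_right _ _).trans (min_le_right _ _)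
    rw [le_div_iff₀ (by positivity)] at h1
    linarith
  obtain ⟨K', hK'⟩ : ∃ K' : ℝ, K' = cb + co + Λ + s + 10 + (1 + s) * K₁ + 1 + (K₁ + 1) :=
    ⟨_, rfl⟩
  have hsK : 0 ≤ (1 + s) * K₁ := by positivity
  refine ⟨K', (cb + co) * M₀ + 1, chV M₀ cb, by rw [hK']; linarith, fun j hj => ?_, ε, hε, ?_⟩
  · have h1 := abs_le.1 (chV_abs (M₀ := M₀) (cb := cb) (co := co) (k := j) hM1 hj)
    rw [hK']
    constructor <;> linarith [h1.1, h1.2]
  intro S g₀ P θ P₂ θ₂ Eb e₂ c Pt rt L Tb G g hG hgG hder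
  obtain ⟨p, M, B₀, B₁, hB, hT⟩ := hT M₀ cb co hM1 (fun x hx => hMd x (hBs x hx)) (by linarith)
    (by linarith) S P θ P₂ θ₂ Eb e₂ c Pt rt L Tb G g hG hgG hder
  obtain ⟨κ', hκ'0, hκ'1⟩ : ∃ κ' : ℚ, (0 : ℝ) < κ' ∧ (κ' : ℝ) < em := exists_rat_btwn hem
  obtain ⟨pn, hpn⟩ := exists_nat_ge ((Λ + 2) / em)
  have hpn' : Λ + 2 ≤ em * (pn + 1) := by
    rw [div_le_iff₀ hem] at hpn
    linarith
  obtain ⟨Cx, hCx⟩ : ∃ Cx : ℕ × ℕ → ℕ, ∀ x ∈ Bx, x.1 * cb + x.2 = Cx x + 7 * k + 13 ∧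
      Cf ≤ Cx x := by
    refine ⟨fun x => x.1 * cb + x.2 - (7 * k + 13), fun x hx => ?_⟩
    have h1 : cb ≤ x.1 * cb := Nat.le_mul_of_pos_left _ (hB1 x hx).1
    constructor
    · show x.1 * cb + x.2 = x.1 * cb + x.2 - (7 * k + 13) + 7 * k + 13
      omega
    · show Cf ≤ x.1 * cb + x.2 - (7 * k + 13)
      omega
  have hCxR : ∀ x ∈ Bx, 2 * Λ + 7 * k + 15 ≤ (Cx x : ℝ) := fun x hx => by
    have h1 : (Cf : ℝ) ≤ Cx x := by exact_mod_cast (hCx x hx).2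
    linarith
  refine ⟨vpF k (fun i => Cx (bx i)) κ' pn I p, 2 * I + 2 + M, vbF I
    (fun i => ((bx i).2 : ℝ) / (bx i).1 - (Cx (bx i) + (7 * k + 12) / 2 - Λ) / (bx i).1)
    (fun i => ((bx i).2 : ℝ) / (bx i).1 - 1 / (bx i).1) (-1) B₀, vbF I
    (fun i => ((bx i).2 : ℝ) / (bx i).1 - (Cx (bx i) / 2 + 7 * k + 13) / (bx i).1)
    (fun i => ((bx i).2 : ℝ) / (bx i).1) 0 B₁, fun j hj => ?_, fun k₀ hQg => ?_⟩
  · unfold vbF
    by_cases h1 : j < I
    · rw [if_pos h1, if_pos h1]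
      have g1 := (hνR _ (hbx1 j h1)).1
      have g2 := hCxR _ (hbx1 j h1)
      refine sub_lt_sub_left (div_lt_div_of_pos_right ?_ (by linarith)) _
      linarith
    · rw [if_neg h1, if_neg h1]
      by_cases h2 : j < 2 * I
      · rw [if_pos h2, if_pos h2]
        have g1 := (hνR _ (hbx1 (j - I) (by omega))).1
        have g2 : 0 < 1 / ((bx (j - I)).1 : ℝ) := by
          have : (0 : ℝ) < (bx (j - I)).1 := by linarith
          positivity
        linarith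
      · rw [if_neg h2, if_neg h2]
        by_cases h3 : j < 2 * I + 2
        · rw [if_pos h3, if_pos h3]
          norm_num
        · rw [if_neg h3, if_neg h3]
          exact hB _ (by omega)
  have hpj : ∀ j, vpF k (fun i => Cx (bx i)) κ' pn I p (j + (2 * I + 2)) =
      Sum.inr (Sum.inr (Sum.inr (Sum.inr (p j)))) := fun j => by
    unfold vpF
    rw [if_neg (by omega), if_neg (by omega), if_neg (by omega), if_neg (by omega),
      Nat.add_sub_cancel]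
  obtain ⟨q₁, hq₁, hT⟩ := hT (fun j => k₀ (j + (2 * I + 2))) fun j hj => by
    have h1 := hQg (j + (2 * I + 2)) (by omega)
    rw [hpj] at h1
    exact h1
  obtain ⟨mk, hmk, hmk'⟩ := nat_pos (d := fun j => (1 / 2 : ℝ) ^ k₀ j) (2 * I + 2)
    (fun j _ => by positivity)
  have hcc2 : 0 < cb + co + Λ + 2 := by linarith
  refine ⟨min q₁ (mk / (cb + co + Λ + 2)), lt_min hq₁ (by positivity), ?_⟩
  intro q t x hq hx R
  have hq0 := R.q0
  have hqt : q < q₁ := hq.trans_le (min_le_left _ _)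
  have hqm : (cb + co + Λ + 2) * q < mk := by
    have h1 := hq.trans_le (min_le_right _ _)
    rw [lt_div_iff₀ hcc2] at h1
    linarith
  have hqk : ∀ j ≤ 2 * I + 2, (cb + co + Λ + 2) * q ≤ (1 / 2) ^ k₀ j := fun j hj =>
    hqm.le.trans (hmk' j hj)
  have hcbq : 0 ≤ cb * q := by positivity
  have hcoq : 0 ≤ co * q := by positivity
  have hΛq : q ≤ Λ * q := le_mul_of_one_le_left hq0.le hΛ
  have hsq : 0 < s * q := by positivity
  -- the points
  have hAt : AttUQ () (k₀ (2 * I)) S P θ c Pt rt L Tb κ G (x (2 * I)) := by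
    obtain ⟨-, -, -, hQ0⟩ := hx (2 * I) (by omega)
    have e1 : vpF k (fun i => Cx (bx i)) κ' pn I p (2 * I) = Sum.inr (Sum.inr (Sum.inl ())) := by
      unfold vpF
      rw [if_neg (by omega), if_neg (by omega), if_pos rfl]
    rw [e1] at hQ0
    exact hQ0
  have hAt1 : t - q ≤ x (2 * I) ∧ x (2 * I) ≤ t := by
    obtain ⟨-, h1, h2, -⟩ := hx (2 * I) (by omega)
    unfold vbF at h1 h2
    rw [if_neg (by omega), if_neg (by omega), if_pos (by omega)] at h1 h2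
    exact ⟨by linarith, by linarith⟩
  have hCh : ChUQ () (k₀ (2 * I + 1)) S P θ c Pt rt L Tb κ G (x (2 * I + 1)) := by
    obtain ⟨-, -, -, hQ0⟩ := hx (2 * I + 1) (by omega)
    have e1 : vpF k (fun i => Cx (bx i)) κ' pn I p (2 * I + 1) =
        Sum.inr (Sum.inr (Sum.inr (Sum.inl ()))) := by
      unfold vpF
      rw [if_neg (by omega), if_neg (by omega), if_neg (by omega), if_pos rfl]
    rw [e1] at hQ0
    exact hQ0
  -- the room
  have hK0 : 0 < K' := by rw [hK']; linarith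
  have hKbig : (cb : ℝ) + co + Λ + s + 10 + 1 ≤ K' := by rw [hK']; linarith
  have ht0 := R.t0
  have ht1 := R.t1
  have hKq : cb * q + co * q + Λ * q + s * q + 11 * q ≤ K' * q := by
    have := mul_le_mul_of_nonneg_right hKbig hq0.le
    linarith
  have hVK' : ∀ j < (cb + co) * M₀ + 1, |chV M₀ cb j| ≤ cb + co := fun j hj =>
    chV_abs (M₀ := M₀) (cb := cb) (co := co) (k := j) hM1 hj
  have hVK : ∀ j < (cb + co) * M₀ + 1, |chV M₀ cb j| ≤ K' := fun j hj =>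
    (hVK' j hj).trans (by linarith)
  -- the labels
  have hqc := hqk (2 * I) (by omega)
  have hattS : ∀ j < (cb + co) * M₀ + 1, ∃ rk E : ℝ, 0 ≤ rk ∧
      rk ≤ 1 - (1 / 2) ^ k₀ (2 * I) ∧ 0 ≤ E ∧
      E + L (k + f) (t + chV M₀ cb j * q) (t + chV M₀ cb j * q) ≤ 1 - (1 / 2) ^ k₀ (2 * I) ∧
      LbU S ((range (k + f)).image c) (c (k + f)) (t + chV M₀ cb j * q)
        (L (k + f) (t + chV M₀ cb j * q) (t + chV M₀ cb j * q)) rk E := by
    intro j hj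
    refine hAt _ (R.memG.2 j hj) ?_
    have h1 := abs_le.1 (hVK' j hj)
    have h2 := mul_le_mul_of_nonneg_right h1.1 hq0.le
    have h3 := mul_le_mul_of_nonneg_right h1.2 hq0.le
    rw [abs_le]
    constructor <;> linarith [hAt1.1, hAt1.2]
  have hhalf : (0 : ℝ) < (1 / 2) ^ k₀ (2 * I) := by positivity
  obtain ⟨S₁, hsub, R₁, hlab⟩ := hlbe (m₁ := Λ * q) R hK0 hVK (by
    have h1 : 0 ≤ K' * q := by positivity
    linarith) (fun j hj => by
    obtain ⟨rd, -, h2⟩ := hCh _ (R.memG.2 j hj)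
    exact ⟨rd, h2⟩) (fun j hj => by
    obtain ⟨rk, E, h1, h2, h3, h4, h5⟩ := hattS j hj
    refine ⟨rk, E, h3, ?_, h5⟩
    have h6 : E + L (k + f) (t + chV M₀ cb j * q) (t + chV M₀ cb j * q) + Λ * q ≤ 1 := by
      linarith
    exact h6)
  have hatt₁ : ∀ j < (cb + co) * M₀ + 1, ∃ rk E : ℝ, 0 ≤ rk ∧ rk < 1 ∧ 0 ≤ E ∧
      E + L (k + f) (t + chV M₀ cb j * q) (t + chV M₀ cb j * q) + Λ * q ≤ 1 ∧
      LbU S₁ ((range (k + f)).image c) (c (k + f)) (t + chV M₀ cb j * q)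
        (L (k + f) (t + chV M₀ cb j * q) (t + chV M₀ cb j * q)) rk E := by
    intro j hj
    obtain ⟨rk, E, h1, h2, h3, h4, h5⟩ := hattS j hj
    exact ⟨rk, E, h1, by linarith, h3, by linarith, h5.sub hsub⟩
  -- the boxes
  have hbox : ∀ z ∈ Bx, ∃ sp : ℕ → ℝ → ℝ, ∀ (S₃ : PCl (k + f + 1)), S₃.Ne →
      (∀ (τ : ℝ) (J : ℕ) (F : Fam (k + f + 1) J) (A : F.Ω → Prop),
        S₃.St τ J F A → S₁.St τ J F A) →
      ∀ φ e' : ℝ, φm * q ≤ φ → 400 * φ ≤ q / z.1 → em ≤ e' →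
      BoxT S₃ c k f D (fun l v => L l v v) sp
        {v | ∃ j < (cb + co) * M₀ + 1, v = t + chV M₀ cb j * q} s h (t - cb * q) (t + co * q)
        (t + (z.2 : ℝ) / z.1 * q) (q / z.1) Λ φ e' (lh (L (k + f)) G) := by
    intro z hz
    obtain ⟨i, hi, hiz⟩ := hbx2 z hz
    obtain ⟨g1, g2, g3⟩ := hνR z hz
    have g4 := (hB1 z hz).2
    have hz0 : (0 : ℝ) < z.1 := by linarith
    have hqz : q / z.1 ≤ q := div_le_self hq0.le g1
    have hqz0 : 0 < q / z.1 := by positivity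
    have hq2 : q ≤ (cb + co + Λ + 2) * q := le_mul_of_one_le_left hq0.le (by linarith)
    obtain ⟨kk, hk0', hk1, hk2⟩ := pow_near (q := q / z.1) (k₀ := k₀ i) hqz0 (by
      have h1 := hmk' i (by omega)
      exact hqz.trans_lt (hq2.trans_lt (hqm.trans_le h1)))
    refine ⟨fun i x => L i x x - 1 / 8 / 20 * (1 / 2) ^ kk, fun S₃ hne hs₃ φ e' a1 a2 a3 => ?_⟩
    -- the two points
    have hFa : FaQ (k, Cx z, (1 / 8 : ℚ), κ') (k₀ i) S P θ c Pt rt L Tb κ G (x i) := by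
      obtain ⟨-, -, -, hQ0⟩ := hx i (by omega)
      have e1 : vpF k (fun i => Cx (bx i)) κ' pn I p i = Sum.inl (k, Cx z, 1 / 8, κ') := by
        unfold vpF
        rw [if_pos hi]
        simp only [hiz]
      rw [e1] at hQ0
      exact hQ0
    have hFx : t + (z.2 : ℝ) / z.1 * q - (Cx z + (7 * k + 12) / 2 - Λ) * (q / z.1) ≤ x i ∧
        x i ≤ t + (z.2 : ℝ) / z.1 * q - (Cx z / 2 + 7 * k + 13) * (q / z.1) := by
      obtain ⟨-, h1, h2, -⟩ := hx i (by omega)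
      unfold vbF at h1 h2
      rw [if_pos hi] at h1 h2
      simp only [hiz] at h1 h2
      have e1 : ∀ X : ℝ, ((z.2 : ℝ) / z.1 - X / z.1) * q = (z.2 : ℝ) / z.1 * q - X * (q / z.1) :=
        fun X => by ring
      rw [e1] at h1 h2
      exact ⟨by linarith, by linarith⟩
    have hNl : NlaQ pn (k₀ (I + i)) S P θ c Pt rt L Tb κ G (x (I + i)) := by
      obtain ⟨-, -, -, hQ0⟩ := hx (I + i) (by omega)
      have e1 : vpF k (fun i => Cx (bx i)) κ' pn I p (I + i) = Sum.inr (Sum.inl pn) := by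
        unfold vpF
        rw [if_neg (by omega), if_pos (by omega)]
      rw [e1] at hQ0
      exact hQ0
    have hNx : t + (z.2 : ℝ) / z.1 * q - q / z.1 ≤ x (I + i) ∧
        x (I + i) ≤ t + (z.2 : ℝ) / z.1 * q := by
      obtain ⟨-, h1, h2, -⟩ := hx (I + i) (by omega)
      unfold vbF at h1 h2
      rw [if_neg (by omega), if_pos (by omega), Nat.add_sub_cancel_left] at h1 h2
      simp only [hiz] at h1 h2
      have e1 : ((z.2 : ℝ) / z.1 - 1 / z.1) * q = (z.2 : ℝ) / z.1 * q - q / z.1 := by ring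
      rw [e1] at h1
      exact ⟨by linarith, by linarith⟩
    obtain ⟨M₁, hM₁⟩ := hMd z hz
    have hM₁1 : 1 ≤ M₁ := by
      rcases Nat.eq_zero_or_pos M₁ with h1 | h1
      · rw [h1, mul_zero] at hM₁
        omega
      · exact h1
    have hsz : (1 + s) * ((z.2 : ℝ) / z.1) ≤ (1 + s) * K₁ :=
      mul_le_mul_of_nonneg_left g4 (by linarith)
    refine box_z R₁ hne hs₃ (M₀ := M₀) (M₁ := M₁) (D₁ := D₁) (Cf := Cx z) (pn := pn) (kk := kk)
      (kf := k₀ i) (kn := k₀ (I + i)) (κ' := κ') (x₀ := x i) (x₁ := x (I + i)) hM₁1 (hB1 z hz).1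
      hM₁ rfl (fun _ _ => rfl) (by omega) hΛ hD1 (hCxR z hz) (hCx z hz).1 (by linarith) ?_ hε hSl
      hκ1 hSs hs (hem.trans_le a3) ?_ ?_ a2 hκ'0 (by linarith) ?_ hlab hatt₁ (hFa.sub hsub) hFx.1
      hFx.2 hk0' hk2 (by linarith) (her_nla (k + f + 1) pn _ S S₁ P θ c Pt rt L Tb κ G _ hsub hNl)
      hNx.1 hNx.2 ?_
    · rw [hK']
      have : ε ≤ 1 := by linarith
      linarith
    · have h5 := mul_le_mul_of_nonneg_right hε1 hq0.le
      linarith
    · have h5 := mul_le_mul_of_nonneg_right hMφ hq0.le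
      have h6 : (3 * s + 1) * (q / M₀) = (3 * s + 1) / M₀ * q := by ring
      rw [h6]
      linarith
    · exact hpn'.trans (mul_le_mul_of_nonneg_right a3 (by positivity))
    · have h1 := hqk (I + i) (by omega)
      have h2 : (Λ + 2) * (q / z.1) ≤ (Λ + 2) * q :=
        mul_le_mul_of_nonneg_left hqz (by linarith)
      linarith
  -- no record with the tie
  have hcore : ∀ z ∈ Bx, ∀ (S₃ : PCl (k + f + 1)), S₃.Ne →
      (∀ (τ : ℝ) (J : ℕ) (F : Fam (k + f + 1) J) (A : F.Ω → Prop),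
        S₃.St τ J F A → S₁.St τ J F A) →
      TieW S₃ c k f D D' al (fun l v => L l v v)
        {v | ∃ j < (cb + co) * M₀ + 1, v = t + chV M₀ cb j * q} s (t - cb * q)
        (t + (z.2 : ℝ) / z.1 * q) (q / z.1) Λ₂ T δ₀ (φL * (q / z.1)) (φm * q) Dr₀ → False := by
    intro z hz S₃ hne hs₃ htie
    obtain ⟨i, hi, hiz⟩ := hbx2 z hz
    obtain ⟨g1, g2, g3⟩ := hνR z hz
    have g4 := (hB1 z hz).2
    obtain ⟨sp, hsp⟩ := hbox z hz
    obtain ⟨ν, hν⟩ : ∃ ν, ν = z.1 := ⟨_, rfl⟩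
    obtain ⟨μ, hμ⟩ : ∃ μ, μ = z.2 := ⟨_, rfl⟩
    have hν1 : 1 ≤ ν := by rw [hν]; exact (hB1 z hz).1
    have hMd' := hMd z hz
    rw [← hν] at g1 g2 g3 g4 hMd'
    rw [← hμ] at g3 g4
    rw [← hν, ← hμ] at htie hsp
    have hν0 : (0 : ℝ) < ν := by linarith
    obtain ⟨M₁, hM₁⟩ := hMd'
    have hM₁1 : 1 ≤ M₁ := by
      rcases Nat.eq_zero_or_pos M₁ with h1 | h1
      · rw [h1, mul_zero] at hM₁
        omega
      · exact h1
    have hM₁0 : (0 : ℝ) < M₁ := by exact_mod_cast hM₁1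
    have hMR : (M₀ : ℝ) = ν * M₁ := by rw [hM₁]; push_cast; ring
    have hsz : (1 + s) * ((μ : ℝ) / ν) ≤ (1 + s) * K₁ :=
      mul_le_mul_of_nonneg_left g4 (by linarith)
    have hco1 : Λ + 1 + μ ≤ ν * (co : ℝ) := by
      have h1 := mul_le_mul_of_nonneg_right (show Λ + 1 + (μ : ℝ) / ν ≤ co by linarith) hν0.le
      have h2 : Λ + 1 ≤ (Λ + 1) * ν := le_mul_of_one_le_right (by linarith) g1
      have h3 : (Λ + 1 + (μ : ℝ) / ν) * ν = (Λ + 1) * ν + μ := by field_simp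
      linarith
    have hco2 : μ ≤ ν * co := by
      have : (μ : ℝ) ≤ ν * co := by linarith
      exact_mod_cast this
    obtain ⟨co₁, hco₁⟩ : ∃ co₁, ν * co = co₁ + μ := ⟨ν * co - μ, by omega⟩
    have hcoR : (ν : ℝ) * co = co₁ + μ := by exact_mod_cast hco₁
    have hεν : ε * ν ≤ ε * Pr := mul_le_mul_of_nonneg_left g2 hε.le
    have R' := rec_z R₁ hne hs₃ (cb := cb) (co := co) (ν := ν) (μ := μ) (Λ := Λ) (s := s) hν1
      (by linarith) (by
        rw [hK']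
        have : ε ≤ 1 := by linarith
        linarith) hε hse.symm hs0
    have e0 : (1 : ℝ) / ν * q = q / ν := by ring
    have hεy : 2 * ε / (1 / (ν : ℝ)) = 2 * (ε * ν) := by
      field_simp
    have hqν0 : 0 < q / ν := by positivity
    have hbx := (hsp S₃ hne hs₃ (φL * (q / ν)) φ₀ (by
      have h1 := (hφmx ν hν0.le g2).1
      have h2 := mul_le_mul_of_nonneg_right h1 hqν0.le
      have h3 : ν * φm * (q / ν) = φm * q := by field_simp
      linarith) (by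
      have h1 := mul_le_mul_of_nonneg_right hφL3 hqν0.le
      linarith) hem1).la hΛa
    have e1 : t + (μ : ℝ) / ν * q - ((ν * cb + μ : ℕ) : ℝ) * (1 / ν * q) = t - cb * q := by
      push_cast
      field_simp
      ring
    have e2 : t + (μ : ℝ) / ν * q + (co₁ : ℝ) * (1 / ν * q) = t + (co : ℝ) * q := by
      have h1 : (co₁ : ℝ) = ν * co - μ := by linarith
      rw [h1]
      field_simp
      ring
    have e3 : ν * φm * (1 / ν * q) = φm * q := by field_simp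
    have hN'' : (cb + co) * M₀ + 1 = ((ν * cb + μ) + co₁) * M₁ + 1 := by
      congr 1
      have h1 : (ν * cb + μ) + co₁ = ν * (cb + co) := by
        rw [mul_add, hco₁]
        ring
      rw [h1, hM₁]
      ring
    have hgr : {v : ℝ | ∃ j < (cb + co) * M₀ + 1, v = t + chV M₀ cb j * q} =
        {v : ℝ | ∃ j < (cb + co) * M₀ + 1,
          v = t + (μ : ℝ) / ν * q + chV M₁ (ν * cb + μ) j * (1 / (ν : ℝ) * q)} := by
      rw [grid_zoom hν1, ← hM₁]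
    rw [hgr, ← e0, ← e1, ← e3] at htie
    rw [hgr, ← e0, ← e1, ← e2] at hbx
    have h1M : 1 / (M₁ : ℝ) ≤ ν * φm := by
      have h1 := mul_le_mul_of_nonneg_left hMφ1 hν0.le
      rw [hMR] at h1
      have h2 : (ν : ℝ) * (1 / (ν * M₁)) = 1 / M₁ := by field_simp
      linarith
    have hKs : (((ν * cb + μ : ℕ) : ℝ)) + co₁ = ν * (cb + co) := by
      push_cast
      linarith
    have hνcb : (cb : ℝ) ≤ ν * cb := le_mul_of_one_le_left hcb0 g1
    have hμ0 : (0 : ℝ) ≤ μ := Nat.cast_nonneg _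
    have hνcc : 0 ≤ ν * ((cb : ℝ) + co) := by positivity
    have hεm := mul_le_mul_of_nonneg_right hε1 hν0.le
    have hCε := mul_le_mul_of_nonneg_left hεν hC0.le
    exact v0t_core hend hV (fun v hv => hCBv v hv) hCB1 hCB hDr hDr₀ hk hpv hlast hC10 hs hΛ₁
      hm₀ hz₀ hz₀1 hCz hβm hnum (fun l hl => (hκζ l hl).2.2.1) hφL hφL1 (by linarith)
      (by positivity) (hφmx ν hν0.le g2).1 R'
      (M₀ := M₁) (cb := ν * cb + μ) (co := co₁) hM₁1 (by linarith) (by push_cast; linarith) hN''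
      (fun j hj => by
        show (chV M₀ cb j - (μ : ℝ) / ν) / (1 / ν) = _
        rw [hM₁, chV_zoom hν1]) (by rw [hKs]; linarith) (by linarith) (by positivity)
      (by rw [hεy]; linarith) (by rw [hεy]; linarith) (by rw [hεy]; linarith) h1M hSl hSs hκt (by
        refine ⟨i, by omega, ?_, ?_⟩
        · show (mgF I (fun i => ((bx i).2 : ℝ) / (bx i).1 + 1 / (bx i).1) A₁ i - (μ : ℝ) / ν) /
            (1 / ν) = 1
          unfold mgF
          rw [if_pos hi]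
          simp only [hiz, ← hν, ← hμ]
          field_simp
          ring
        · show (mgF I (fun i => ((bx i).2 : ℝ) / (bx i).1 + z₀ / 2 / (bx i).1) V₁ i -
            (μ : ℝ) / ν) / (1 / ν) = z₀ / 2
          unfold mgF
          rw [if_pos hi]
          simp only [hiz, ← hν, ← hμ]
          field_simp
          ring) hbx htie
  -- the tie
  have hS1ne : S₁.Ne := R₁.ne
  have hφ400 : ∀ y : ℝ, 1 ≤ y → y ≤ Pr → 400 * (φm * q) ≤ q / y := fun y h1 h2 => by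
    have hy0 : 0 < y := by linarith
    rw [le_div_iff₀ hy0]
    have h3 := (hφmx y hy0.le h2).1
    have h4 := mul_le_mul_of_nonneg_right (h3.trans hφL3) hq0.le
    linarith
  obtain ⟨sp₀, hsp₀⟩ := hbox _ hB0
  have hb0 := (hsp₀ S₁ hS1ne (fun _ _ _ _ h => h) (φm * q) e le_rfl
    (hφ400 _ (by push_cast; exact le_rfl) (by push_cast; exact hPrR)) hem2).la hΛb
  have ht0e : t + ((((1, 0) : ℕ × ℕ).2 : ℕ) : ℝ) / (((1, 0) : ℕ × ℕ).1 : ℕ) * q = t := by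
    push_cast
    ring
  have ht0f : q / (((((1, 0) : ℕ × ℕ).1 : ℕ)) : ℝ) = q := by
    push_cast
    ring
  rw [ht0e, ht0f] at hb0
  rw [hse] at hb0
  obtain ⟨S₃, hne₃, hs₃, z, hz, htie⟩ := hT (x := fun j => x (j + (2 * I + 2))) hsub hqt
    (fun j hj => by
      obtain ⟨y1, y2, y3, y4⟩ := hx (j + (2 * I + 2)) (by omega)
      unfold vbF at y2 y3
      rw [if_neg (by omega), if_neg (by omega), if_neg (by omega), Nat.add_sub_cancel] at y2 y3
      rw [hpj] at y4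
      exact ⟨y1, y2, y3, hQ _ _ _ _ _ _ _ _ _ _ _ _ _ _ hsub y4⟩) R₁ subw_mgF
    (fun _ _ => rfl) (by linarith) (by linarith) (mul_le_mul_of_nonneg_right hφm2 hq0.le) (by
      have h1 := mul_le_mul_of_nonneg_right hMφ1 hq0.le
      have h2 : q / (M₀ : ℝ) = 1 / M₀ * q := by ring
      rw [h2]
      exact h1) hb0 (fun z hz => by
      have hz' := hBs z hz
      obtain ⟨g1, g2, g3⟩ := hνR z hz'
      obtain ⟨sp, hsp⟩ := hbox z hz'
      refine ⟨sp, ?_⟩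
      rw [← hse]
      exact (hsp S₁ hS1ne (fun _ _ _ _ h => h) (φm * q) e le_rfl (hφ400 _ g1 g2) hem2).la hΛb)
  rw [← hse] at htie
  exact hcore z (hBs z hz) S₃ hne₃ hs₃ htie

end Pool.T4C72
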