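import Pool.Agent.H72.T4C.Bxa

/-!
# A record in a smaller unit

`recG_zoom`: a record at `t` in the unit `q` is a record at `t + x q` in the unit `y q`. `box_z`: the
box of a record at the window `t + (μ / ν) q`, in the unit `q / ν`.
-/

set_option autoImplicit false

namespace Pool.T4C72

open Finset Real MvPolynomial
open Pool.Agent.H49.Ent Pool.Agent.H32.Dense
open Pool.STK hiding pr2
open Pool.KA Pool.KSAT Pool.K2S Pool.PB Pool.S6C
open Pool.GEN Pool.LA91 Pool.RCD Pool.OWN68 Pool.V0F Pool.V0T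
open Pool.PKG (Kg KgQ RecT RecG PropG)

theorem kgQ_zoom {k : Kg} {L T : ℝ → ℝ → ℝ} {s t K K' q ε x y : ℝ} (h : KgQ k L T s t K q ε)
    (hx : 0 ≤ x) (hy : 0 < y) (hK : K' * y + x ≤ K) (hq : 0 < q) (hε : 0 ≤ ε) :
    KgQ k L T s (t + x * q) K' (y * q) (2 * ε / y) := by
  have h1 : K' * (y * q) + x * q ≤ K * q := by
    have := mul_le_mul_of_nonneg_right hK hq.le
    linarith
  have h2 : 0 ≤ x * q := mul_nonneg hx hq.le
  have h3 : 0 ≤ ε * q := mul_nonneg hε hq.le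
  have h4 : 2 * ε / y * (y * q) = 2 * (ε * q) := by
    field_simp
  cases k with
  | one => exact h
  | thin => exact ⟨h.1, fun a w b1 b2 b3 => (h.2 a w (by linarith) b2 (by linarith)).trans
      (by linarith)⟩
  | sta => exact ⟨h.1, fun a w b1 b2 b3 => (h.2 a w (by linarith) b2 (by linarith)).trans
      (by linarith)⟩
  | stp => exact ⟨h.1, fun a w b1 b2 b3 => (h.2 a w (by linarith) b2 (by linarith)).trans
      (by linarith)⟩
  | any => trivial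

section

variable {m : ℕ} {S : PCl m} {al : ℝ} {g₀ : ℝ → ℝ} {P : List (Fin m) × Fin m → ℝ → ℝ → ℝ}
  {θ : ℝ} {P₂ : ℕ → List (Fin m) × Fin m → ℝ → ℝ → ℝ} {θ₂ Eb e₂ : ℕ → ℝ}
  {c : ℕ → Fin m} {Pt : ℝ → ℝ → ℝ} {rt : ℝ → ℝ} {h K₀ g : ℝ} {L T : ℕ → ℝ → ℝ → ℝ}
  {Sl : ℕ → ℝ} {κ : ℕ → Kg} {G : Set ℝ} {S₀ N : ℕ} {A V : ℕ → ℝ} {S₂ N' : ℕ} {V' : ℕ → ℝ}
  {K ε q t : ℝ}

/-- **A record in a smaller unit** `y q`, at the window `t + x q`. -/
theorem recG_zoom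
    (R : RecG S al g₀ P θ P₂ θ₂ Eb e₂ c Pt rt h K₀ g L T Sl κ G S₀ N A V S₂ N' V' K ε q t)
    {x y K' : ℝ} (hx : 0 ≤ x) (hy : 0 < y) (hK' : 0 ≤ K') (hε : 0 ≤ ε) (hm : 1 ≤ m)
    (hK : K' * y + (1 + |Sl (m - 1)|) * x + ε ≤ K) :
    RecG S al g₀ P θ P₂ θ₂ Eb e₂ c Pt rt h ((K₀ + x) / y) g L T Sl κ G S₀ N
      (fun k => (A k - x) / y) (fun k => (V k - x) / y) S₂ N' (fun k => (V' k - x) / y) K'
      (2 * ε / y) (y * q) (t + x * q) := by
  have hq := R.q0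
  have hSx : 0 ≤ |Sl (m - 1)| * x := mul_nonneg (abs_nonneg _) hx
  have hKx : K' * y + x ≤ K := by
    have : (1 + |Sl (m - 1)|) * x = x + |Sl (m - 1)| * x := by ring
    linarith
  have hKq : K' * (y * q) + x * q ≤ K * q := by
    have := mul_le_mul_of_nonneg_right hKx hq.le
    linarith
  have hxq : 0 ≤ x * q := mul_nonneg hx hq.le
  have hεq : 0 ≤ ε * q := mul_nonneg hε hq.le
  have hyq : 0 < y * q := mul_pos hy hq
  have hK'q : 0 ≤ K' * (y * q) := mul_nonneg hK' hyq.le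
  have e2 : 2 * ε / y * (y * q) = 2 * (ε * q) := by
    field_simp
  have hw : ∀ z : ℝ, t + x * q + (z - x) / y * (y * q) = t + z * q := fun z => by
    field_simp
    ring
  have hin : ∀ z : ℝ, |z - (t + x * q)| ≤ K' * (y * q) → |z - t| ≤ K * q := fun z hz => by
    have h1 := abs_le.1 hz
    rw [abs_le]
    constructor <;> linarith [h1.1, h1.2]
  have ht' : |t + x * q - t| ≤ K * q := by
    rw [add_sub_cancel_left, abs_of_nonneg hxq]
    linarith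
  have h3K : 3 * K' * (y * q) ≤ 3 * K * q := by linarith
  have hSl : ∀ l < m, ∀ z : ℝ, |z - (t + x * q)| ≤ K' * (y * q) →
      |L l z z - L l (t + x * q) (t + x * q) - Sl l * (z - (t + x * q))| ≤
        2 * ε / y * (y * q) := by
    intro l hl z hz
    have h1 := abs_le.1 (R.dL l hl z (hin z hz))
    have h2 := abs_le.1 (R.dL l hl (t + x * q) ht')
    have h3 : Sl l * (z - t) = Sl l * (z - (t + x * q)) + Sl l * (t + x * q - t) := by ring
    rw [abs_le, e2]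
    constructor <;> linarith [h1.1, h1.2, h2.1, h2.2]
  refine ⟨R.ne, R.al0, R.g₀pos, R.clx, R.thr, R.th0, R.tgs, R.rate, R.inj, R.c0, R.law, R.lv,
    R.lawL, hyq, ?_, ?_, ?_, ?_, ?_, ?_, hSl, ?_, R.s0, ?_, ?_, ?_, ?_, R.tgl⟩
  · linarith [R.t0]
  · linarith [R.t1]
  · have h1 := abs_le.1 R.near
    have h2 : (K₀ + x) / y * (y * q) = K₀ * q + x * q := by
      field_simp
    rw [h2, abs_le]
    constructor <;> linarith [h1.1, h1.2]
  · refine ⟨fun k hk => ?_, fun k hk => ?_⟩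
    · rw [hw, hw]
      exact R.memG.1 k hk
    · rw [hw]
      exact R.memG.2 k hk
  · intro k hk l hl
    rw [hw, hw]
    exact R.TL k hk l hl
  · intro k hk l hl
    rw [hw]
    exact R.TLc k hk l hl
  · intro l hl z hz
    have h1 := abs_le.1 (R.dT l hl z (hin z hz))
    have h2 := abs_le.1 (R.dL l hl (t + x * q) ht')
    have h3 : Sl l * (z - t) = Sl l * (z - (t + x * q)) + Sl l * (t + x * q - t) := by ring
    rw [abs_le, e2]
    constructor <;> linarith [h1.1, h1.2, h2.1, h2.2]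
  · intro z hz
    refine (R.l0 z (hin z hz)).trans (by rw [e2]; linarith)
  · exact fun l hl => kgQ_zoom (R.kd l hl) hx hy hKx hq hε
  · intro z₁ z₂ hz₁ hz₂ hzz
    have h2 := abs_le.1 (R.dL (m - 1) (by omega) (t + x * q) ht')
    have h3 : |Sl (m - 1) * (t + x * q - t)| ≤ |Sl (m - 1)| * (x * q) := by
      rw [abs_mul, add_sub_cancel_left, abs_of_nonneg hxq]
    have h4 := abs_le.1 h3
    have h5 : K' * (y * q) + x * q + |Sl (m - 1)| * (x * q) + ε * q ≤ K * q := by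
      have h6 := mul_le_mul_of_nonneg_right hK hq.le
      have h7 : (K' * y + (1 + |Sl (m - 1)|) * x + ε) * q =
        K' * (y * q) + x * q + |Sl (m - 1)| * (x * q) + ε * q := by ring
      linarith
    have h8 := abs_le.1 hz₁
    have h9 := abs_le.1 hz₂
    refine (R.row z₁ z₂ ?_ ?_ hzz).trans (by rw [e2]; linarith)
    · rw [abs_le]
      constructor <;> linarith [h2.1, h2.2, h4.1, h4.2, h8.1, h8.2]
    · rw [abs_le]
      constructor <;> linarith [h2.1, h2.2, h4.1, h4.2, h9.1, h9.2]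
  · intro l hl1 hl
    have W := R.tg l hl1 hl
    refine ⟨W.thr₂, W.th₂0, W.Eb0, by linarith [W.Ebe], fun z hz => W.eθ z (hin z hz),
      fun j hj z hz => by linarith [W.room j hj z (hin z hz)], ?_, ?_, ?_, ?_⟩
    · intro k hk
      rw [hw, hw]
      exact W.pt k hk
    · intro k hk
      rw [hw, hw]
      exact W.rat k hk
    · intro k hk
      rw [hw]
      exact W.ptc k hk
    · intro k hk
      rw [hw]
      exact W.ratc k hk

end

/-- The chain in a smaller unit. -/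
theorem chV_zoom {M₁ cb ν μ : ℕ} (hν : 1 ≤ ν) (j : ℕ) :
    (chV (ν * M₁) cb j - (μ : ℝ) / ν) / (1 / ν) = chV M₁ (ν * cb + μ) j := by
  have hν0 : (0 : ℝ) < ν := by exact_mod_cast hν
  unfold chV
  push_cast
  rcases Nat.eq_zero_or_pos M₁ with h | h
  · subst h
    field_simp
    simp
    ring
  · have h0 : (0 : ℝ) < M₁ := by exact_mod_cast h
    field_simp
    ring

/-- The grid in a smaller unit. -/
theorem grid_zoom {M₁ cb N' ν μ : ℕ} (hν : 1 ≤ ν) (t q : ℝ) :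
    {v : ℝ | ∃ j < N', v = t + (μ : ℝ) / ν * q + chV M₁ (ν * cb + μ) j * (1 / (ν : ℝ) * q)} =
      {v : ℝ | ∃ j < N', v = t + chV (ν * M₁) cb j * q} := by
  have hν0 : (0 : ℝ) < ν := by exact_mod_cast hν
  have h : ∀ j, t + (μ : ℝ) / ν * q + chV M₁ (ν * cb + μ) j * (1 / (ν : ℝ) * q) =
      t + chV (ν * M₁) cb j * q := fun j => by
    rw [← chV_zoom hν]
    field_simp
    ring
  simp only [h]

section

variable {k f : ℕ} {S S₁ : PCl (k + f + 1)} {al : ℝ} {g₀ : ℝ → ℝ}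
  {P : List (Fin (k + f + 1)) × Fin (k + f + 1) → ℝ → ℝ → ℝ}
  {θ : ℝ} {P₂ : ℕ → List (Fin (k + f + 1)) × Fin (k + f + 1) → ℝ → ℝ → ℝ} {θ₂ Eb e₂ : ℕ → ℝ}
  {c : ℕ → Fin (k + f + 1)} {Pt : ℝ → ℝ → ℝ} {rt : ℝ → ℝ} {h K₀ g : ℝ} {L T : ℕ → ℝ → ℝ → ℝ}
  {Sl : ℕ → ℝ} {κ : ℕ → Kg} {G : Set ℝ} {S₀ N : ℕ} {A V : ℕ → ℝ} {S₂ N' : ℕ} {V' : ℕ → ℝ}
  {K ε q t : ℝ}
  (R : RecG S al g₀ P θ P₂ θ₂ Eb e₂ c Pt rt h K₀ g L T Sl κ G S₀ N A V S₂ N' V' K ε q t)
include R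

/-- **The record in a smaller unit**, with its chain: the window `t + (μ / ν) q`, the unit
`q / ν`. -/
theorem rec_z (hne : S₁.Ne) (hs₁ : ∀ (τ : ℝ) (J : ℕ) (F : Fam (k + f + 1) J) (A : F.Ω → Prop),
    S₁.St τ J F A → S.St τ J F A) {cb co ν μ : ℕ} {Λ s : ℝ} (hν : 1 ≤ ν) (hΛ : 0 ≤ Λ)
    (hK : (cb : ℝ) + co + Λ + s + 10 + (1 + s) * ((μ : ℝ) / ν) + ε ≤ K) (hε : 0 < ε)
    (hSs : Sl (k + f) = s) (hs : 0 < s) :
    RecG S₁ al g₀ P θ P₂ θ₂ Eb e₂ c Pt rt h ((K₀ + (μ : ℝ) / ν) / (1 / ν)) g L T Sl κ G S₀ N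
      (fun j => (A j - (μ : ℝ) / ν) / (1 / ν)) (fun j => (V j - (μ : ℝ) / ν) / (1 / ν)) S₂ N'
      (fun j => (V' j - (μ : ℝ) / ν) / (1 / ν)) (ν * (cb + co) + Λ + s + 10)
      (2 * ε / (1 / ν)) (1 / ν * q) (t + (μ : ℝ) / ν * q) := by
  have hν0 : (0 : ℝ) < ν := by exact_mod_cast hν
  have hν1 : (1 : ℝ) ≤ ν := by exact_mod_cast hν
  have hcb0 : (0 : ℝ) ≤ cb := Nat.cast_nonneg _
  have hco0 : (0 : ℝ) ≤ co := Nat.cast_nonneg _
  have hSk : Sl (k + f + 1 - 1) = s := by rw [Nat.add_sub_cancel, hSs]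
  refine recG_zoom (R.sub hne hs₁) (by positivity) (by positivity) (by positivity) hε.le
    (by omega) ?_
  rw [hSk, abs_of_pos hs]
  have h1 : (ν * ((cb : ℝ) + co) + Λ + s + 10) * (1 / ν) = cb + co + (Λ + s + 10) / ν := by
    field_simp
    ring
  have h2 : (Λ + s + 10) / ν ≤ Λ + s + 10 := div_le_self (by positivity) hν1
  rw [h1]
  linarith

/-- **The box of a record** at the window `t + (μ / ν) q`, in the unit `q / ν`, in a subclass. -/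
theorem box_z (hne : S₁.Ne) (hs₁ : ∀ (τ : ℝ) (J : ℕ) (F : Fam (k + f + 1) J) (A : F.Ω → Prop),
    S₁.St τ J F A → S.St τ J F A)
    {M₀ M₁ cb co D₁ D Cf pn kk kf kn ν μ : ℕ} {κ' : ℚ} {Λ φ e s x₀ x₁ : ℝ} (hM : 1 ≤ M₁)
    (hν : 1 ≤ ν) (hMν : M₀ = ν * M₁)
    (hN' : N' = (cb + co) * M₀ + 1) (hV' : ∀ k < N', V' k = chV M₀ cb k)
    (hk1 : 1 ≤ k + f) (hΛ : 1 ≤ Λ) (hD : D₁ ≤ D)
    -- the constants
    (hCf : 2 * Λ + 7 * k + 15 ≤ Cf) (hcb : ν * cb + μ = Cf + 7 * k + 13)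
    (hco : Λ + 1 + (μ : ℝ) / ν ≤ co)
    (hK : (cb : ℝ) + co + Λ + s + 10 + (1 + s) * ((μ : ℝ) / ν) + ε ≤ K) (hε : 0 < ε)
    (hSl : ∀ l < k, Sl l = 1) (hκ1 : ∀ l < k, κ l = .one)
    (hSs : ∀ l, k ≤ l → l ≤ k + f → Sl l = s) (hs : 1 < s) (he0 : 0 < e)
    (hφ : 8 * (ε * q) ≤ φ) (hφM : (3 * s + 1) * (q / M₀) ≤ φ) (hφq : 400 * φ ≤ q / ν)
    (hκ'0 : (0 : ℝ) < κ') (hκ'e : (κ' : ℝ) ≤ e) (hpn : Λ + 2 ≤ e * (pn + 1))
    -- the labels
    (hlab : ∀ j < N', ∃ (E rd : ℕ → ℝ) (ρ : ℝ), ρ < 1 ∧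
        (∀ l ≤ k + f + 1 - 1, 0 ≤ E l ∧ L l (t + V' j * q) (t + V' j * q) + E l + Λ * q ≤ 1 ∧
          0 ≤ rd l ∧ rd l ≤ ρ) ∧ ∀ e : ℝ, 0 < e →
        Bas S (fun J F A => ∃ (V : Type) (z : PtT F → V) (z' : LnT F → V)
          (g : V → ℕ → MvPolynomial (Option (Fin (k + f + 1))) ℝ),
          LbE F c (k + f + 1) D₁ E e (t + V' j * q) rd
            (fun l => L l (t + V' j * q) (t + V' j * q)) A z z' g))
    (hatt : ∀ j < N', ∃ rk E : ℝ, 0 ≤ rk ∧ rk < 1 ∧ 0 ≤ E ∧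
      E + L (k + f) (t + V' j * q) (t + V' j * q) + Λ * q ≤ 1 ∧
      LbU S ((range (k + f)).image c) (c (k + f)) (t + V' j * q)
        (L (k + f) (t + V' j * q) (t + V' j * q)) rk E)
    -- the properties of the points
    (hFa : FaQ (k, Cf, (1 / 8 : ℚ), κ') kf S P θ c Pt rt L T κ G x₀)
    (hx01 : t + (μ : ℝ) / ν * q - (Cf + (7 * k + 12) / 2 - Λ) * (q / ν) ≤ x₀)
    (hx02 : x₀ ≤ t + (μ : ℝ) / ν * q - (Cf / 2 + 7 * k + 13) * (q / ν))
    (hkf : kf ≤ kk) (hk2 : (1 / 2 : ℝ) ^ kk ≤ q / ν) (hk3 : q / ν / 2 ≤ (1 / 2 : ℝ) ^ kk)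
    (hNl : NlaQ pn kn S P θ c Pt rt L T κ G x₁) (hx11 : t + (μ : ℝ) / ν * q - q / ν ≤ x₁)
    (hx12 : x₁ ≤ t + (μ : ℝ) / ν * q) (hkn : (Λ + 2) * (q / ν) ≤ (1 / 2) ^ kn) :
    BoxT S₁ c k f D (fun l v => L l v v) (fun i x => L i x x - 1 / 8 / 20 * (1 / 2) ^ kk)
      {v | ∃ j < N', v = t + chV M₀ cb j * q} s h (t - cb * q) (t + co * q)
      (t + (μ : ℝ) / ν * q) (q / ν) Λ φ e (lh (L (k + f)) G) := by
  subst hMν
  have hMR : ((ν * M₁ : ℕ) : ℝ) = ν * M₁ := by push_cast; ring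
  rw [hMR] at hφM
  have hq0 := R.q0
  have hν0 : (0 : ℝ) < ν := by exact_mod_cast hν
  have hν1 : (1 : ℝ) ≤ ν := by exact_mod_cast hν
  have hM0 : (0 : ℝ) < M₁ := by exact_mod_cast hM
  have hs0 : 0 < s := by linarith
  have hμν : (μ : ℝ) / ν * ν = μ := by field_simp
  have hco1 : Λ + 1 + μ ≤ ν * (co : ℝ) := by
    have h1 := mul_le_mul_of_nonneg_right hco hν0.le
    have h2 : Λ + 1 ≤ (Λ + 1) * ν := le_mul_of_one_le_right (by linarith) hν1
    have h3 : (Λ + 1 + (μ : ℝ) / ν) * ν = (Λ + 1) * ν + μ := by rw [add_mul, hμν]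
    linarith
  have hco2 : μ ≤ ν * co := by
    have : (μ : ℝ) ≤ ν * co := by linarith
    exact_mod_cast this
  obtain ⟨co₁, hco₁⟩ : ∃ co₁, ν * co = co₁ + μ := ⟨ν * co - μ, by omega⟩
  have hcoR : (ν : ℝ) * co = co₁ + μ := by exact_mod_cast hco₁
  have R' := rec_z R hne hs₁ (cb := cb) (co := co) (ν := ν) (μ := μ) (Λ := Λ) (s := s) hν
    (by linarith) hK hε (hSs _ (by omega) le_rfl) hs0
  have e0 : (1 : ℝ) / ν * q = q / ν := by ring
  have hw : ∀ z : ℝ, t + (μ : ℝ) / ν * q + (z - (μ : ℝ) / ν) / (1 / ν) * (1 / ν * q) =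
      t + z * q := fun z => by
    field_simp
    ring
  have hN'' : N' = ((ν * cb + μ) + co₁) * M₁ + 1 := by
    rw [hN']
    congr 1
    have h1 : (ν * cb + μ) + co₁ = ν * (cb + co) := by
      rw [mul_add, hco₁]
      ring
    rw [h1]
    ring
  have hεy : 2 * ε / (1 / (ν : ℝ)) * (1 / ν * q) = 2 * (ε * q) := by
    field_simp
  have hqq : q / ν ≤ q := div_le_self hq0.le hν1
  have hB := rec_box R' (M₀ := M₁) (cb := ν * cb + μ) (co := co₁) (D := D) (Cf := Cf) (pn := pn)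
    (kk := kk) (kf := kf) (kn := kn) (κ' := κ') (Λ := Λ) (φ := φ) (e := e) (s := s) (x₀ := x₀)
    (x₁ := x₁) hM hN'' (fun j hj => by
      show (V' j - (μ : ℝ) / ν) / (1 / ν) = _
      rw [hV' j hj, chV_zoom hν]) hk1 hΛ hCf hcb (by linarith)
    (by
      have h1 : (((ν * cb + μ : ℕ) : ℝ)) = ν * cb + μ := by push_cast; ring
      rw [h1]
      linarith) (by positivity) hSl hκ1 hSs hs he0 (by rw [hεy]; linarith) (by
      have h1 : (3 * s + 1) * (1 / (ν : ℝ) * q / M₁) = (3 * s + 1) * (q / (ν * M₁)) := by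
        field_simp
      rw [h1]
      exact hφM) (by rw [e0]; exact hφq) hκ'0 hκ'e hpn
    (fun j hj => by
      obtain ⟨E, rd, ρ, h1, h2, h3⟩ := hlab j hj
      refine ⟨E, rd, ρ, h1, ?_, fun e he => ?_⟩
      · simp only [hw]
        intro l hl
        obtain ⟨g1, g2, g3, g4⟩ := h2 l hl
        refine ⟨g1, ?_, g3, g4⟩
        have g5 : Λ * (1 / (ν : ℝ) * q) ≤ Λ * q := by
          rw [e0]
          exact mul_le_mul_of_nonneg_left hqq (by linarith)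
        linarith
      · simp only [hw]
        refine ((h3 e he).sub hs₁).mono 0 ?_
        rintro J - F A' ⟨V₁, z, z', g', h4⟩
        exact ⟨V₁, z, z', g', fun i hi => (h4 i hi).mono (Finset.Subset.refl _) hD le_rfl le_rfl
          le_rfl⟩)
    (fun j hj => by
      obtain ⟨rk, E, h1, h2, h3, h4, h5⟩ := hatt j hj
      simp only [hw]
      have g5 : Λ * (1 / (ν : ℝ) * q) ≤ Λ * q := by
        rw [e0]
        exact mul_le_mul_of_nonneg_left hqq (by linarith)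
      exact ⟨rk, E, h1, h2, h3, by linarith, h5.sub hs₁⟩)
    (hFa.sub hs₁) (by rw [e0]; exact hx01) (by rw [e0]; exact hx02) hkf (by rw [e0]; exact hk2)
    (by rw [e0]; exact hk3)
    (her_nla (k + f + 1) pn kn S S₁ P θ c Pt rt L T κ G x₁ hs₁ hNl) (by rw [e0]; exact hx11) hx12
    (by rw [e0]; exact hkn)
  rw [grid_zoom hν] at hB
  have e1 : t + (μ : ℝ) / ν * q - ((ν * cb + μ : ℕ) : ℝ) * (1 / ν * q) = t - cb * q := by
    push_cast
    field_simp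
    ring
  have e2 : t + (μ : ℝ) / ν * q + (co₁ : ℝ) * (1 / ν * q) = t + (co : ℝ) * q := by
    have h1 : (co₁ : ℝ) = ν * co - μ := by linarith
    rw [h1]
    field_simp
    ring
  rw [e1, e2, e0] at hB
  exact hB

end

end Pool.T4C72
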